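import Pool.Agent.SzBF.Defs
import Pool.Agent.SzSP.Disc

/-!
Discriminants of polynomials which are not monic: reduction, scaling, product of the values of the
derivative at the roots, product of the critical values; the set of the complex roots.
-/

open Polynomial

namespace SzBF

private theorem neg_one_pow_sq {R : Type*} [CommRing R] (n : ℕ) :
    ((-1 : R) ^ n) * (-1) ^ n = 1 := by
  rw [← pow_add, ← two_mul, pow_mul]; simp

/-- base change, if the leading coefficient does not vanish -/
theorem discr_map_of_ne {R S : Type*} [CommRing R] [CommRing S] [IsDomain S] (φ : R →+* S)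
    {f : R[X]} (h : φ f.leadingCoeff ≠ 0) : (f.map φ).discr = φ f.discr := by
  by_cases h0 : f.natDegree = 0
  · rw [eq_C_of_natDegree_eq_zero h0, map_C, discr_C, discr_C, map_one]
  · have hd : (f.map φ).natDegree = f.natDegree := natDegree_map_of_leadingCoeff_ne_zero φ h
    have hl : (f.map φ).leadingCoeff = φ f.leadingCoeff :=
      leadingCoeff_map_of_leadingCoeff_ne_zero φ h
    have h1 := resultant_deriv (f := f) (natDegree_pos_iff_degree_pos.mp (by omega))
    have h2 := resultant_deriv (f := f.map φ) (natDegree_pos_iff_degree_pos.mp (by omega))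
    rw [hd, hl, derivative_map, resultant_map_map, h1, map_mul, map_mul, map_pow, map_neg,
      map_one] at h2
    have h3 : ((-1 : S) ^ (f.natDegree * (f.natDegree - 1) / 2) * φ f.leadingCoeff) ≠ 0 :=
      mul_ne_zero (pow_ne_zero _ (by simp)) h
    exact (mul_left_cancel₀ h3 h2).symm

theorem discr_C_mul {K : Type*} [Field K] {f : K[X]} (hf : 1 ≤ f.natDegree) {c : K} (hc : c ≠ 0) :
    (C c * f).discr = c ^ (2 * f.natDegree - 2) * f.discr := by
  have hf0 : f ≠ 0 := by rintro rfl; simp at hf
  have hd : (C c * f).natDegree = f.natDegree := natDegree_C_mul hc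
  have hl : (C c * f).leadingCoeff = c * f.leadingCoeff := by
    rw [leadingCoeff_mul, leadingCoeff_C]
  have h1 := resultant_deriv (f := f) (natDegree_pos_iff_degree_pos.mp (by omega))
  have h2 := resultant_deriv (f := C c * f) (natDegree_pos_iff_degree_pos.mp (by omega))
  rw [hd, hl, derivative_C_mul, resultant_C_mul_left, resultant_C_mul_right, h1] at h2
  obtain ⟨n, hn⟩ : ∃ n, f.natDegree = n + 1 := ⟨f.natDegree - 1, by omega⟩
  rw [hn] at h2 ⊢
  have e1 : n + 1 - 1 = n := by omega
  have e2 : 2 * (n + 1) - 2 = 2 * n := by omega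
  rw [e1] at h2
  rw [e2]
  have h3 : ((-1 : K) ^ ((n + 1) * n / 2) * (c * f.leadingCoeff)) ≠ 0 :=
    mul_ne_zero (pow_ne_zero _ (by simp)) (mul_ne_zero hc (leadingCoeff_ne_zero.mpr hf0))
  apply mul_left_cancel₀ h3
  rw [← h2]
  ring

/-- product of the values of the derivative at the roots -/
theorem prod_deriv {K : Type*} [Field K] {f : K[X]} (hf : 2 ≤ f.natDegree) (hs : f.Splits) :
    f.leadingCoeff ^ (f.natDegree - 2) * (f.roots.map (fun α => f.derivative.eval α)).prod =
      (-1) ^ (f.natDegree * (f.natDegree - 1) / 2) * f.discr := by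
  have hf0 : f ≠ 0 := by rintro rfl; simp at hf
  have h1 := resultant_deriv (f := f) (natDegree_pos_iff_degree_pos.mp (by omega))
  have h2 := resultant_eq_prod_eval f f.derivative (f.natDegree - 1)
    (natDegree_derivative_le f) hs
  rw [h1] at h2
  obtain ⟨n, hn⟩ : ∃ n, f.natDegree = n + 2 := ⟨f.natDegree - 2, by omega⟩
  rw [hn] at h2 ⊢
  have e1 : n + 2 - 1 = n + 1 := by omega
  have e2 : n + 2 - 2 = n := by omega
  rw [e1] at h2 ⊢
  rw [e2]
  apply mul_left_cancel₀ (leadingCoeff_ne_zero.mpr hf0)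
  rw [pow_succ] at h2
  linear_combination -h2

/-- product of the critical values -/
theorem prod_crit {K : Type*} [Field K] [CharZero K] {f : K[X]} (hf : 1 ≤ f.natDegree)
    (hs : f.derivative.Splits) :
    ∃ ε : K, (ε = 1 ∨ ε = -1) ∧ f.discr = ε * (f.natDegree : K) ^ f.natDegree *
      f.leadingCoeff ^ (f.natDegree - 1) * (f.derivative.roots.map (fun β => f.eval β)).prod := by
  have hf0 : f ≠ 0 := by rintro rfl; simp at hf
  have h1 := resultant_deriv (f := f) (natDegree_pos_iff_degree_pos.mp (by omega))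
  have hd : f.derivative.natDegree = f.natDegree - 1 := natDegree_derivative f
  have hl : f.derivative.leadingCoeff = (f.natDegree : K) * f.leadingCoeff := by
    rw [leadingCoeff, hd, coeff_derivative, Nat.sub_add_cancel hf, coeff_natDegree, mul_comm]
    congr 1
    rw [Nat.cast_sub hf, Nat.cast_one, sub_add_cancel]
  have h2 := resultant_eq_prod_eval f.derivative f f.natDegree le_rfl hs
  rw [hd, hl] at h2
  rw [resultant_comm, h2] at h1
  set s : K := (-1) ^ (f.natDegree * (f.natDegree - 1)) with hs'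
  set t : K := (-1) ^ (f.natDegree * (f.natDegree - 1) / 2) with ht'
  have ht : t * t = 1 := neg_one_pow_sq _
  refine ⟨t * s, ?_, ?_⟩
  · rw [hs', ht', ← pow_add]
    exact neg_one_pow_eq_or K _
  · obtain ⟨n, hn⟩ : ∃ n, f.natDegree = n + 1 := ⟨f.natDegree - 1, by omega⟩
    have e1 : n + 1 - 1 = n := by omega
    rw [hn] at h1 ⊢
    rw [e1] at ⊢
    apply mul_left_cancel₀ (leadingCoeff_ne_zero.mpr hf0)
    rw [mul_pow, pow_succ f.leadingCoeff] at h1
    linear_combination (-t) * h1 - (f.leadingCoeff * f.discr) * ht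

theorem separable_of_discr {K : Type*} [Field K] {f : K[X]} (hf : 1 ≤ f.natDegree)
    (hd : f.discr ≠ 0) : f.Separable := by
  have hf0 : f ≠ 0 := by rintro rfl; simp at hf
  have h1 := resultant_deriv (f := f) (natDegree_pos_iff_degree_pos.mp (by omega))
  obtain ⟨k, hk⟩ := Nat.exists_eq_add_of_le (natDegree_derivative_le f)
  rw [hk, resultant_add_right_deg _ _ _ _ _ le_rfl, ← hk] at h1
  have h2 : resultant f f.derivative ≠ 0 := by
    intro h
    rw [h, mul_zero] at h1
    have h3 : ((-1 : K) ^ (f.natDegree * (f.natDegree - 1) / 2) * f.leadingCoeff * f.discr) ≠ 0 :=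
      mul_ne_zero (mul_ne_zero (pow_ne_zero _ (by simp)) (leadingCoeff_ne_zero.mpr hf0)) hd
    exact h3 h1.symm
  rw [ne_eq, resultant_eq_zero_iff, not_and, not_not] at h2
  exact h2 (Or.inl hf0)

private theorem cpx_inj : Function.Injective (Int.castRingHom ℂ) :=
  RingHom.injective_int _

theorem cpx_natDegree (f : ℤ[X]) : (cpx f).natDegree = f.natDegree :=
  natDegree_map_eq_of_injective cpx_inj f

theorem cpx_leadingCoeff (f : ℤ[X]) : (cpx f).leadingCoeff = (f.leadingCoeff : ℂ) := by
  rw [cpx, leadingCoeff_map_of_injective cpx_inj]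
  rfl

theorem cpx_discr (f : ℤ[X]) (hf : 1 ≤ f.natDegree) : (cpx f).discr = (f.discr : ℂ) := by
  have hf0 : f ≠ 0 := by rintro rfl; simp at hf
  have h : Int.castRingHom ℂ f.leadingCoeff ≠ 0 := by
    rw [ne_eq, map_eq_zero_iff _ cpx_inj]
    exact leadingCoeff_ne_zero.mpr hf0
  rw [cpx, discr_map_of_ne _ h]
  rfl

/-- the complex roots as a finite set -/
noncomputable def rts (f : ℤ[X]) : Finset ℂ := (cpx f).roots.toFinset

private theorem cpx_sep (f : ℤ[X]) (hf : 1 ≤ f.natDegree) (hd : f.discr ≠ 0) :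
    (cpx f).Separable := by
  apply separable_of_discr
  · rwa [cpx_natDegree]
  · rw [cpx_discr f hf]
    exact_mod_cast hd

theorem roots_eq_val (f : ℤ[X]) (hf : 1 ≤ f.natDegree) (hd : f.discr ≠ 0) :
    (cpx f).roots = (rts f).val := by
  rw [rts, Multiset.toFinset_val, Multiset.dedup_eq_self.mpr (nodup_roots (cpx_sep f hf hd))]

theorem card_rts (f : ℤ[X]) (hf : 1 ≤ f.natDegree) (hd : f.discr ≠ 0) :
    (rts f).card = f.natDegree := by
  rw [Finset.card_def, ← roots_eq_val f hf hd,
    ← (IsAlgClosed.splits (cpx f)).natDegree_eq_card_roots, cpx_natDegree]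

theorem eval_eq_prod (f : ℤ[X]) (hf : 1 ≤ f.natDegree) (hd : f.discr ≠ 0) (z : ℂ) :
    (cpx f).eval z = (f.leadingCoeff : ℂ) * ∏ α ∈ rts f, (z - α) := by
  have h := (IsAlgClosed.splits (cpx f)).eq_prod_roots
  rw [roots_eq_val f hf hd, cpx_leadingCoeff] at h
  conv_lhs => rw [h]
  rw [eval_mul, eval_C, eval_multiset_prod, Multiset.map_map]
  congr 1
  change (Multiset.map _ (rts f).val).prod = (Multiset.map _ (rts f).val).prod
  congr 1
  refine Multiset.map_congr rfl fun a _ => ?_
  rw [Function.comp_apply, eval_sub, eval_X, eval_C]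

/-- `|a_N|^(N-2) prod |f'(α)| = |disc f|` -/
theorem prod_deriv_cpx (f : ℤ[X]) (hf : 2 ≤ f.natDegree) (hd : f.discr ≠ 0) :
    ‖(f.leadingCoeff : ℂ)‖ ^ (f.natDegree - 2) * ∏ α ∈ rts f, ‖(cpx f).derivative.eval α‖ =
      ‖(f.discr : ℂ)‖ := by
  have h := prod_deriv (f := cpx f) (by rwa [cpx_natDegree]) (IsAlgClosed.splits (cpx f))
  rw [roots_eq_val f (by omega) hd, cpx_leadingCoeff, cpx_natDegree, cpx_discr f (by omega)] at h
  have h1 := congrArg norm h
  rw [norm_mul, norm_mul, norm_pow, norm_pow, norm_neg, norm_one, one_pow, one_mul] at h1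
  rw [← h1]
  congr 1
  change _ = ‖∏ α ∈ rts f, (cpx f).derivative.eval α‖
  rw [norm_prod]

end SzBF
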