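import Pool.Agent.SzBF.SqS

/-!
For almost all forms the odd part of the discriminant is large.
-/

open Polynomial
open scoped Classical

namespace SzBF

private theorem Cnt_sq (m : ℕ) (hm : 1 ≤ m) (f : ℤ[X]) (hf : f.discr ≠ 0) :
    ∃ k y : ℤ, k ≠ 0 ∧ y ≠ 0 ∧ f.discr = k * y ^ 2 ∧ k.natAbs ≤ 2 * m * oddPart m f := by
  have hD : 0 < f.discr.natAbs := Int.natAbs_pos.mpr hf
  obtain ⟨a, b, ha, hb, hab, hsq⟩ := Nat.sq_mul_squarefree_of_pos hD
  refine ⟨f.discr.sign * a, b, ?_, by exact_mod_cast hb.ne', ?_, ?_⟩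
  · refine mul_ne_zero ?_ (by exact_mod_cast ha.ne')
    rwa [Ne, Int.sign_eq_zero_iff_zero]
  · have h1 : f.discr = f.discr.sign * (f.discr.natAbs : ℤ) := (Int.sign_mul_natAbs _).symm
    conv_lhs => rw [h1, ← hab]
    push_cast
    ring
  · have h1 : (f.discr.sign * (a : ℤ)).natAbs = a := by
      rw [Int.natAbs_mul, Int.natAbs_sign_of_ne_zero hf, one_mul, Int.natAbs_natCast]
    rw [h1]
    have h2 : a = ∏ p ∈ a.primeFactors, p := (Nat.prod_primeFactors_of_squarefree hsq).symm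
    have hodd : ∀ p ∈ a.primeFactors, Odd (f.discr.natAbs.factorization p) := by
      intro p hp
      have hp' := Nat.prime_of_mem_primeFactors hp
      rw [← hab, Nat.factorization_mul (pow_ne_zero _ hb.ne') ha.ne', Nat.factorization_pow]
      simp only [Finsupp.coe_add, Finsupp.coe_smul, Pi.add_apply, Pi.smul_apply, smul_eq_mul]
      have h3 : a.factorization p = 1 := by
        refine le_antisymm (hsq.natFactorization_le_one p) ?_
        exact (hp'.dvd_iff_one_le_factorization ha.ne').mp (Nat.dvd_of_mem_primeFactors hp)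
      rw [h3]
      exact ⟨b.factorization p, rfl⟩
    have hsub : a.primeFactors ⊆ f.discr.natAbs.primeFactors :=
      Nat.primeFactors_mono ⟨b ^ 2, by rw [← hab]; ring⟩ hD.ne'
    rw [h2, ← Finset.prod_filter_mul_prod_filter_not a.primeFactors (fun p => p ∣ 2 * m)]
    refine Nat.mul_le_mul ?_ ?_
    · calc ∏ p ∈ a.primeFactors with p ∣ 2 * m, p ≤ ∏ p ∈ (2 * m).primeFactors, p := by
            refine Finset.prod_le_prod_of_subset_of_one_le' ?_ ?_
            · intro p hp
              rw [Finset.mem_filter] at hp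
              exact Nat.mem_primeFactors.mpr ⟨Nat.prime_of_mem_primeFactors hp.1, hp.2, by omega⟩
            · intro p hp _
              exact (Nat.prime_of_mem_primeFactors hp).one_lt.le
        _ ≤ 2 * m := Nat.le_of_dvd (by omega) (Nat.prod_primeFactors_dvd _)
    · unfold oddPart
      refine Finset.prod_le_prod_of_subset_of_one_le' ?_ ?_
      · intro p hp
        rw [Finset.mem_filter] at hp ⊢
        exact ⟨hsub hp.1, hodd p hp.1, hp.2⟩
      · intro p hp _
        rw [Finset.mem_filter] at hp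
        exact (Nat.prime_of_mem_primeFactors hp.1).one_lt.le

theorem count (m N : ℕ) (hm : 1 ≤ m) (hN : 2 ≤ N) (κ : ℝ) (hκ : 3 < κ) :
    ∃ A δ : ℝ, 0 < δ ∧ ∀ H : ℕ, 1 ≤ H →
      (((box N H).filter (fun a => a (Fin.last N) ≠ 0 ∧ (form N a).discr ≠ 0 ∧
        κ * Real.log (2 * m * oddPart m (form N a)) < Real.log H)).card : ℝ)
        ≤ A * (H : ℝ) ^ (-δ) * (box N H).card := by
  obtain ⟨A0, hA0⟩ := sieve N hN
  set A1 : ℝ := max A0 0 with hA1
  have hκ0 : 0 < κ := by linarith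
  set δ : ℝ := (1 / 3 - 1 / κ) / 2 with hδ
  have hδ0 : 0 < δ := by
    have : 1 / κ < 1 / 3 := by
      rw [div_lt_iff₀ hκ0]; linarith
    rw [hδ]; linarith
  have hA1n : 0 ≤ A1 := le_max_right _ _
  refine ⟨1 + 2 * A1 / δ, δ, hδ0, fun H hH => ?_⟩
  have hb0 : (0 : ℝ) ≤ (box N H).card := by positivity
  have hcoef : 0 ≤ 2 * A1 / δ := by positivity
  rcases Nat.lt_or_ge H 2 with hH2 | hH2
  · have hH1 : H = 1 := by omega
    subst hH1
    rw [Nat.cast_one, Real.one_rpow, mul_one]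
    have h1 : (((box N 1).filter (fun a => a (Fin.last N) ≠ 0 ∧ (form N a).discr ≠ 0 ∧
        κ * Real.log (2 * m * oddPart m (form N a)) < Real.log 1)).card : ℝ) ≤ (box N 1).card := by
      exact_mod_cast Finset.card_filter_le _ _
    refine h1.trans (le_mul_of_one_le_left hb0 ?_)
    linarith
  · have hH2' : (2 : ℝ) ≤ H := by exact_mod_cast hH2
    have hH0 : (0 : ℝ) < H := by linarith
    have hlH : 0 < Real.log H := Real.log_pos (by linarith)
    set K : ℕ := ⌊(H : ℝ) ^ (1 / κ)⌋₊ with hK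
    have hKle : (K : ℝ) ≤ (H : ℝ) ^ (1 / κ) := Nat.floor_le (by positivity)
    set ks : Finset ℤ := (Finset.Icc (-(K : ℤ)) K).erase 0 with hks
    have hsub : (box N H).filter (fun a => a (Fin.last N) ≠ 0 ∧ (form N a).discr ≠ 0 ∧
        κ * Real.log (2 * m * oddPart m (form N a)) < Real.log H) ⊆
        ks.biUnion (fun k => (box N H).filter (fun a => a (Fin.last N) ≠ 0 ∧
          ∃ y : ℤ, y ≠ 0 ∧ (form N a).discr = k * y ^ 2)) := by
      intro a ha
      rw [Finset.mem_filter] at ha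
      obtain ⟨hbox, hlast, h0, hlog⟩ := ha
      obtain ⟨k, y, hk, hy, hky, hkle⟩ := Cnt_sq m hm _ h0
      rw [Finset.mem_biUnion]
      refine ⟨k, ?_, Finset.mem_filter.mpr ⟨hbox, hlast, y, hy, hky⟩⟩
      have hk1 : 1 ≤ k.natAbs := Int.natAbs_pos.mpr hk
      have hkle' : ((k.natAbs : ℕ) : ℝ) ≤ 2 * m * oddPart m (form N a) := by exact_mod_cast hkle
      have hk1' : (1 : ℝ) ≤ ((k.natAbs : ℕ) : ℝ) := by exact_mod_cast hk1
      have h1 : κ * Real.log ((k.natAbs : ℕ) : ℝ) ≤ Real.log H := by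
        refine le_trans ?_ hlog.le
        refine mul_le_mul_of_nonneg_left ?_ hκ0.le
        exact Real.log_le_log (by linarith) hkle'
      have h2 : ((k.natAbs : ℕ) : ℝ) ≤ (H : ℝ) ^ (1 / κ) := by
        rw [← Real.log_le_log_iff (by linarith) (by positivity), Real.log_rpow hH0]
        rw [div_mul_eq_mul_div, one_mul, le_div_iff₀ hκ0]
        linarith
      have h3 : k.natAbs ≤ K := Nat.le_floor h2
      rw [hks, Finset.mem_erase, Finset.mem_Icc]
      refine ⟨hk, ?_, ?_⟩ <;> omega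
    have hcard' := (Finset.card_le_card hsub).trans Finset.card_biUnion_le
    have hcardR : (((box N H).filter (fun a => a (Fin.last N) ≠ 0 ∧ (form N a).discr ≠ 0 ∧
        κ * Real.log (2 * m * oddPart m (form N a)) < Real.log H)).card : ℝ) ≤
        ∑ k ∈ ks, (((box N H).filter (fun a => a (Fin.last N) ≠ 0 ∧
          ∃ y : ℤ, y ≠ 0 ∧ (form N a).discr = k * y ^ 2)).card : ℝ) := by
      exact_mod_cast hcard'
    have hterm : ∀ k ∈ ks, (((box N H).filter (fun a => a (Fin.last N) ≠ 0 ∧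
        ∃ y : ℤ, y ≠ 0 ∧ (form N a).discr = k * y ^ 2)).card : ℝ) ≤
        A1 * (H : ℝ) ^ (-(1 / 3 : ℝ)) * Real.log H * (box N H).card := by
      intro k hk
      rw [hks, Finset.mem_erase] at hk
      refine (hA0 H hH2 k hk.1).trans ?_
      have : A0 ≤ A1 := le_max_left _ _
      gcongr
    have hks2 : ((ks.card : ℕ) : ℝ) ≤ 2 * (H : ℝ) ^ (1 / κ) := by
      have h1 : ks.card = 2 * K := by
        rw [hks, Finset.card_erase_of_mem (by rw [Finset.mem_Icc]; constructor <;> omega), Int.card_Icc]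
        omega
      rw [h1]; push_cast; linarith
    have hlogδ : Real.log H ≤ (H : ℝ) ^ δ / δ := Real.log_le_rpow_div hH0.le hδ0
    have hsum : ∑ k ∈ ks, (((box N H).filter (fun a => a (Fin.last N) ≠ 0 ∧
        ∃ y : ℤ, y ≠ 0 ∧ (form N a).discr = k * y ^ 2)).card : ℝ) ≤
        2 * A1 / δ * (H : ℝ) ^ (-δ) * (box N H).card := by
      calc _ ≤ ∑ k ∈ ks, A1 * (H : ℝ) ^ (-(1 / 3 : ℝ)) * Real.log H * (box N H).card :=
            Finset.sum_le_sum hterm
        _ = (ks.card : ℝ) * (A1 * (H : ℝ) ^ (-(1 / 3 : ℝ)) * Real.log H * (box N H).card) := by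
            rw [Finset.sum_const, nsmul_eq_mul]
        _ ≤ (2 * (H : ℝ) ^ (1 / κ)) * (A1 * (H : ℝ) ^ (-(1 / 3 : ℝ)) * ((H : ℝ) ^ δ / δ) * (box N H).card) := by
            gcongr
        _ = 2 * A1 / δ * ((H : ℝ) ^ (1 / κ) * (H : ℝ) ^ (-(1 / 3 : ℝ)) * (H : ℝ) ^ δ) * (box N H).card := by
            ring
        _ = 2 * A1 / δ * (H : ℝ) ^ (-δ) * (box N H).card := by
            rw [← Real.rpow_add hH0, ← Real.rpow_add hH0]
            have : 1 / κ + -(1 / 3) + δ = -δ := by rw [hδ]; ring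
            rw [this]
    refine (hcardR.trans hsum).trans ?_
    have h1 : 0 ≤ (H : ℝ) ^ (-δ) * (box N H).card := by positivity
    calc 2 * A1 / δ * (H : ℝ) ^ (-δ) * (box N H).card
        ≤ 1 * ((H : ℝ) ^ (-δ) * (box N H).card) + 2 * A1 / δ * (H : ℝ) ^ (-δ) * (box N H).card := by
          linarith
      _ = _ := by ring

end SzBF
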