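import Pool.Agent.SzBF.ChS

/-!
For almost all forms the discriminant is large.
-/

open Polynomial
open scoped Classical

namespace SzBF

private lemma smd_int (c R : ℝ) (hR : 0 ≤ R) : ∃ W : Finset ℤ, (W.card : ℝ) ≤ 2 * R + 1 ∧
    ∀ n : ℤ, |(n : ℝ) + c| < R → n ∈ W := by
  refine ⟨Finset.Icc ⌈-c - R⌉ ⌊-c + R⌋, ?_, ?_⟩
  · rw [Int.card_Icc]
    rcases le_total 0 (⌊-c + R⌋ + 1 - ⌈-c - R⌉) with h | h
    · have h1 : (((⌊-c + R⌋ + 1 - ⌈-c - R⌉).toNat : ℕ) : ℝ) =
          ((⌊-c + R⌋ + 1 - ⌈-c - R⌉ : ℤ) : ℝ) := by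
        exact_mod_cast Int.toNat_of_nonneg h
      rw [h1]
      push_cast
      have h2 := Int.floor_le (-c + R)
      have h3 := Int.le_ceil (-c - R)
      linarith
    · rw [Int.toNat_of_nonpos h]
      push_cast
      linarith
  · intro n hn
    rw [abs_lt] at hn
    rw [Finset.mem_Icc]
    constructor
    · rw [Int.ceil_le]; linarith
    · rw [Int.le_floor]; linarith

private lemma smd_fiber (N H : ℕ) (i0 : Fin (N + 1)) (S : Finset (Fin (N + 1) → ℤ))
    (hS : S ⊆ box N H) (K : ℝ)
    (h : ∀ b : Fin N → ℤ, ∃ W : Finset ℤ, (W.card : ℝ) ≤ K ∧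
      ∀ a ∈ S, (∀ i, a (i0.succAbove i) = b i) → a i0 ∈ W) :
    (S.card : ℝ) ≤ K * (2 * H + 1) ^ N := by
  set t : Finset (Fin N → ℤ) := Fintype.piFinset fun _ => Finset.Icc (-(H : ℤ)) H with ht
  have htc : (t.card : ℝ) = (2 * H + 1) ^ N := by
    rw [ht, Fintype.card_piFinset, Nat.cast_prod]
    rw [Finset.prod_const, Finset.card_univ, Fintype.card_fin, Int.card_Icc]
    congr 1
    have : ((H : ℤ) + 1 - -(H : ℤ)).toNat = 2 * H + 1 := by omega
    rw [this]
    push_cast
    ring
  set φ : (Fin (N + 1) → ℤ) → (Fin N → ℤ) := fun a i => a (i0.succAbove i) with hφ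
  have hmaps : ∀ a ∈ S, φ a ∈ t := by
    intro a ha
    have := hS ha
    unfold box at this
    rw [Fintype.mem_piFinset] at this
    rw [ht, Fintype.mem_piFinset]
    intro i
    exact this _
  rw [Finset.card_eq_sum_card_fiberwise hmaps, Nat.cast_sum, ← htc]
  calc ∑ b ∈ t, (((S.filter (fun a => φ a = b)).card : ℕ) : ℝ) ≤ ∑ _b ∈ t, K := by
        refine Finset.sum_le_sum fun b _ => ?_
        obtain ⟨W, hW, hW2⟩ := h b
        refine le_trans ?_ hW
        have hle : (S.filter (fun a => φ a = b)).card ≤ W.card := by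
          refine Finset.card_le_card_of_injOn (fun a => a i0) ?_ ?_
          · intro a ha
            rw [Finset.mem_coe, Finset.mem_filter] at ha
            exact hW2 a ha.1 (fun i => congrFun ha.2 i)
          · intro a ha a' ha' haa
            rw [Finset.mem_coe, Finset.mem_filter] at ha ha'
            funext j
            rcases Fin.eq_self_or_eq_succAbove i0 j with rfl | ⟨i, rfl⟩
            · exact haa
            · have h1 := congrFun ha.2 i
              have h2 := congrFun ha'.2 i
              simp only [hφ] at h1 h2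
              rw [h1, h2]
        exact_mod_cast hle
    _ = K * t.card := by rw [Finset.sum_const, nsmul_eq_mul, mul_comm]

private lemma smd_pow (R : ℝ) (hR : 0 ≤ R) (s : Multiset ℝ) (h : ∀ x ∈ s, R ≤ x) :
    R ^ Multiset.card s ≤ s.prod := by
  induction s using Multiset.induction_on with
  | empty => simp
  | cons x s ih =>
    rw [Multiset.card_cons, Multiset.prod_cons, pow_succ, mul_comm]
    have h1 := ih (fun y hy => h y (Multiset.mem_cons_of_mem hy))
    have h2 := h x (Multiset.mem_cons_self x s)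
    exact mul_le_mul h2 h1 (by positivity) (by linarith)

private lemma smd_norm (s : Multiset ℂ) : ‖s.prod‖ = (s.map (fun z => ‖z‖)).prod := by
  induction s using Multiset.induction_on with
  | empty => simp
  | cons x s ih => rw [Multiset.prod_cons, norm_mul, ih, Multiset.map_cons, Multiset.prod_cons]

private lemma smd_lead (N : ℕ) (a : Fin (N + 1) → ℤ) (ha : a (Fin.last N) ≠ 0) :
    (form N a).leadingCoeff = a (Fin.last N) := by
  unfold Polynomial.leadingCoeff
  rw [form_natDegree N a ha]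
  exact form_coeff N a (Fin.last N)

private lemma smd_disc (N : ℕ) (hN : 2 ≤ N) (a : Fin (N + 1) → ℤ) (R : ℝ) (hR : 0 ≤ R)
    (ha : a (Fin.last N) ≠ 0) (haN : R ≤ |((a (Fin.last N) : ℤ) : ℝ)|)
    (hcrit : ∀ β ∈ (cpx (form N a)).derivative.roots, R ≤ ‖(cpx (form N a)).eval β‖) :
    R ^ (2 * N - 2) ≤ |(((form N a).discr : ℤ) : ℝ)| := by
  have hd : (form N a).natDegree = N := form_natDegree N a ha
  have hd2 : (cpx (form N a)).natDegree = N := by rw [cpx_natDegree, hd]
  obtain ⟨e, he, h⟩ := prod_crit (f := cpx (form N a)) (by omega)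
    (IsAlgClosed.splits _)
  rw [cpx_discr _ (by omega), hd2, cpx_leadingCoeff, smd_lead N a ha] at h
  have h1 := congrArg norm h
  have he1 : ‖e‖ = 1 := by rcases he with rfl | rfl <;> simp
  rw [norm_mul, norm_mul, norm_mul, he1, one_mul, norm_pow, norm_pow, smd_norm,
    Multiset.map_map, Complex.norm_intCast, Complex.norm_intCast, Complex.norm_natCast] at h1
  rw [h1]
  have hcard : Multiset.card (cpx (form N a)).derivative.roots = N - 1 := by
    rw [← (IsAlgClosed.splits (cpx (form N a)).derivative).natDegree_eq_card_roots,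
      natDegree_derivative, hd2]
  have h2 : R ^ (N - 1) ≤ ((cpx (form N a)).derivative.roots.map
      ((fun z => ‖z‖) ∘ fun β => (cpx (form N a)).eval β)).prod := by
    have := smd_pow R hR ((cpx (form N a)).derivative.roots.map
      ((fun z => ‖z‖) ∘ fun β => (cpx (form N a)).eval β)) ?_
    · rwa [Multiset.card_map, hcard] at this
    · intro x hx
      rw [Multiset.mem_map] at hx
      obtain ⟨β, hβ, rfl⟩ := hx
      exact hcrit β hβ
  have h3 : R ^ (N - 1) ≤ |((a (Fin.last N) : ℤ) : ℝ)| ^ (N - 1) := pow_le_pow_left₀ hR haN _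
  have h4 : (1 : ℝ) ≤ (N : ℝ) ^ N := one_le_pow₀ (by exact_mod_cast (by omega : 1 ≤ N))
  have h5 : 2 * N - 2 = (N - 1) + (N - 1) := by omega
  rw [h5, pow_add]
  calc R ^ (N - 1) * R ^ (N - 1) = 1 * R ^ (N - 1) * R ^ (N - 1) := by ring
    _ ≤ (N : ℝ) ^ N * |((a (Fin.last N) : ℤ) : ℝ)| ^ (N - 1) * _ := by
        refine mul_le_mul (mul_le_mul h4 h3 (by positivity) (by positivity)) h2 (by positivity)
          (by positivity)

private lemma smd_split (N : ℕ) (a : Fin (N + 1) → ℤ) (b : Fin N → ℤ)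
    (h : ∀ i, a ((0 : Fin (N + 1)).succAbove i) = b i) :
    cpx (form N a) = cpx (form N (Fin.cons 0 b)) + C ((a 0 : ℤ) : ℂ) := by
  have h1 : form N a = form N (Fin.cons 0 b) + C (a 0) := by
    unfold form
    rw [Fin.sum_univ_succ, Fin.sum_univ_succ (n := N)]
    simp only [Fin.cons_zero, Fin.cons_succ, Fin.val_zero, pow_zero, mul_one, C_0, zero_add]
    rw [add_comm]
    congr 1
    refine Finset.sum_congr rfl fun i _ => ?_
    rw [← h i, Fin.zero_succAbove]
  rw [h1]
  unfold cpx
  rw [Polynomial.map_add, map_C]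
  simp

theorem small_disc (N : ℕ) (hN : 2 ≤ N) (ε : ℝ) (hε : 0 < ε) : ∃ A δ : ℝ, 0 < δ ∧
    ∀ H : ℕ, 1 ≤ H →
      (((box N H).filter (fun a => a (Fin.last N) = 0 ∨
        (|(((form N a).discr : ℤ) : ℝ)| < (H : ℝ) ^ (2 * (N : ℝ) - 2 - ε)))).card : ℝ) ≤
        A * (H : ℝ) ^ (-δ) * (box N H).card := by
  have hN' : (2 : ℝ) ≤ N := by exact_mod_cast hN
  have hden : (0 : ℝ) < 2 * N - 2 := by linarith
  set δ : ℝ := min (ε / (2 * N - 2)) 1 with hδ
  have hδ0 : 0 < δ := lt_min (by positivity) one_pos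
  have hδ1 : δ ≤ 1 := min_le_right _ _
  have hδε : δ * (2 * N - 2) ≤ ε := by
    have := min_le_left (ε / (2 * (N : ℝ) - 2)) 1
    rwa [← hδ, le_div_iff₀ hden] at this
  refine ⟨3 * (N + 1), δ, hδ0, ?_⟩
  intro H hH
  have hH1 : (1 : ℝ) ≤ H := by exact_mod_cast hH
  have hH0 : (0 : ℝ) < H := by linarith
  set R : ℝ := (H : ℝ) ^ (1 - δ) with hR
  have hR1 : 1 ≤ R := Real.one_le_rpow hH1 (by linarith)
  have hR0 : 0 ≤ R := by linarith
  -- the two parts
  set B1 := (box N H).filter (fun a => |((a (Fin.last N) : ℤ) : ℝ)| < R) with hB1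
  set B2 := (box N H).filter (fun a => R ≤ |((a (Fin.last N) : ℤ) : ℝ)| ∧
    (|(((form N a).discr : ℤ) : ℝ)| < (H : ℝ) ^ (2 * (N : ℝ) - 2 - ε))) with hB2
  have hsub : (box N H).filter (fun a => a (Fin.last N) = 0 ∨
        (|(((form N a).discr : ℤ) : ℝ)| < (H : ℝ) ^ (2 * (N : ℝ) - 2 - ε))) ⊆ B1 ∪ B2 := by
    intro a ha
    rw [Finset.mem_filter] at ha
    rw [Finset.mem_union, hB1, hB2, Finset.mem_filter, Finset.mem_filter]
    by_cases hlt : |((a (Fin.last N) : ℤ) : ℝ)| < R
    · exact Or.inl ⟨ha.1, hlt⟩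
    · rw [not_lt] at hlt
      rcases ha.2 with h0 | h1
      · rw [h0] at hlt
        simp at hlt
        linarith
      · exact Or.inr ⟨ha.1, hlt, h1⟩
  have hc1 : (B1.card : ℝ) ≤ (2 * R + 1) * (2 * H + 1) ^ N := by
    refine smd_fiber N H (Fin.last N) B1 (Finset.filter_subset _ _) _ ?_
    intro b
    obtain ⟨W, hW, hW2⟩ := smd_int 0 R hR0
    refine ⟨W, hW, ?_⟩
    intro a ha _
    rw [hB1, Finset.mem_filter] at ha
    apply hW2
    rw [add_zero]
    exact ha.2
  have hc2 : (B2.card : ℝ) ≤ (N * (2 * R + 1)) * (2 * H + 1) ^ N := by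
    refine smd_fiber N H 0 B2 (Finset.filter_subset _ _) _ ?_
    intro b
    set g : ℂ[X] := cpx (form N (Fin.cons 0 b)) with hg
    choose W hW hW2 using fun c : ℝ => smd_int c R hR0
    refine ⟨g.derivative.roots.toFinset.biUnion (fun β => W (g.eval β).re), ?_, ?_⟩
    · have hcr : g.derivative.roots.toFinset.card ≤ N := by
        calc g.derivative.roots.toFinset.card ≤ Multiset.card g.derivative.roots :=
              Multiset.toFinset_card_le _
          _ ≤ g.derivative.natDegree := card_roots' _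
          _ ≤ g.natDegree - 1 := natDegree_derivative_le g
          _ ≤ N := by
              have : g.natDegree ≤ N := by
                rw [hg, cpx_natDegree]
                unfold form
                refine natDegree_sum_le_of_forall_le _ _ fun i _ => ?_
                refine (natDegree_C_mul_X_pow_le _ _).trans ?_
                have := i.2
                omega
              omega
      calc (((g.derivative.roots.toFinset.biUnion (fun β => W (g.eval β).re)).card : ℕ) : ℝ)
          ≤ ((∑ β ∈ g.derivative.roots.toFinset, (W (g.eval β).re).card : ℕ) : ℝ) := by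
            exact_mod_cast Finset.card_biUnion_le
        _ = ∑ β ∈ g.derivative.roots.toFinset, ((W (g.eval β).re).card : ℝ) := by push_cast; rfl
        _ ≤ ∑ _β ∈ g.derivative.roots.toFinset, (2 * R + 1) :=
            Finset.sum_le_sum fun β _ => hW _
        _ = (g.derivative.roots.toFinset.card : ℝ) * (2 * R + 1) := by
            rw [Finset.sum_const, nsmul_eq_mul]
        _ ≤ N * (2 * R + 1) := by
            refine mul_le_mul_of_nonneg_right (by exact_mod_cast hcr) (by linarith)
    · intro a ha hab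
      rw [hB2, Finset.mem_filter] at ha
      obtain ⟨-, ha1, ha2⟩ := ha
      have hane : a (Fin.last N) ≠ 0 := by
        intro h0
        rw [h0] at ha1
        simp at ha1
        linarith
      have hsp := smd_split N a b hab
      rw [← hg] at hsp
      by_contra hcon
      have hcrit : ∀ β ∈ (cpx (form N a)).derivative.roots, R ≤ ‖(cpx (form N a)).eval β‖ := by
        intro β hβ
        rw [hsp, derivative_add, derivative_C, add_zero] at hβ
        rw [hsp, eval_add, eval_C]
        by_contra hlt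
        rw [not_le] at hlt
        apply hcon
        rw [Finset.mem_biUnion]
        refine ⟨β, Multiset.mem_toFinset.mpr hβ, hW2 _ _ ?_⟩
        refine lt_of_le_of_lt ?_ hlt
        have h6 := Complex.abs_re_le_norm (g.eval β + ((a 0 : ℤ) : ℂ))
        rw [Complex.add_re, Complex.intCast_re, add_comm] at h6
        exact h6
      have h7 := smd_disc N hN a R hR0 hane ha1 hcrit
      have h8 : (H : ℝ) ^ (2 * (N : ℝ) - 2 - ε) ≤ R ^ (2 * N - 2) := by
        rw [hR, ← Real.rpow_natCast, ← Real.rpow_mul hH0.le]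
        refine Real.rpow_le_rpow_of_exponent_le hH1 ?_
        have h9 : ((2 * N - 2 : ℕ) : ℝ) = 2 * N - 2 := by
          rw [Nat.cast_sub (by omega)]; push_cast; ring
        rw [h9]
        nlinarith
      linarith
  have hbox : ((box N H).card : ℝ) = (2 * H + 1) ^ (N + 1) := by
    unfold box
    rw [Fintype.card_piFinset, Nat.cast_prod]
    rw [Finset.prod_const, Finset.card_univ, Fintype.card_fin, Int.card_Icc]
    congr 1
    have : ((H : ℤ) + 1 - -(H : ℤ)).toNat = 2 * H + 1 := by omega
    rw [this]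
    push_cast
    ring
  have hRH : R = H * (H : ℝ) ^ (-δ) := by
    rw [hR, sub_eq_add_neg, Real.rpow_add hH0, Real.rpow_one]
  calc (((box N H).filter (fun a => a (Fin.last N) = 0 ∨
        (|(((form N a).discr : ℤ) : ℝ)| < (H : ℝ) ^ (2 * (N : ℝ) - 2 - ε)))).card : ℝ)
      ≤ ((B1 ∪ B2).card : ℝ) := by exact_mod_cast Finset.card_le_card hsub
    _ ≤ (B1.card : ℝ) + B2.card := by exact_mod_cast Finset.card_union_le _ _
    _ ≤ (2 * R + 1) * (2 * H + 1) ^ N + (N * (2 * R + 1)) * (2 * H + 1) ^ N := add_le_add hc1 hc2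
    _ = (N + 1) * (2 * R + 1) * (2 * H + 1) ^ N := by ring
    _ ≤ (N + 1) * (3 * R) * (2 * H + 1) ^ N := by
        refine mul_le_mul_of_nonneg_right (mul_le_mul_of_nonneg_left (by linarith) (by positivity))
          (by positivity)
    _ = (3 * (N + 1) * (H : ℝ) ^ (-δ)) * (H * (2 * H + 1) ^ N) := by rw [hRH]; ring
    _ ≤ (3 * (N + 1) * (H : ℝ) ^ (-δ)) * ((2 * H + 1) * (2 * H + 1) ^ N) := by
        refine mul_le_mul_of_nonneg_left (mul_le_mul_of_nonneg_right (by linarith) (by positivity))
          (by positivity)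
    _ = 3 * (N + 1) * (H : ℝ) ^ (-δ) * (box N H).card := by rw [hbox]; ring

end SzBF
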