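import Pool.Agent.SzBF.Det
import Pool.Agent.SzBF.SmD
import Pool.Agent.SzBF.Cnt

/-!
Assembly.
-/

open Polynomial
open scoped Classical

namespace SzBF

private theorem mainx_coeff (N : ℕ) (a : Fin (N + 1) → ℤ) (i : ℕ) :
    (form N a).coeff i = if h : i < N + 1 then a ⟨i, h⟩ else 0 := by
  unfold form
  rw [finsetSum_coeff]
  simp only [coeff_C_mul, coeff_X_pow, mul_ite, mul_one, mul_zero]
  split_ifs with h
  · rw [Finset.sum_eq_single (⟨i, h⟩ : Fin (N + 1))]
    · simp
    · intro b _ hb
      rw [if_neg]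
      intro h'
      exact hb (Fin.ext h'.symm)
    · intro h'
      exact absurd (Finset.mem_univ _) h'
  · apply Finset.sum_eq_zero
    intro b _
    rw [if_neg]
    intro h'
    exact h (h' ▸ b.2)

private theorem mainx_natDegree (N : ℕ) (a : Fin (N + 1) → ℤ) (h : a (Fin.last N) ≠ 0) :
    (form N a).natDegree = N := by
  apply natDegree_eq_of_le_of_coeff_ne_zero
  · rw [natDegree_le_iff_coeff_eq_zero]
    intro i hi
    rw [mainx_coeff, dif_neg (by omega)]
  · rw [mainx_coeff, dif_pos (by omega)]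
    exact h

private theorem mainx_bound (N H : ℕ) (a : Fin (N + 1) → ℤ) (ha : a ∈ box N H) (i : ℕ) :
    |((form N a).coeff i : ℝ)| ≤ (H : ℝ) := by
  rw [mainx_coeff]
  split_ifs with h
  · unfold box at ha
    rw [Fintype.mem_piFinset] at ha
    have h1 := ha ⟨i, h⟩
    rw [Finset.mem_Icc] at h1
    rw [abs_le]
    constructor
    · exact_mod_cast h1.1
    · exact_mod_cast h1.2
  · simp

private theorem mainx_mN (m N : ℕ) (hmN : m ∣ N) (hg : 2 ≤ genus m N) : 2 ≤ m ∧ 4 ≤ N := by
  unfold genus at hg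
  have h4 : 4 ≤ (m - 1) * (N - 2) := by omega
  have hm : 2 ≤ m := by
    by_contra hcon
    have : m - 1 = 0 := by omega
    rw [this] at h4
    omega
  have hN : 3 ≤ N := by
    by_contra hcon
    have : N - 2 = 0 := by omega
    rw [this] at h4
    omega
  refine ⟨hm, ?_⟩
  by_contra hcon
  have hN3 : N = 3 := by omega
  subst hN3
  have hm3 : m ≤ 3 := Nat.le_of_dvd (by norm_num) hmN
  have : (m - 1) * (3 - 2) ≤ 2 := by
    have : m - 1 ≤ 2 := by omega
    simpa using this
  omega

private theorem mainx_odd_pos (m : ℕ) (f : ℤ[X]) : 1 ≤ oddPart m f := by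
  unfold oddPart
  apply Nat.one_le_iff_ne_zero.mpr
  rw [Finset.prod_ne_zero_iff]
  intro p hp
  rw [Finset.mem_filter] at hp
  exact (Nat.prime_of_mem_primeFactors hp.1).ne_zero

private theorem mainx_choice (A B T : ℝ) (hA : 0 < A) (hB : 0 < B) (hT : 3 * A < T) :
    ∃ s : ℝ, 0 < s ∧ (3 + s) * (A + B * s) ≤ T := by
  refine ⟨min 1 ((T - 3 * A) / (A + 4 * B)), ?_, ?_⟩
  · exact lt_min one_pos (div_pos (by linarith) (by positivity))
  · set s := min 1 ((T - 3 * A) / (A + 4 * B)) with hs
    have hs0 : 0 < s := lt_min one_pos (div_pos (by linarith) (by positivity))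
    have hs1 : s ≤ 1 := min_le_left _ _
    have hs2 : s ≤ (T - 3 * A) / (A + 4 * B) := min_le_right _ _
    have h3 : s * (A + 4 * B) ≤ T - 3 * A := by
      rwa [le_div_iff₀ (by positivity)] at hs2
    have h4 : B * s * s ≤ B * s := by
      have : B * s * s ≤ B * s * 1 := by
        apply mul_le_mul_of_nonneg_left hs1 (by positivity)
      linarith
    nlinarith

theorem main (m N : ℕ) (hmN : m ∣ N) (hg : 2 ≤ genus m N) :
    (∀ H : ℕ, 1 ≤ H → ∀ a ∈ box N H, a (Fin.last N) ≠ 0 → (form N a).discr ≠ 0 →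
      SmallPoint m N (form N a) (8 * Real.log H + 25 * Real.log (m * N))) ∧
    ∀ κ : ℝ, 6 * ((N : ℝ) - 2) / (m * N) < κ → ∃ A δ : ℝ, 0 < δ ∧ ∀ H : ℕ, 1 ≤ H →
      (((box N H).filter (fun a => ¬ SmallPoint m N (form N a)
        (κ * Real.log (oddPart m (form N a)) + κ * Real.log (2 * m) +
          25 * Real.log (m * N)))).card : ℝ) ≤ A * (H : ℝ) ^ (-δ) * (box N H).card := by
  obtain ⟨hm2, hN4⟩ := mainx_mN m N hmN hg
  have hmR : (2 : ℝ) ≤ m := by exact_mod_cast hm2
  have hNR : (4 : ℝ) ≤ N := by exact_mod_cast hN4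
  refine ⟨?_, ?_⟩
  · intro H hH a ha hal hd
    have hdeg := mainx_natDegree N a hal
    have hH1 : (1 : ℝ) ≤ H := by exact_mod_cast hH
    have h1 := small_of m N hmN hg (form N a) hdeg hd H hH1 (mainx_bound N H a ha)
    have h2 := BB_le m (form N a) hm2 (by rw [hdeg]; exact hN4) hd H hH1
    rw [hdeg] at h2
    exact small_mono m N _ _ _ h2 h1
  · intro κ hκ
    have hmN0 : (0 : ℝ) < (m : ℝ) * N := by positivity
    have hT : 3 * (2 * (N : ℝ) - 4) < κ * (m * N) := by
      rw [div_lt_iff₀ hmN0] at hκ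
      linarith
    obtain ⟨s, hs0, hs⟩ := mainx_choice (2 * (N : ℝ) - 4) (4 * m - 3) (κ * (m * N))
      (by linarith) (by linarith) hT
    obtain ⟨A₁, δ₁, hδ₁, h₁⟩ := small_disc N (by omega) s hs0
    obtain ⟨A₂, δ₂, hδ₂, h₂⟩ := count m N (by omega) (by omega) (3 + s) (by linarith)
    refine ⟨max A₁ 0 + max A₂ 0, min δ₁ δ₂, lt_min hδ₁ hδ₂, ?_⟩
    intro H hH
    have hH1 : (1 : ℝ) ≤ H := by exact_mod_cast hH
    have hH0 : (0 : ℝ) < H := by linarith
    have hlogH : 0 ≤ Real.log H := Real.log_nonneg hH1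
    have hsub : (box N H).filter (fun a => ¬ SmallPoint m N (form N a)
        (κ * Real.log (oddPart m (form N a)) + κ * Real.log (2 * m) +
          25 * Real.log (m * N))) ⊆
        (box N H).filter (fun a => a (Fin.last N) = 0 ∨
        (|(((form N a).discr : ℤ) : ℝ)| < (H : ℝ) ^ (2 * (N : ℝ) - 2 - s))) ∪
        (box N H).filter (fun a => a (Fin.last N) ≠ 0 ∧ (form N a).discr ≠ 0 ∧
        (3 + s) * Real.log (2 * m * oddPart m (form N a)) < Real.log H) := by
      intro a ha
      rw [Finset.mem_filter] at ha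
      obtain ⟨hab, hns⟩ := ha
      rw [Finset.mem_union, Finset.mem_filter, Finset.mem_filter]
      by_contra hcon
      rw [not_or] at hcon
      obtain ⟨hc1, hc2⟩ := hcon
      have hc1' : ¬ (a (Fin.last N) = 0 ∨
        (|(((form N a).discr : ℤ) : ℝ)| < (H : ℝ) ^ (2 * (N : ℝ) - 2 - s))) := fun h =>
          hc1 ⟨hab, h⟩
      rw [not_or, not_lt] at hc1'
      obtain ⟨hal, hdl⟩ := hc1'
      have hpow : 0 < (H : ℝ) ^ (2 * (N : ℝ) - 2 - s) := Real.rpow_pos_of_pos hH0 _
      have hd : (form N a).discr ≠ 0 := by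
        intro h0
        rw [h0] at hdl
        simp at hdl
        linarith
      have hc2' : ¬ ((3 + s) * Real.log (2 * m * oddPart m (form N a)) < Real.log H) := fun h =>
        hc2 ⟨hab, hal, hd, h⟩
      rw [not_lt] at hc2'
      have hdeg := mainx_natDegree N a hal
      have hsm := small_of m N hmN hg (form N a) hdeg hd H hH1 (mainx_bound N H a hab)
      have hlog : (2 * ((form N a).natDegree : ℝ) - 2 - s) * Real.log H ≤
          Real.log |((form N a).discr : ℝ)| := by
        rw [hdeg]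
        have := Real.log_le_log hpow hdl
        rwa [Real.log_rpow hH0] at this
      have hBB := BB_le' m (form N a) hm2 (by rw [hdeg]; exact hN4) hd H hH1 s hs0.le hlog
      rw [hdeg] at hBB
      apply hns
      refine small_mono m N _ _ _ (hBB.trans ?_) hsm
      have hodd : (1 : ℝ) ≤ (oddPart m (form N a) : ℝ) := by
        exact_mod_cast mainx_odd_pos m (form N a)
      have hlogsplit : Real.log (2 * m * oddPart m (form N a)) =
          Real.log (2 * m) + Real.log (oddPart m (form N a)) := by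
        rw [Real.log_mul (by positivity) (by positivity)]
      have hL0 : 0 ≤ Real.log (2 * m * oddPart m (form N a)) := by
        apply Real.log_nonneg
        nlinarith
      have hc0 : 0 ≤ (2 * (N : ℝ) - 4 + (4 * m - 3) * s) / (m * N) := by
        apply div_nonneg _ hmN0.le
        have : 0 ≤ (4 * (m : ℝ) - 3) * s := mul_nonneg (by linarith) hs0.le
        linarith
      have step : (2 * (N : ℝ) - 4 + (4 * m - 3) * s) / (m * N) * Real.log H ≤
          κ * Real.log (2 * m * oddPart m (form N a)) := by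
        calc (2 * (N : ℝ) - 4 + (4 * m - 3) * s) / (m * N) * Real.log H
            ≤ (2 * (N : ℝ) - 4 + (4 * m - 3) * s) / (m * N) *
              ((3 + s) * Real.log (2 * m * oddPart m (form N a))) :=
              mul_le_mul_of_nonneg_left hc2' hc0
          _ = (3 + s) * (2 * (N : ℝ) - 4 + (4 * m - 3) * s) / (m * N) *
              Real.log (2 * m * oddPart m (form N a)) := by ring
          _ ≤ κ * Real.log (2 * m * oddPart m (form N a)) := by
              apply mul_le_mul_of_nonneg_right _ hL0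
              rw [div_le_iff₀ hmN0]
              exact hs
      rw [hlogsplit] at step
      linarith
    have hcard : (((box N H).filter (fun a => ¬ SmallPoint m N (form N a)
        (κ * Real.log (oddPart m (form N a)) + κ * Real.log (2 * m) +
          25 * Real.log (m * N)))).card : ℝ) ≤
        (((box N H).filter (fun a => a (Fin.last N) = 0 ∨
        (|(((form N a).discr : ℤ) : ℝ)| < (H : ℝ) ^ (2 * (N : ℝ) - 2 - s)))).card : ℝ) +
        (((box N H).filter (fun a => a (Fin.last N) ≠ 0 ∧ (form N a).discr ≠ 0 ∧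
        (3 + s) * Real.log (2 * m * oddPart m (form N a)) < Real.log H)).card : ℝ) := by
      have := (Finset.card_le_card hsub).trans (Finset.card_union_le _ _)
      exact_mod_cast this
    have hmono : ∀ δ' : ℝ, min δ₁ δ₂ ≤ δ' → (H : ℝ) ^ (-δ') ≤ (H : ℝ) ^ (-(min δ₁ δ₂)) := by
      intro δ' hδ'
      exact Real.rpow_le_rpow_of_exponent_le hH1 (by linarith)
    have hc0 : (0 : ℝ) ≤ ((box N H).card : ℝ) := Nat.cast_nonneg _
    have hb1 : A₁ * (H : ℝ) ^ (-δ₁) * (box N H).card ≤
        max A₁ 0 * (H : ℝ) ^ (-(min δ₁ δ₂)) * (box N H).card := by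
      apply mul_le_mul_of_nonneg_right _ hc0
      exact mul_le_mul (le_max_left _ _) (hmono _ (min_le_left _ _)) (by positivity)
        (le_max_right _ _)
    have hb2 : A₂ * (H : ℝ) ^ (-δ₂) * (box N H).card ≤
        max A₂ 0 * (H : ℝ) ^ (-(min δ₁ δ₂)) * (box N H).card := by
      apply mul_le_mul_of_nonneg_right _ hc0
      exact mul_le_mul (le_max_left _ _) (hmono _ (min_le_right _ _)) (by positivity)
        (le_max_right _ _)
    have e1 := h₁ H hH
    have e2 := h₂ H hH
    calc _ ≤ _ := hcard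
      _ ≤ max A₁ 0 * (H : ℝ) ^ (-(min δ₁ δ₂)) * (box N H).card +
          max A₂ 0 * (H : ℝ) ^ (-(min δ₁ δ₂)) * (box N H).card :=
          add_le_add (e1.trans hb1) (e2.trans hb2)
      _ = (max A₁ 0 + max A₂ 0) * (H : ℝ) ^ (-(min δ₁ δ₂)) * (box N H).card := by ring

end SzBF
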