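import Pool.Agent.SzBF.Pot

/-!
The sum of the archimedean terms over the branch points.
-/

open Polynomial MeasureTheory

namespace SzBF

variable {m : ℕ} {f : ℤ[X]} {e : (j : ℕ) → Fin (f.natDegree * j / m - 1) → ℂ[X]} {H : ℝ}

private theorem ArchS_lc (f : ℤ[X]) (hN : 4 ≤ f.natDegree) : 0 < |(f.leadingCoeff : ℝ)| := by
  have hf : f ≠ 0 := by
    rintro rfl
    simp at hN
  exact abs_pos.2 (by exact_mod_cast leadingCoeff_ne_zero.2 hf)

private theorem ArchS_ae (f : ℤ[X]) (hN : 4 ≤ f.natDegree) : ∀ᵐ z : ℂ, (cpx f).eval z ≠ 0 := by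
  have hfin : {z : ℂ | ¬ (cpx f).eval z ≠ 0}.Finite := by
    refine ((cpx f).roots.toFinset.finite_toSet).subset fun z hz => ?_
    simp only [Finset.mem_coe, Multiset.mem_toFinset]
    rw [mem_roots (Dens_cpx_ne f hN)]
    simpa using hz
  exact hfin.measure_zero _

private theorem ArchS_log (f : ℤ[X]) (hN : 4 ≤ f.natDegree) (hd : f.discr ≠ 0) (z : ℂ)
    (hz : (cpx f).eval z ≠ 0) :
    ∑ α ∈ rts f, Real.log ‖α - z‖ =
      Real.log ‖(cpx f).eval z‖ - Real.log |(f.leadingCoeff : ℝ)| := by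
  have h1 := eval_eq_prod f (by omega) hd z
  have hne : ∀ α ∈ rts f, ‖z - α‖ ≠ 0 := by
    intro α hα h0
    have h2 : z - α = 0 := norm_eq_zero.1 h0
    exact hz (by rw [h1, Finset.prod_eq_zero hα h2, mul_zero])
  rw [h1, norm_mul, norm_prod, Complex.norm_intCast,
    Real.log_mul (ArchS_lc f hN).ne' (Finset.prod_ne_zero_iff.2 hne), Real.log_prod hne]
  rw [add_sub_cancel_left]
  exact Finset.sum_congr rfl fun α _ => by rw [norm_sub_rev]

private theorem ArchS_deriv (f : ℤ[X]) (hN : 4 ≤ f.natDegree) (hd : f.discr ≠ 0) :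
    ∑ α ∈ rts f, Real.log ‖(cpx f).derivative.eval α‖ =
      Real.log |(f.discr : ℝ)| - (f.natDegree - 2 : ℕ) * Real.log |(f.leadingCoeff : ℝ)| := by
  have h1 := prod_deriv_cpx f (by omega) hd
  rw [Complex.norm_intCast, Complex.norm_intCast] at h1
  have hd0 : |(f.discr : ℝ)| ≠ 0 := abs_ne_zero.2 (by exact_mod_cast hd)
  have hne : ∏ α ∈ rts f, ‖(cpx f).derivative.eval α‖ ≠ 0 := by
    intro h0
    rw [h0, mul_zero] at h1
    exact hd0 h1.symm
  rw [← h1, Real.log_mul (pow_ne_zero _ (ArchS_lc f hN).ne') hne, Real.log_pow,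
    Real.log_prod (fun α hα => Finset.prod_ne_zero_iff.1 hne α hα)]
  ring

theorem arch_sum (D : Data m f e H) :
    ∑ α ∈ rts f, arch m f e α = (1 / (m : ℝ)) *
      ((f.natDegree : ℝ) * (∫ x : ℂ, (∫ s : ℂ, Real.log ‖x - s‖ * rho m f e s) * rho m f e x) -
        2 * (∫ z, Real.log ‖(cpx f).eval z‖ * rho m f e z) -
        Real.log |(f.discr : ℝ)| + f.natDegree * Real.log |(f.leadingCoeff : ℝ)|) := by
  have hg : 1 ≤ genus m f.natDegree := by
    unfold genus
    have h1 := D.hm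
    have h2 := D.hN
    have h3 : 1 * 2 ≤ (m - 1) * (f.natDegree - 2) := Nat.mul_le_mul (by omega) (by omega)
    omega
  obtain ⟨hri, hr1⟩ := rho_mass m D.hm f D.hmN (by have := D.hN; omega) hg e D.he
  have hpot : ∑ α ∈ rts f, (∫ s : ℂ, Real.log ‖α - s‖ * rho m f e s) =
      (∫ z, Real.log ‖(cpx f).eval z‖ * rho m f e z) - Real.log |(f.leadingCoeff : ℝ)| := by
    rw [← integral_finsetSum _ fun α hα => int_log_sub D α hα]
    have h1 : ∫ s : ℂ, ∑ α ∈ rts f, Real.log ‖α - s‖ * rho m f e s =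
        ∫ s : ℂ, (Real.log ‖(cpx f).eval s‖ * rho m f e s -
          Real.log |(f.leadingCoeff : ℝ)| * rho m f e s) := by
      refine integral_congr_ae ?_
      filter_upwards [ArchS_ae f D.hN] with s hs
      rw [← Finset.sum_mul, ArchS_log f D.hN D.hd s hs, sub_mul]
    rw [h1, integral_sub (int_log_f D) (hri.const_mul _), integral_const_mul, hr1, mul_one]
  have hder := ArchS_deriv f D.hN D.hd
  have hcard := card_rts f (by have := D.hN; omega) D.hd
  unfold arch
  rw [← Finset.mul_sum, Finset.sum_sub_distrib, Finset.sum_sub_distrib, ← Finset.mul_sum, hpot, hder,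
    Finset.sum_const, hcard, nsmul_eq_mul, Nat.cast_sub (by have := D.hN; omega)]
  congr 1
  push_cast
  ring

theorem arch_sum_le (D : Data m f e H) :
    ((cpx f).roots.map (arch m f e)).sum ≤ (1 / (m : ℝ)) *
      (f.natDegree * Real.log 2 + 2 * (-Real.log (QQ f.natDegree H) +
        m * Real.log (24 * m * (f.natDegree : ℝ) ^ 6) + (2 * m - 1) * Real.log (EE f H)) -
        Real.log |(f.discr : ℝ)| + f.natDegree * Real.log |(f.leadingCoeff : ℝ)|) := by
  have h1 : ((cpx f).roots.map (arch m f e)).sum = ∑ α ∈ rts f, arch m f e α := by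
    rw [roots_eq_val f (by have := D.hN; omega) D.hd]
    rfl
  rw [h1, arch_sum D]
  refine mul_le_mul_of_nonneg_left ?_ (by positivity)
  have h2 := pot_le D
  linarith

end SzBF
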