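import Pool.Agent.SzBF.DiscL
import Pool.Agent.SzSP.MobF
import Pool.Agent.SzSP.Per

/-!
Incomplete sums of the product of two quadratic characters of the discriminant.
-/

open Polynomial

namespace SzBF

theorem form_coeff {R : Type*} [CommRing R] (N : ℕ) (a : Fin (N + 1) → R) (i : Fin (N + 1)) :
    (form N a).coeff i = a i := by
  unfold form
  rw [finsetSum_coeff, Finset.sum_eq_single i]
  · rw [coeff_C_mul_X_pow, if_pos rfl]
  · intro j _ hj
    rw [coeff_C_mul_X_pow, if_neg]
    intro h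
    exact hj (Fin.ext h.symm)
  · intro h
    exact absurd (Finset.mem_univ i) h

theorem form_natDegree_le {R : Type*} [CommRing R] (N : ℕ) (a : Fin (N + 1) → R) :
    (form N a).natDegree ≤ N := by
  unfold form
  apply natDegree_sum_le_of_forall_le
  intro i _
  refine (natDegree_C_mul_X_pow_le _ _).trans ?_
  have := i.2
  omega

theorem form_natDegree {R : Type*} [CommRing R] (N : ℕ) (a : Fin (N + 1) → R)
    (ha : a (Fin.last N) ≠ 0) : (form N a).natDegree = N := by
  apply natDegree_eq_of_le_of_coeff_ne_zero (form_natDegree_le N a)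
  have h := form_coeff N a (Fin.last N)
  rw [Fin.val_last] at h
  rw [h]
  exact ha

theorem form_map {R S : Type*} [CommRing R] [CommRing S] (φ : R →+* S) (N : ℕ)
    (a : Fin (N + 1) → R) : (form N a).map φ = form N (fun i => φ (a i)) := by
  unfold form
  rw [Polynomial.map_sum]
  refine Finset.sum_congr rfl fun i _ => ?_
  rw [Polynomial.map_mul, map_C, Polynomial.map_pow, map_X]

/-- the quadratic character modulo `p` of the discriminant, zero if `p` divides the leading
coefficient -/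
noncomputable def chr (p : ℕ) (N : ℕ) (a : Fin (N + 1) → ℤ) : ℝ :=
  if h : p.Prime then
    haveI : Fact p.Prime := ⟨h⟩
    if ((a (Fin.last N) : ℤ) : ZMod p) = 0 then 0
    else ((quadraticChar (ZMod p) (((form N a).discr : ℤ) : ZMod p) : ℤ) : ℝ)
  else 0

private lemma chs_snoc (p : ℕ) [Fact p.Prime] (N : ℕ) (c : ZMod p) (hc : c ≠ 0)
    (b : Fin N → ZMod p) :
    form N (Fin.snoc (α := fun _ => ZMod p) b c : Fin (N + 1) → ZMod p) =
      C c * (X ^ N + ∑ i : Fin N, C (c⁻¹ * b i) * X ^ (i : ℕ)) := by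
  unfold form
  rw [Fin.sum_univ_castSucc, Fin.snoc_last, Fin.val_last, mul_add, Finset.mul_sum, add_comm]
  congr 1
  refine Finset.sum_congr rfl fun i _ => ?_
  rw [Fin.snoc_castSucc, Fin.val_castSucc, ← mul_assoc, ← C_mul, mul_inv_cancel_left₀ hc]

/-- the complete sum vanishes -/
theorem sum_form (p : ℕ) [Fact p.Prime] (hp : p ≠ 2) (N : ℕ) (hN : 2 ≤ N) :
    ∑ a : Fin (N + 1) → ZMod p, (if a (Fin.last N) = 0 then (0 : ℤ) else
      quadraticChar (ZMod p) (form N a).discr) = 0 := by
  rw [← (Fin.snocEquiv (fun _ : Fin (N + 1) => ZMod p)).sum_comp]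
  rw [Fintype.sum_prod_type]
  refine Finset.sum_eq_zero fun c _ => ?_
  have h1 : ∀ b : Fin N → ZMod p,
      (Fin.snocEquiv (fun _ : Fin (N + 1) => ZMod p)) (c, b) =
        (Fin.snoc (α := fun _ => ZMod p) b c : Fin (N + 1) → ZMod p) := fun b => rfl
  by_cases hc : c = 0
  · refine Finset.sum_eq_zero fun b _ => ?_
    rw [h1, Fin.snoc_last, if_pos hc]
  · have h2 : ∀ b : Fin N → ZMod p,
        (if (Fin.snocEquiv (fun _ : Fin (N + 1) => ZMod p)) (c, b) (Fin.last N) = 0 then (0 : ℤ)
          else quadraticChar (ZMod p)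
            (form N ((Fin.snocEquiv (fun _ : Fin (N + 1) => ZMod p)) (c, b))).discr) =
        quadraticChar (ZMod p) (X ^ N + ∑ i : Fin N, C ((fun i => c⁻¹ * b i) i) *
          X ^ (i : ℕ)).discr := by
      intro b
      rw [h1, Fin.snoc_last, if_neg hc, chs_snoc p N c hc b]
      have hmon : (X ^ N + ∑ i : Fin N, C (c⁻¹ * b i) * X ^ (i : ℕ)).Monic :=
        monic_X_pow_add (degree_sum_fin_lt _)
      have hdeg : (X ^ N + ∑ i : Fin N, C (c⁻¹ * b i) * X ^ (i : ℕ)).natDegree = N := by
        rw [natDegree_add_eq_left_of_degree_lt, natDegree_X_pow]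
        rw [degree_X_pow]
        exact degree_sum_fin_lt _
      rw [discr_C_mul (by rw [hdeg]; omega) hc, hdeg, map_mul]
      have h3 : quadraticChar (ZMod p) (c ^ (2 * N - 2)) = 1 := by
        have h4 : 2 * N - 2 = 2 * (N - 1) := by omega
        rw [h4, pow_mul, map_pow, quadraticChar_sq_one' hc, one_pow]
      rw [h3, one_mul]
    simp only [h2]
    have h5 := SzSP.sum_monic p hp N hN
    rw [← h5]
    apply Fintype.sum_equiv (Equiv.piCongrRight (fun _ : Fin N => Equiv.mulLeft₀ c⁻¹ (inv_ne_zero hc)))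
    intro b
    rfl

private lemma chs_abs (p : ℕ) [Fact p.Prime] (x : ZMod p) :
    |((quadraticChar (ZMod p) x : ℤ) : ℝ)| ≤ 1 := by
  by_cases hx : x = 0
  · rw [hx]; simp
  · rcases quadraticChar_dichotomy hx with h | h <;> rw [h] <;> simp

theorem abs_chr_le (p N : ℕ) (a : Fin (N + 1) → ℤ) : |chr p N a| ≤ 1 := by
  unfold chr
  split_ifs with h1 h2
  · simp
  · have : Fact p.Prime := ⟨h1⟩
    exact chs_abs p _
  · simp

/-- the function on the residue classes -/
private noncomputable def chF (p : ℕ) [Fact p.Prime] (N : ℕ) (a : Fin (N + 1) → ZMod p) : ℤ :=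
  if a (Fin.last N) = 0 then (0 : ℤ) else quadraticChar (ZMod p) (form N a).discr

private lemma chs_chr (p : ℕ) [Fact p.Prime] (N : ℕ) (a : Fin (N + 1) → ℤ) :
    chr p N a = (chF p N (fun i => ((a i : ℤ) : ZMod p)) : ℝ) := by
  unfold chr chF
  rw [dif_pos (Fact.out : p.Prime)]
  by_cases h : ((a (Fin.last N) : ℤ) : ZMod p) = 0
  · rw [if_pos h, if_pos h, Int.cast_zero]
  · rw [if_neg h, if_neg h]
    have ha : a (Fin.last N) ≠ 0 := by
      intro h0
      apply h
      rw [h0, Int.cast_zero]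
    have hlc : (form N a).leadingCoeff = a (Fin.last N) := by
      rw [leadingCoeff, form_natDegree N a ha]
      have h2 := form_coeff N a (Fin.last N)
      rw [Fin.val_last] at h2
      exact h2
    have h1 := discr_map_of_ne (Int.castRingHom (ZMod p)) (f := form N a) (by
      rw [hlc]
      exact h)
    rw [form_map] at h1
    simp only [Int.coe_castRingHom] at h1
    rw [h1]

private lemma chs_sum {ι : Type*} [Fintype ι] [DecidableEq ι] (p q : ℕ) [NeZero p] [NeZero q]
    (h : p.Coprime q) (F : (ι → ZMod p) → ℝ) (H : (ι → ZMod q) → ℝ) :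
    ∑ a ∈ Fintype.piFinset (fun _ : ι => Finset.Ico (0 : ℤ) ((p * q : ℕ) : ℤ)),
      F (fun i => ((a i : ℤ) : ZMod p)) * H (fun i => ((a i : ℤ) : ZMod q))
      = (∑ u, F u) * ∑ v, H v := by
  rw [Finset.sum_mul_sum, ← Finset.sum_product']
  refine Finset.sum_bij
    (fun a _ => ((fun i => ((a i : ℤ) : ZMod p)), (fun i => ((a i : ℤ) : ZMod q)))) ?_ ?_ ?_ ?_
  · intro a _
    simp
  · intro a ha b hb hab
    simp only [Fintype.mem_piFinset, Finset.mem_Ico] at ha hb
    rw [Prod.mk.injEq] at hab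
    funext i
    have h1 := congrFun hab.1 i
    have h2 := congrFun hab.2 i
    rw [ZMod.intCast_eq_intCast_iff] at h1 h2
    have h3 : (a i) ≡ (b i) [ZMOD ((p * q : ℕ) : ℤ)] := by
      push_cast
      exact (Int.modEq_and_modEq_iff_modEq_mul (by simpa using h)).mp ⟨h1, h2⟩
    have h4 := h3
    unfold Int.ModEq at h4
    rwa [Int.emod_eq_of_lt (ha i).1 (ha i).2, Int.emod_eq_of_lt (hb i).1 (hb i).2] at h4
  · rintro ⟨u, v⟩ _
    refine ⟨fun i => ((Nat.chineseRemainder h (u i).val (v i).val : ℕ) : ℤ), ?_, ?_⟩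
    · simp only [Fintype.mem_piFinset, Finset.mem_Ico]
      intro i
      refine ⟨by positivity, ?_⟩
      exact_mod_cast Nat.chineseRemainder_lt_mul h _ _ (NeZero.ne p) (NeZero.ne q)
    · rw [Prod.mk.injEq]
      constructor
      · funext i
        have := (Nat.chineseRemainder h (u i).val (v i).val).2.1
        rw [← ZMod.natCast_eq_natCast_iff] at this
        simp only [Int.cast_natCast]
        rw [this, ZMod.natCast_zmod_val]
      · funext i
        have := (Nat.chineseRemainder h (u i).val (v i).val).2.2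
        rw [← ZMod.natCast_eq_natCast_iff] at this
        simp only [Int.cast_natCast]
        rw [this, ZMod.natCast_zmod_val]
  · intro a _
    rfl

theorem pair_sum (N : ℕ) (hN : 2 ≤ N) (p q : ℕ) (hp : p.Prime) (hq : q.Prime) (hpq : p ≠ q)
    (hp2 : p ≠ 2) (H : ℕ) (hH : 1 ≤ H) :
    |∑ a ∈ box N H, chr p N a * chr q N a| ≤ ((N + 1) * (p * q : ℝ) / H) * (box N H).card := by
  have := Fact.mk hp
  have := Fact.mk hq
  have hcop : p.Coprime q := (Nat.coprime_primes hp hq).mpr hpq
  have hpq0 : 0 < p * q := Nat.mul_pos hp.pos hq.pos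
  have hcard : ((box N H).card : ℝ) = ∏ _i : Fin (N + 1), (2 * (H : ℝ) + 1) := by
    unfold box
    rw [Fintype.card_piFinset, Nat.cast_prod]
    refine Finset.prod_congr rfl fun i _ => ?_
    rw [Int.card_Icc]
    have : (((H : ℤ) + 1 - -(H : ℤ)).toNat : ℕ) = 2 * H + 1 := by omega
    rw [this]
    push_cast
    ring
  have hG := SzSP.per_sum (fun _ : Fin (N + 1) => H) (p * q) hpq0
    (fun a => chr p N a * chr q N a) ?_ ?_ ?_
  · have hbox : box N H = Fintype.piFinset (fun _ : Fin (N + 1) =>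
        Finset.Icc (-(H : ℤ)) (H : ℤ)) := rfl
    rw [hcard]
    rw [← hbox] at hG
    refine hG.trans ?_
    have hH0 : (0 : ℝ) < H := by exact_mod_cast hH
    refine mul_le_mul_of_nonneg_right ?_ (Finset.prod_nonneg fun _ _ => by positivity)
    rw [Finset.sum_const, Finset.card_univ, Fintype.card_fin, nsmul_eq_mul]
    have hb : 2 * ((p * q : ℕ) : ℝ) / (2 * (H : ℝ) + 1) ≤ (p * q : ℝ) / H := by
      rw [div_le_div_iff₀ (by positivity) hH0]
      push_cast
      have h4 : (0 : ℝ) ≤ (p : ℝ) * q := by positivity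
      nlinarith
    calc ((N + 1 : ℕ) : ℝ) * (2 * ((p * q : ℕ) : ℝ) / (2 * (H : ℝ) + 1))
        ≤ ((N + 1 : ℕ) : ℝ) * ((p * q : ℝ) / H) :=
          mul_le_mul_of_nonneg_left hb (Nat.cast_nonneg _)
      _ = (N + 1) * (p * q : ℝ) / H := by push_cast; ring
  · intro a
    rw [abs_mul]
    exact mul_le_one₀ (abs_chr_le p N a) (abs_nonneg _) (abs_chr_le q N a)
  · intro a b hab
    rw [chs_chr p N, chs_chr q N, chs_chr p N, chs_chr q N]
    have h1 : (fun i => ((a i : ℤ) : ZMod p)) = (fun i => ((b i : ℤ) : ZMod p)) := by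
      funext i
      rw [← sub_eq_zero, ← Int.cast_sub, ZMod.intCast_zmod_eq_zero_iff_dvd]
      refine dvd_trans ?_ (hab i)
      push_cast
      exact dvd_mul_right _ _
    have h2 : (fun i => ((a i : ℤ) : ZMod q)) = (fun i => ((b i : ℤ) : ZMod q)) := by
      funext i
      rw [← sub_eq_zero, ← Int.cast_sub, ZMod.intCast_zmod_eq_zero_iff_dvd]
      refine dvd_trans ?_ (hab i)
      push_cast
      exact dvd_mul_left _ _
    rw [h1, h2]
  · simp only [chs_chr p N, chs_chr q N]
    rw [chs_sum p q hcop (fun u => ((chF p N u : ℤ) : ℝ)) (fun v => ((chF q N v : ℤ) : ℝ))]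
    have h0 := sum_form p hp2 N hN
    have h1 : ∑ u : Fin (N + 1) → ZMod p, ((chF p N u : ℤ) : ℝ) = 0 := by
      rw [← Int.cast_sum]
      have h2 : ∑ u : Fin (N + 1) → ZMod p, chF p N u = 0 := h0
      rw [h2, Int.cast_zero]
    rw [h1, zero_mul]

end SzBF
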