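import Mathlib

/-!
Small points on the cyclic covers `X : y^m = F(x,1)` of the line, `F` a binary form of degree `N`
divisible by `m` with integral coefficients (for `m = 2`: all hyperelliptic curves of genus
`N/2 - 1` over the rational numbers): definitions.

We write `f = F(x,1)`, of degree `N`, with `N` different roots. `X` has genus
`(m-1)(N-2)/2`, the roots `α` of `f` give the branch points `W = (α,0)` of `X`, and `y` is a
uniformiser at each of them. For a factor `g` of `f` that is irreducible over the rational numbers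
the points `(α,0)`, `g(α) = 0`, are conjugate, and `deg g` times their stable height is

  `sum over the roots α of g in ℂ of - log |dy|_Ar (α,0)`
     `+ sum over p of the sum over the roots α of g in ℂ_p of - log |dy|_p (α,0)`.

- Archimedean term. The canonical form is mu = (1/genus) sum (i/2) omega_k wedge conj omega_k over
  an orthonormal basis. An orthonormal basis is given by P dx / y^j, 1 <= j <= m-1, where P runs
  through an orthonormal basis of the polynomials of degree less than N j / m - 1 for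
  m * integral P conj(Q) |f|^(-2j/m); so the image of mu in the x-plane has the density rho below.
  (α,0) is fixed by the automorphisms of the cover, hence
  log G(P,(α,0)) = (1/m) (log|x(P)-α| - U(x(P)) - U(α) + I), U(x) = integral log|x-s| rho(s),
  I = integral U rho, and - log |dy|_Ar = lim (log G(P,(α,0)) - log |y(P)|) =
  (1/m) (I - 2 U(α) - log |f'(α)|).
- Term at p. Over a finite extension with semi-stable reduction the residue class of (α,0) in the
  minimal regular model is an open disc, y = c t + ... in its parameter t, the term is - log |c|,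
  and |c| is the largest absolute value of the first coefficient of y for rigid analytic maps of
  the open unit disc over C_p to X with centre mapped to (α,0) (genus > 0).
-/

open Polynomial MeasureTheory ComplexConjugate

namespace SzBF

/-- The polynomial `sum_{i ≤ N} a_i x^i`, that is `F(x,1)` for `F = sum_i a_i x^i z^(N-i)`. -/
noncomputable def form {R : Type*} [CommRing R] (N : ℕ) (a : Fin (N + 1) → R) : R[X] :=
  ∑ i : Fin (N + 1), C (a i) * X ^ (i : ℕ)

/-- The genus of `y^m = f(x)`, `f` separable of degree `N` divisible by `m`. -/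
def genus (m N : ℕ) : ℕ := (m - 1) * (N - 2) / 2

/-- The complex polynomial of an integral polynomial. -/
noncomputable def cpx (f : ℤ[X]) : ℂ[X] := f.map (Int.castRingHom ℂ)

/-- The weight `|y|^(-2j) = |f(z)|^(-2j/m)`. -/
noncomputable def wt (m : ℕ) (f : ℤ[X]) (j : ℕ) (z : ℂ) : ℝ :=
  ‖(cpx f).eval z‖ ^ (-(2 * (j : ℝ) / m))

/-- Orthonormal bases `e j` of the spaces of holomorphic differentials `P dx / y^j`
(`P` of degree less than `N j / m - 1`) of `y^m = f(x)`, for `1 ≤ j ≤ m - 1`. -/
def IsONB (m : ℕ) (f : ℤ[X]) (e : (j : ℕ) → Fin (f.natDegree * j / m - 1) → ℂ[X]) : Prop :=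
  ∀ j ∈ Finset.Ico 1 m, (∀ k, (e j k).degree < (f.natDegree * j / m - 1 : ℕ)) ∧
    ∀ k l, (m : ℂ) * ∫ z : ℂ, (e j k).eval z * conj ((e j l).eval z) * (wt m f j z : ℂ)
      = if k = l then 1 else 0

/-- The density of the image of the canonical (Arakelov) measure of `y^m = f(x)` in the
`x`-plane. -/
noncomputable def rho (m : ℕ) (f : ℤ[X]) (e : (j : ℕ) → Fin (f.natDegree * j / m - 1) → ℂ[X])
    (z : ℂ) : ℝ :=
  ((m : ℝ) / genus m f.natDegree) *
    ∑ j ∈ Finset.Ico 1 m, ∑ k, ‖(e j k).eval z‖ ^ 2 * wt m f j z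

/-- The archimedean term at the branch point `(α,0)`. -/
noncomputable def arch (m : ℕ) (f : ℤ[X]) (e : (j : ℕ) → Fin (f.natDegree * j / m - 1) → ℂ[X])
    (α : ℂ) : ℝ :=
  (1 / (m : ℝ)) * ((∫ x : ℂ, (∫ s : ℂ, Real.log ‖x - s‖ * rho m f e s) * rho m f e x)
    - 2 * (∫ s : ℂ, Real.log ‖α - s‖ * rho m f e s) - Real.log ‖(cpx f).derivative.eval α‖)

/-- The coefficients are bounded by 1. -/
def Bdd {L : Type*} [NormedField L] (U : PowerSeries L) : Prop := ∀ k, ‖U.coeff k‖ ≤ 1

/-- `V^N f(U/V)`, `N = deg f` -/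
noncomputable def homg {L : Type*} [NormedField L] (f : ℤ[X]) (U V : PowerSeries L) :
    PowerSeries L :=
  ∑ i ∈ Finset.range (f.natDegree + 1),
    PowerSeries.C ((f.coeff i : ℤ) : L) * U ^ i * V ^ (f.natDegree - i)

/-- (For `L = ℂ_[p]`.) There is a rigid analytic map from the open unit disc over `L` to
`y^m = f(x)`, centre mapped to `(α,0)`, given by `x = U/V = α + ...`, `y = W/Z = c t + ...` with
bounded power series `U, V, W, Z`. -/
def IsDiscL {L : Type*} [NormedField L] (m : ℕ) (f : ℤ[X]) (α c : L) : Prop :=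
  c ≠ 0 ∧ ∃ U V W Z : PowerSeries L,
    Bdd U ∧ Bdd V ∧ Bdd W ∧ Bdd Z ∧
    W ^ m * V ^ f.natDegree = Z ^ m * homg f U V ∧
    V.order < (U - PowerSeries.C α * V).order ∧
    Z.order + 1 < (W - PowerSeries.C c * PowerSeries.X * Z).order

/-- The same over `ℂ_[p]`. -/
def IsDisc (p : ℕ) [Fact p.Prime] (m : ℕ) (f : ℤ[X]) (α c : ℂ_[p]) : Prop :=
  IsDiscL m f α c

/-- The supremum of `log |c|` over these maps. -/
noncomputable def logRadius (p : ℕ) [Fact p.Prime] (m : ℕ) (f : ℤ[X]) (α : ℂ_[p]) : EReal :=
  ⨆ c ∈ {c : ℂ_[p] | IsDisc p m f α c}, ((Real.log ‖c‖ : ℝ) : EReal)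

/-- The sum of the `logRadius` over the roots of `g` in `ℂ_[p]`. -/
noncomputable def padic (p : Nat.Primes) (m : ℕ) (f : ℤ[X]) (g : ℚ[X]) : EReal :=
  haveI : Fact (p : ℕ).Prime := ⟨p.2⟩
  ((g.map (algebraMap ℚ ℂ_[p])).roots.map (logRadius p m f)).sum

/-- `deg g` times the stable Arakelov height of the branch points `(α,0)`, `g(α) = 0`. All but
finitely many of the terms of the sum over the primes are nonnegative, the `liminf` of the finite
partial sums is its value. -/
noncomputable def degHeight (m : ℕ) (f : ℤ[X]) (g : ℚ[X])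
    (e : (j : ℕ) → Fin (f.natDegree * j / m - 1) → ℂ[X]) : EReal :=
  (((g.map (algebraMap ℚ ℂ)).roots.map (arch m f e)).sum : EReal) -
    Filter.liminf (fun P : Finset Nat.Primes => ∑ p ∈ P, padic p m f g) Filter.atTop

/-- The product of the primes `p` not dividing `2 m` which divide the discriminant of `f` to an odd
power. -/
noncomputable def oddPart (m : ℕ) (f : ℤ[X]) : ℕ :=
  ∏ p ∈ f.discr.natAbs.primeFactors with
    (Odd (f.discr.natAbs.factorization p) ∧ ¬ p ∣ 2 * m), p

/-- The integer vectors with `|a_i| ≤ H`. -/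
noncomputable def box (N H : ℕ) : Finset (Fin (N + 1) → ℤ) :=
  Fintype.piFinset fun _ => Finset.Icc (-(H : ℤ)) H

/-- `f` has degree `N`, `y^m = f(x)` is a curve of genus `(m-1)(N-2)/2`, and one of its branch
points has stable height at most `B`. -/
def SmallPoint (m N : ℕ) (f : ℤ[X]) (B : ℝ) : Prop :=
  f.natDegree = N ∧ f.discr ≠ 0 ∧ (∃ e, IsONB m f e) ∧
    ∀ e, IsONB m f e → ∃ g : ℚ[X], Irreducible g ∧ g ∣ f.map (Int.castRingHom ℚ) ∧
      degHeight m f g e ≤ ((g.natDegree * B : ℝ) : EReal)

end SzBF
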