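import Pool.Agent.SzBF.DiscL

/-!
The image of the canonical measure is a probability measure.
-/

open Polynomial MeasureTheory

namespace SzBF

theorem sum_dim (m N : ℕ) (hm : 2 ≤ m) (hmN : m ∣ N) (hN : 2 ≤ N) :
    ∑ j ∈ Finset.Ico 1 m, (N * j / m - 1) = genus m N := by
  obtain ⟨q, rfl⟩ := hmN
  have hq : 1 ≤ q := by
    rcases Nat.eq_zero_or_pos q with h | h
    · rw [h] at hN
      omega
    · exact h
  have h1 : ∑ j ∈ Finset.Ico 1 m, (m * q * j / m - 1) + (m - 1) = q * ∑ j ∈ Finset.Ico 1 m, j := by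
    have h2 : (m - 1) = ∑ j ∈ Finset.Ico 1 m, 1 := by
      rw [Finset.sum_const, Nat.card_Ico, smul_eq_mul, mul_one]
    conv_lhs => rw [h2]
    rw [← Finset.sum_add_distrib, Finset.mul_sum]
    apply Finset.sum_congr rfl
    intro j hj
    rw [Finset.mem_Ico] at hj
    have h3 : m * q * j / m = q * j := by
      rw [mul_assoc]
      exact Nat.mul_div_cancel_left _ (by omega)
    rw [h3]
    have h4 : 1 ≤ q * j := Nat.mul_pos hq hj.1
    omega
  have h5 : (∑ j ∈ Finset.Ico 1 m, j) * 2 = m * (m - 1) := by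
    have h6 : ∑ j ∈ Finset.range m, j = ∑ j ∈ Finset.Ico 1 m, j := by
      rw [Finset.range_eq_Ico, Finset.sum_eq_sum_Ico_succ_bot (by omega)]
      simp
    rw [← h6]
    exact Finset.sum_range_id_mul_two m
  obtain ⟨m', rfl⟩ : ∃ m', m = m' + 1 := ⟨m - 1, by omega⟩
  rw [Nat.add_sub_cancel] at h1 h5
  unfold genus
  rw [Nat.add_sub_cancel]
  have h7 : m' * ((m' + 1) * q - 2) = m' * ((m' + 1) * q) - m' * 2 := Nat.mul_sub _ _ _
  have h8 : 2 * (∑ j ∈ Finset.Ico 1 (m' + 1), ((m' + 1) * q * j / (m' + 1) - 1)) + m' * 2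
      = m' * ((m' + 1) * q) := by
    have h9 : q * (∑ j ∈ Finset.Ico 1 (m' + 1), j) * 2 = q * ((m' + 1) * m') := by
      rw [mul_assoc, h5]
    have h10 : m' * ((m' + 1) * q) = q * ((m' + 1) * m') := by ring
    rw [h10, ← h9, ← h1]
    ring
  rw [h7, ← h8, Nat.add_sub_cancel, Nat.mul_div_cancel_left _ (by norm_num)]

theorem four_le (m N : ℕ) (hm : m ∣ N) (hg : 2 ≤ genus m N) : 2 ≤ m ∧ 4 ≤ N := by
  unfold genus at hg
  have h1 : 4 ≤ (m - 1) * (N - 2) := by omega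
  refine ⟨?_, ?_⟩
  · by_contra h
    have h2 : m - 1 = 0 := by omega
    rw [h2] at h1
    omega
  · by_contra h
    have h2 : N - 2 ≤ 1 := by omega
    have h3 : 0 < N := by
      rcases Nat.eq_zero_or_pos N with h0 | h0
      · subst h0
        simp at h1
      · exact h0
    have h4 : m ≤ N := Nat.le_of_dvd h3 hm
    have h5 : (m - 1) * (N - 2) ≤ 2 * 1 := Nat.mul_le_mul (by omega) h2
    omega

theorem rho_nonneg (m : ℕ) (f : ℤ[X]) (e : (j : ℕ) → Fin (f.natDegree * j / m - 1) → ℂ[X])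
    (z : ℂ) : 0 ≤ rho m f e z := by
  unfold rho wt
  apply mul_nonneg
  · positivity
  · apply Finset.sum_nonneg
    intro j _
    apply Finset.sum_nonneg
    intro k _
    positivity

theorem onb_norm (m : ℕ) (hm : 2 ≤ m) (f : ℤ[X])
    (e : (j : ℕ) → Fin (f.natDegree * j / m - 1) → ℂ[X]) (he : IsONB m f e) (j : ℕ)
    (hj : j ∈ Finset.Ico 1 m) (k : Fin (f.natDegree * j / m - 1)) :
    Integrable (fun z : ℂ => ‖(e j k).eval z‖ ^ 2 * wt m f j z) ∧
      ∫ z : ℂ, ‖(e j k).eval z‖ ^ 2 * wt m f j z = 1 / m := by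
  have hm0 : (m : ℝ) ≠ 0 := by
    have : (0 : ℝ) < m := by exact_mod_cast (by omega : 0 < m)
    exact this.ne'
  have h1 := (he j hj).2 k k
  rw [if_pos rfl] at h1
  have hfun : (fun z : ℂ => (e j k).eval z * (starRingEnd ℂ) ((e j k).eval z) * (wt m f j z : ℂ))
      = fun z : ℂ => ((‖(e j k).eval z‖ ^ 2 * wt m f j z : ℝ) : ℂ) := by
    funext z
    rw [Complex.mul_conj, Complex.normSq_eq_norm_sq]
    push_cast
    ring
  rw [hfun] at h1
  have h0 : ∫ z : ℂ, ((‖(e j k).eval z‖ ^ 2 * wt m f j z : ℝ) : ℂ)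
      = ((∫ z : ℂ, ‖(e j k).eval z‖ ^ 2 * wt m f j z : ℝ) : ℂ) := integral_ofReal
  rw [h0] at h1
  have h2 : (m : ℝ) * ∫ z : ℂ, ‖(e j k).eval z‖ ^ 2 * wt m f j z = 1 := by
    exact_mod_cast h1
  refine ⟨?_, ?_⟩
  · by_contra hni
    rw [integral_undef hni] at h2
    simp at h2
  · field_simp
    linarith

theorem rho_mass (m : ℕ) (hm : 2 ≤ m) (f : ℤ[X]) (hmN : m ∣ f.natDegree) (hN : 2 ≤ f.natDegree)
    (hg : 1 ≤ genus m f.natDegree) (e : (j : ℕ) → Fin (f.natDegree * j / m - 1) → ℂ[X])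
    (he : IsONB m f e) : Integrable (rho m f e) ∧ ∫ z, rho m f e z = 1 := by
  have hm0 : (m : ℝ) ≠ 0 := by
    have : (0 : ℝ) < m := by exact_mod_cast (by omega : 0 < m)
    exact this.ne'
  have key := onb_norm m hm f e he
  have hint : ∀ j ∈ Finset.Ico 1 m, Integrable
      (fun z : ℂ => ∑ k, ‖(e j k).eval z‖ ^ 2 * wt m f j z) := by
    intro j hj
    exact integrable_finsetSum _ (fun k _ => (key j hj k).1)
  have hint2 : Integrable
      (fun z : ℂ => ∑ j ∈ Finset.Ico 1 m, ∑ k, ‖(e j k).eval z‖ ^ 2 * wt m f j z) :=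
    integrable_finsetSum _ hint
  refine ⟨hint2.const_mul _, ?_⟩
  have hg0 : ((genus m f.natDegree : ℕ) : ℝ) ≠ 0 := by
    have : (0 : ℝ) < (genus m f.natDegree : ℕ) := by exact_mod_cast (by omega)
    exact this.ne'
  have h3 : ∫ z, rho m f e z = ((m : ℝ) / genus m f.natDegree) *
      ∫ z : ℂ, ∑ j ∈ Finset.Ico 1 m, ∑ k, ‖(e j k).eval z‖ ^ 2 * wt m f j z := by
    rw [← integral_const_mul]
    rfl
  rw [h3, integral_finsetSum _ hint]
  have h4 : ∀ j ∈ Finset.Ico 1 m,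
      ∫ z : ℂ, ∑ k, ‖(e j k).eval z‖ ^ 2 * wt m f j z =
        ((f.natDegree * j / m - 1 : ℕ) : ℝ) / m := by
    intro j hj
    rw [integral_finsetSum _ (fun k _ => (key j hj k).1)]
    rw [Finset.sum_congr rfl (fun k _ => (key j hj k).2)]
    rw [Finset.sum_const, Finset.card_univ, Fintype.card_fin, nsmul_eq_mul]
    ring
  rw [Finset.sum_congr rfl h4, ← Finset.sum_div, ← Nat.cast_sum,
    sum_dim m f.natDegree hm hmN hN]
  field_simp

end SzBF
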