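import Pool.Agent.SzBF.Mx
import Pool.Agent.SzBF.Mass
import Pool.Agent.SzSP.Tail

/-!
Pointwise bound of the density of the canonical measure.
-/

open Polynomial MeasureTheory

namespace SzBF

theorem Dens_cpx_ne (f : ℤ[X]) (hN : 4 ≤ f.natDegree) : cpx f ≠ 0 := by
  have hf : f ≠ 0 := by
    rintro rfl
    simp at hN
  unfold cpx
  rw [Ne, Polynomial.map_eq_zero_iff (RingHom.injective_int _)]
  exact hf

theorem Dens_QQ_pos (N : ℕ) (H : ℝ) (hH1 : 1 ≤ H) : 0 < QQ N H := by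
  unfold QQ
  positivity

theorem Dens_mx_pos (z : ℂ) : 0 < mx z := lt_of_lt_of_le one_pos (one_le_mx z)

theorem Dens_norm (f : ℤ[X]) (z : ℂ) : ‖(cpx f).eval z‖ = nF f z * mx z ^ f.natDegree := by
  unfold nF
  have := Dens_mx_pos z
  field_simp

theorem Dens_ball (m : ℕ) (hm : 2 ≤ m) (f : ℤ[X]) (hN : 4 ≤ f.natDegree)
    (e : (j : ℕ) → Fin (f.natDegree * j / m - 1) → ℂ[X]) (he : IsONB m f e) (H : ℝ) (hH1 : 1 ≤ H)
    (hH : ∀ i, |(f.coeff i : ℝ)| ≤ H) (j : ℕ) (hj : j ∈ Finset.Ico 1 m)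
    (k : Fin (f.natDegree * j / m - 1)) :
    ∫ z in Metric.closedBall (0 : ℂ) 1, ‖(e j k).eval z‖ ^ 2 ≤
      QQ f.natDegree H ^ (2 * (j : ℝ) / m) / m := by
  obtain ⟨hint, hval⟩ := onb_norm m hm f e he j hj k
  have hQ := Dens_QQ_pos f.natDegree H hH1
  have hwt : ∀ z, 0 ≤ wt m f j z := fun z => Real.rpow_nonneg (norm_nonneg _) _
  set c : ℝ := QQ f.natDegree H ^ (2 * (j : ℝ) / m) with hc
  have hc0 : 0 < c := Real.rpow_pos_of_pos hQ _
  have hne := Dens_cpx_ne f hN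
  have hae : ∀ᵐ z : ℂ, (cpx f).eval z ≠ 0 := by
    have hfin : {z : ℂ | ¬ (cpx f).eval z ≠ 0}.Finite := by
      refine ((cpx f).roots.toFinset.finite_toSet).subset fun z hz => ?_
      simp only [Finset.mem_coe, Multiset.mem_toFinset]
      rw [mem_roots hne]
      simpa using hz
    exact hfin.measure_zero _
  calc ∫ z in Metric.closedBall (0 : ℂ) 1, ‖(e j k).eval z‖ ^ 2
      ≤ ∫ z in Metric.closedBall (0 : ℂ) 1, c * (‖(e j k).eval z‖ ^ 2 * wt m f j z) := by
        refine setIntegral_mono_on_ae ?_ ?_ measurableSet_closedBall ?_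
        · exact (by fun_prop : Continuous fun z : ℂ =>
            ‖(e j k).eval z‖ ^ 2).continuousOn.integrableOn_compact (isCompact_closedBall 0 1)
        · exact (hint.const_mul c).integrableOn
        · filter_upwards [hae] with z hz hzb
          have hz1 : ‖z‖ ≤ 1 := by simpa using hzb
          have h1 : ‖(cpx f).eval z‖ ≤ QQ f.natDegree H := by
            have h0 := nF_le f H hH z
            have hmx : mx z = 1 := max_eq_left hz1
            rw [Dens_norm, hmx, one_pow, mul_one]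
            exact h0
          have h2 : c⁻¹ ≤ wt m f j z := by
            rw [hc, wt, ← Real.rpow_neg hQ.le]
            exact Real.rpow_le_rpow_of_nonpos (norm_pos_iff.2 hz) h1 (by
              have : 0 ≤ 2 * (j : ℝ) / m := by positivity
              linarith)
          have h3 : 1 ≤ c * wt m f j z := by
            calc 1 = c * c⁻¹ := (mul_inv_cancel₀ hc0.ne').symm
              _ ≤ _ := mul_le_mul_of_nonneg_left h2 hc0.le
          calc ‖(e j k).eval z‖ ^ 2 = ‖(e j k).eval z‖ ^ 2 * 1 := (mul_one _).symm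
            _ ≤ ‖(e j k).eval z‖ ^ 2 * (c * wt m f j z) :=
              mul_le_mul_of_nonneg_left h3 (by positivity)
            _ = _ := by ring
    _ ≤ ∫ z : ℂ, c * (‖(e j k).eval z‖ ^ 2 * wt m f j z) := by
        refine setIntegral_le_integral (hint.const_mul c) (Filter.Eventually.of_forall fun z => ?_)
        have := hwt z
        simp only [Pi.zero_apply]
        positivity
    _ = c / m := by
        rw [integral_const_mul, hval]
        ring

theorem Dens_eval_sq_le (P : ℂ[X]) (d : ℕ) (hd : P.degree < d) (B : ℝ)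
    (hB : ∫ z in Metric.closedBall (0 : ℂ) 1, ‖P.eval z‖ ^ 2 ≤ B) (z : ℂ) :
    ‖P.eval z‖ ^ 2 ≤ (d : ℝ) ^ 3 * B / Real.pi * mx z ^ (2 * (d - 1)) := by
  have hB0 : 0 ≤ B := (integral_nonneg fun z => by positivity).trans hB
  have ht : 1 ≤ mx z := one_le_mx z
  have e1 : P.eval z = ∑ i ∈ Finset.range d, P.coeff i * z ^ i := by
    by_cases hP : P = 0
    · simp [hP]
    · exact eval_eq_sum_range' ((natDegree_lt_iff_degree_lt hP).2 hd) z
  have e2 : ‖P.eval z‖ ≤ ∑ i ∈ Finset.range d, ‖P.coeff i‖ * mx z ^ i := by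
    rw [e1]
    refine (norm_sum_le _ _).trans (Finset.sum_le_sum fun i _ => ?_)
    rw [norm_mul, norm_pow]
    exact mul_le_mul_of_nonneg_left (pow_le_pow_left₀ (norm_nonneg _) (norm_le_mx z) i)
      (norm_nonneg _)
  have e3 : ∀ i ∈ Finset.range d, (‖P.coeff i‖ * mx z ^ i) ^ 2 ≤
      (d / Real.pi * B) * mx z ^ (2 * (d - 1)) := by
    intro i hi
    rw [Finset.mem_range] at hi
    have h1 := SzSP.coeff_le P i 1 one_pos
    simp only [one_pow, mul_one] at h1
    have h2 : ‖P.coeff i‖ ^ 2 ≤ d / Real.pi * B := by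
      refine h1.trans ?_
      refine mul_le_mul ?_ hB (integral_nonneg fun z => by positivity) (by positivity)
      refine div_le_div_of_nonneg_right ?_ Real.pi_pos.le
      exact_mod_cast hi
    have h3 : mx z ^ (2 * i) ≤ mx z ^ (2 * (d - 1)) :=
      pow_le_pow_right₀ ht (by omega)
    calc (‖P.coeff i‖ * mx z ^ i) ^ 2 = ‖P.coeff i‖ ^ 2 * mx z ^ (2 * i) := by ring
      _ ≤ _ := mul_le_mul h2 h3 (by positivity) (by positivity)
  calc ‖P.eval z‖ ^ 2 ≤ (∑ i ∈ Finset.range d, ‖P.coeff i‖ * mx z ^ i) ^ 2 :=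
        pow_le_pow_left₀ (norm_nonneg _) e2 2
    _ ≤ (Finset.range d).card * ∑ i ∈ Finset.range d, (‖P.coeff i‖ * mx z ^ i) ^ 2 :=
        sq_sum_le_card_mul_sum_sq
    _ ≤ d * ∑ i ∈ Finset.range d, (d / Real.pi * B) * mx z ^ (2 * (d - 1)) := by
        rw [Finset.card_range]
        exact mul_le_mul_of_nonneg_left (Finset.sum_le_sum e3) (Nat.cast_nonneg d)
    _ = _ := by
        rw [Finset.sum_const, Finset.card_range, nsmul_eq_mul]
        ring

theorem onb_eval_le (m : ℕ) (hm : 2 ≤ m) (f : ℤ[X]) (hmN : m ∣ f.natDegree)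
    (hN : 4 ≤ f.natDegree) (hd : f.discr ≠ 0)
    (e : (j : ℕ) → Fin (f.natDegree * j / m - 1) → ℂ[X]) (he : IsONB m f e) (H : ℝ) (hH1 : 1 ≤ H)
    (hH : ∀ i, |(f.coeff i : ℝ)| ≤ H) (j : ℕ) (hj : j ∈ Finset.Ico 1 m)
    (k : Fin (f.natDegree * j / m - 1)) (z : ℂ) :
    ‖(e j k).eval z‖ ^ 2 ≤ ((f.natDegree * j / m - 1 : ℕ) : ℝ) ^ 3 / (Real.pi * m) *
      QQ f.natDegree H ^ (2 * (j : ℝ) / m) * mx z ^ (2 * (f.natDegree * j / m - 2)) := by
  have hm0 : (0 : ℝ) < m := by exact_mod_cast (by omega : 0 < m)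
  have h1 := Dens_ball m hm f hN e he H hH1 hH j hj k
  have h2 := Dens_eval_sq_le (e j k) (f.natDegree * j / m - 1) ((he j hj).1 k) _ h1 z
  rw [show f.natDegree * j / m - 1 - 1 = f.natDegree * j / m - 2 by omega] at h2
  refine h2.trans (le_of_eq ?_)
  field_simp

theorem Dens_term (m : ℕ) (hm : 2 ≤ m) (f : ℤ[X]) (hmN : m ∣ f.natDegree)
    (hN : 4 ≤ f.natDegree) (hd : f.discr ≠ 0)
    (e : (j : ℕ) → Fin (f.natDegree * j / m - 1) → ℂ[X]) (he : IsONB m f e) (H : ℝ) (hH1 : 1 ≤ H)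
    (hH : ∀ i, |(f.coeff i : ℝ)| ≤ H) (j : ℕ) (hj : j ∈ Finset.Ico 1 m)
    (k : Fin (f.natDegree * j / m - 1)) (z : ℂ) (hz : (cpx f).eval z ≠ 0) :
    ‖(e j k).eval z‖ ^ 2 * wt m f j z ≤ ((f.natDegree * j / m - 1 : ℕ) : ℝ) ^ 3 / (Real.pi * m) *
      (mx z ^ (-4 : ℝ) * (QQ f.natDegree H / nF f z) ^ (2 - 2 / (m : ℝ))) := by
  obtain ⟨hj1, hj2⟩ := Finset.mem_Ico.1 hj
  have hm0 : (0 : ℝ) < m := by exact_mod_cast (by omega : 0 < m)
  have hQ := Dens_QQ_pos f.natDegree H hH1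
  have hmx := Dens_mx_pos z
  have h1 := onb_eval_le m hm f hmN hN hd e he H hH1 hH j hj k z
  have hk := k.2
  have hpos : 0 < ‖(cpx f).eval z‖ := norm_pos_iff.2 hz
  have hnF : 0 < nF f z := by
    unfold nF
    positivity
  have hwt0 : 0 ≤ wt m f j z := Real.rpow_nonneg (norm_nonneg _) _
  obtain ⟨q, hq⟩ := hmN
  have hdiv : f.natDegree * j / m = q * j := by
    rw [hq, mul_assoc, Nat.mul_div_cancel_left _ (by omega)]
  have hqj : 2 ≤ q * j := by omega
  set s : ℝ := 2 * (j : ℝ) / m with hs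
  have hs0 : 0 ≤ s := by positivity
  have hwt : wt m f j z = nF f z ^ (-s) * mx z ^ (-(2 * (q * j : ℕ) : ℝ)) := by
    rw [wt, Dens_norm, Real.mul_rpow hnF.le (by positivity)]
    congr 1
    rw [← Real.rpow_natCast, ← Real.rpow_mul hmx.le]
    congr 1
    rw [hq]
    push_cast
    field_simp
  have hpw : mx z ^ (2 * (f.natDegree * j / m - 2)) * mx z ^ (-(2 * (q * j : ℕ) : ℝ)) =
      mx z ^ (-4 : ℝ) := by
    rw [← Real.rpow_natCast, ← Real.rpow_add hmx, hdiv]
    congr 1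
    rw [Nat.cast_mul, Nat.cast_sub hqj]
    push_cast
    ring
  have hrat : QQ f.natDegree H ^ s * nF f z ^ (-s) = (QQ f.natDegree H / nF f z) ^ s := by
    rw [Real.rpow_neg hnF.le, ← div_eq_mul_inv, Real.div_rpow hQ.le hnF.le]
  have hone : 1 ≤ QQ f.natDegree H / nF f z := by
    rw [le_div_iff₀ hnF, one_mul]
    exact nF_le f H hH z
  have hexp : (QQ f.natDegree H / nF f z) ^ s ≤
      (QQ f.natDegree H / nF f z) ^ (2 - 2 / (m : ℝ)) := by
    refine Real.rpow_le_rpow_of_exponent_le hone ?_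
    rw [hs, div_le_iff₀ hm0]
    have hjm : (j : ℝ) + 1 ≤ m := by exact_mod_cast hj2
    have : (2 - 2 / (m : ℝ)) * m = 2 * m - 2 := by field_simp
    rw [this]
    linarith
  calc ‖(e j k).eval z‖ ^ 2 * wt m f j z
      ≤ (((f.natDegree * j / m - 1 : ℕ) : ℝ) ^ 3 / (Real.pi * m) * QQ f.natDegree H ^ s *
          mx z ^ (2 * (f.natDegree * j / m - 2))) * wt m f j z :=
        mul_le_mul_of_nonneg_right h1 hwt0
    _ = ((f.natDegree * j / m - 1 : ℕ) : ℝ) ^ 3 / (Real.pi * m) *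
          ((mx z ^ (2 * (f.natDegree * j / m - 2)) * mx z ^ (-(2 * (q * j : ℕ) : ℝ))) *
            (QQ f.natDegree H ^ s * nF f z ^ (-s))) := by
        rw [hwt]
        ring
    _ = ((f.natDegree * j / m - 1 : ℕ) : ℝ) ^ 3 / (Real.pi * m) *
          (mx z ^ (-4 : ℝ) * (QQ f.natDegree H / nF f z) ^ s) := by
        rw [hpw, hrat]
    _ ≤ _ := by
        refine mul_le_mul_of_nonneg_left ?_ (by positivity)
        exact mul_le_mul_of_nonneg_left hexp (by positivity)

theorem rho_le (m : ℕ) (hm : 2 ≤ m) (f : ℤ[X]) (hmN : m ∣ f.natDegree)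
    (hN : 4 ≤ f.natDegree) (hd : f.discr ≠ 0)
    (e : (j : ℕ) → Fin (f.natDegree * j / m - 1) → ℂ[X]) (he : IsONB m f e) (H : ℝ) (hH1 : 1 ≤ H)
    (hH : ∀ i, |(f.coeff i : ℝ)| ≤ H) (z : ℂ) :
    rho m f e z ≤ (f.natDegree : ℝ) ^ 3 / Real.pi * mx z ^ (-4 : ℝ) *
      (QQ f.natDegree H / nF f z) ^ (2 - 2 / (m : ℝ)) := by
  have hm0 : (0 : ℝ) < m := by exact_mod_cast (by omega : 0 < m)
  have hQ := Dens_QQ_pos f.natDegree H hH1
  have hmx := Dens_mx_pos z
  have hgen : 0 < genus m f.natDegree := by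
    unfold genus
    refine Nat.div_pos ?_ two_pos
    calc 2 = 1 * 2 := rfl
      _ ≤ (m - 1) * (f.natDegree - 2) := Nat.mul_le_mul (by omega) (by omega)
  have hgen' : (0 : ℝ) < genus m f.natDegree := by exact_mod_cast hgen
  have hX0 : 0 ≤ mx z ^ (-4 : ℝ) * (QQ f.natDegree H / nF f z) ^ (2 - 2 / (m : ℝ)) := by
    have : 0 ≤ nF f z := by
      unfold nF
      positivity
    positivity
  by_cases hz : (cpx f).eval z = 0
  · have h1 : rho m f e z = 0 := by
      rw [rho]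
      have h2 : ∑ j ∈ Finset.Ico 1 m, ∑ k, ‖(e j k).eval z‖ ^ 2 * wt m f j z = 0 := by
        refine Finset.sum_eq_zero fun j hj => Finset.sum_eq_zero fun k _ => ?_
        obtain ⟨hj1, hj2⟩ := Finset.mem_Ico.1 hj
        have hj0 : (0 : ℝ) < j := by exact_mod_cast hj1
        have h3 : wt m f j z = 0 := by
          rw [wt, hz, norm_zero, Real.zero_rpow]
          have : 0 < 2 * (j : ℝ) / m := by positivity
          linarith
        rw [h3, mul_zero]
      rw [h2, mul_zero]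
    rw [h1, mul_assoc]
    positivity
  · set X : ℝ := mx z ^ (-4 : ℝ) * (QQ f.natDegree H / nF f z) ^ (2 - 2 / (m : ℝ)) with hX
    have h1 : ∀ j ∈ Finset.Ico 1 m, ∑ k, ‖(e j k).eval z‖ ^ 2 * wt m f j z ≤
        ((f.natDegree : ℝ) ^ 3 / (Real.pi * m) * X) * ((f.natDegree * j / m - 1 : ℕ) : ℝ) := by
      intro j hj
      obtain ⟨hj1, hj2⟩ := Finset.mem_Ico.1 hj
      have hdn : f.natDegree * j / m - 1 ≤ f.natDegree := by
        refine (Nat.sub_le _ _).trans (Nat.div_le_of_le_mul ?_)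
        rw [mul_comm m f.natDegree]
        exact Nat.mul_le_mul_left f.natDegree hj2.le
      calc ∑ k, ‖(e j k).eval z‖ ^ 2 * wt m f j z
          ≤ ∑ _k : Fin (f.natDegree * j / m - 1),
              ((f.natDegree * j / m - 1 : ℕ) : ℝ) ^ 3 / (Real.pi * m) * X :=
            Finset.sum_le_sum fun k _ => Dens_term m hm f hmN hN hd e he H hH1 hH j hj k z hz
        _ = (((f.natDegree * j / m - 1 : ℕ) : ℝ) ^ 3 / (Real.pi * m) * X) *
              ((f.natDegree * j / m - 1 : ℕ) : ℝ) := by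
            rw [Finset.sum_const, Finset.card_univ, Fintype.card_fin, nsmul_eq_mul]
            ring
        _ ≤ _ := by
            refine mul_le_mul_of_nonneg_right ?_ (Nat.cast_nonneg _)
            refine mul_le_mul_of_nonneg_right ?_ hX0
            refine div_le_div_of_nonneg_right ?_ (by positivity)
            exact pow_le_pow_left₀ (Nat.cast_nonneg _) (by exact_mod_cast hdn) 3
    have h2 : ∑ j ∈ Finset.Ico 1 m, ∑ k, ‖(e j k).eval z‖ ^ 2 * wt m f j z ≤
        ((f.natDegree : ℝ) ^ 3 / (Real.pi * m) * X) * genus m f.natDegree := by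
      refine (Finset.sum_le_sum h1).trans (le_of_eq ?_)
      rw [← Finset.mul_sum, ← Nat.cast_sum, sum_dim m f.natDegree hm hmN (by omega)]
    rw [rho]
    calc ((m : ℝ) / genus m f.natDegree) *
          ∑ j ∈ Finset.Ico 1 m, ∑ k, ‖(e j k).eval z‖ ^ 2 * wt m f j z
        ≤ ((m : ℝ) / genus m f.natDegree) *
            (((f.natDegree : ℝ) ^ 3 / (Real.pi * m) * X) * genus m f.natDegree) :=
          mul_le_mul_of_nonneg_left h2 (by positivity)
      _ = (f.natDegree : ℝ) ^ 3 / Real.pi * X := by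
          field_simp
      _ = _ := by
          rw [hX]
          ring

end SzBF
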