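import Pool.Agent.SzBF.PadS

/-!
From the sum over all branch points to one Galois orbit.
-/

open Polynomial

namespace SzBF

theorem Ht_roots (K : Type*) [Field K] [Algebra ℚ K] (F : ℚ[X]) (hF : F ≠ 0) :
    (F.map (algebraMap ℚ K)).roots =
      (UniqueFactorizationMonoid.normalizedFactors F).bind
        (fun g => (g.map (algebraMap ℚ K)).roots) := by
  classical
  set S := UniqueFactorizationMonoid.normalizedFactors F with hS
  obtain ⟨u, hu⟩ := UniqueFactorizationMonoid.prod_normalizedFactors hF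
  obtain ⟨c, hc, hcu⟩ := Polynomial.isUnit_iff.1 u.isUnit
  have hc0 : algebraMap ℚ K c ≠ 0 := by
    rw [Ne, map_eq_zero]
    exact hc.ne_zero
  have hF' : F = C c * S.prod := by
    rw [hcu, mul_comm]
    exact hu.symm
  have hmap : F.map (algebraMap ℚ K) =
      C (algebraMap ℚ K c) * (S.map (Polynomial.map (algebraMap ℚ K))).prod := by
    conv_lhs => rw [hF']
    rw [Polynomial.map_mul, Polynomial.map_C, Polynomial.map_multiset_prod]
  rw [hmap, Polynomial.roots_C_mul _ hc0, Polynomial.roots_multiset_prod, Multiset.bind_map]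
  intro h0
  obtain ⟨g, hg, hg0⟩ := Multiset.mem_map.1 h0
  have hg1 : Irreducible g := UniqueFactorizationMonoid.irreducible_of_normalized_factor g hg
  exact hg1.ne_zero ((Polynomial.map_eq_zero _).1 hg0)

theorem Ht_deg (F : ℚ[X]) (hF : F ≠ 0) :
    ((UniqueFactorizationMonoid.normalizedFactors F).map natDegree).sum = F.natDegree := by
  classical
  set S := UniqueFactorizationMonoid.normalizedFactors F with hS
  have h1 : Associated S.prod F := UniqueFactorizationMonoid.prod_normalizedFactors hF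
  rw [← Polynomial.natDegree_multiset_prod]
  · exact Polynomial.natDegree_eq_of_degree_eq (Polynomial.degree_eq_degree_of_associated h1)
  · intro h0
    exact (UniqueFactorizationMonoid.irreducible_of_normalized_factor _ h0).ne_zero rfl

theorem Ht_coe_sum (s : Multiset ℝ) : ((s.sum : ℝ) : EReal) = (s.map (fun x : ℝ => (x : EReal))).sum := by
  induction s using Multiset.induction_on with
  | empty => simp
  | cons a s ih => rw [Multiset.sum_cons, EReal.coe_add, ih, Multiset.map_cons, Multiset.sum_cons]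

theorem Ht_coe_fsum {ι : Type*} (s : Finset ι) (F : ι → ℝ) :
    ((∑ i ∈ s, F i : ℝ) : EReal) = ∑ i ∈ s, ((F i : ℝ) : EReal) := by
  classical
  induction s using Finset.induction_on with
  | empty => simp
  | insert a s ha ih => rw [Finset.sum_insert ha, Finset.sum_insert ha, EReal.coe_add, ih]

theorem Ht_fp (p : ℕ) [Fact p.Prime] (f : ℤ[X]) :
    fp p f = (f.map (Int.castRingHom ℚ)).map (algebraMap ℚ ℂ_[p]) := by
  rw [fp, Polynomial.map_map]
  congr 1
  exact Subsingleton.elim _ _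

theorem Ht_cpx (f : ℤ[X]) :
    cpx f = (f.map (Int.castRingHom ℚ)).map (algebraMap ℚ ℂ) := by
  rw [cpx, Polynomial.map_map]
  exact congrArg (fun φ : ℤ →+* ℂ => f.map φ) (Subsingleton.elim _ _)

/-- the sum of the lower bounds over the roots of one factor -/
noncomputable def HtL (m : ℕ) (f : ℤ[X]) (g : ℚ[X]) (p : Nat.Primes) : ℝ :=
  have : Fact (p : ℕ).Prime := ⟨p.2⟩
  ((g.map (algebraMap ℚ ℂ_[p])).roots.map (ell p m f)).sum

theorem Ht_root (p : ℕ) [Fact p.Prime] (f : ℤ[X]) (g : ℚ[X])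
    (hg : g ∣ f.map (Int.castRingHom ℚ)) (α : ℂ_[p])
    (hα : α ∈ (g.map (algebraMap ℚ ℂ_[p])).roots) : (fp p f).eval α = 0 := by
  have h1 : (g.map (algebraMap ℚ ℂ_[p])).eval α = 0 := by
    have := (Polynomial.mem_roots'.1 hα).2
    exact this
  rw [Ht_fp]
  exact Polynomial.eval_eq_zero_of_dvd_of_eval_eq_zero (Polynomial.map_dvd _ hg) h1

theorem Ht_padic (p : Nat.Primes) (m : ℕ) (hm : 1 ≤ m) (f : ℤ[X])
    (hmN : m ∣ f.natDegree) (hN : 4 ≤ f.natDegree) (hd : f.discr ≠ 0) (g : ℚ[X])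
    (hg : g ∣ f.map (Int.castRingHom ℚ)) :
    ((HtL m f g p : ℝ) : EReal) ≤ padic p m f g := by
  have : Fact (p : ℕ).Prime := ⟨p.2⟩
  rw [HtL, padic, Ht_coe_sum, Multiset.map_map]
  exact Multiset.sum_map_le_sum_map _ _ fun α hα =>
    ell_le p m hm f hmN hN hd α (Ht_root p f g hg α hα)

theorem Ht_nonneg (p : Nat.Primes) (m : ℕ) (hm : 1 ≤ m) (f : ℤ[X])
    (hN : 4 ≤ f.natDegree) (hp : ¬ ((p : ℕ) : ℤ) ∣ f.leadingCoeff * f.discr) (g : ℚ[X])
    (hg : g ∣ f.map (Int.castRingHom ℚ)) :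
    0 ≤ HtL m f g p := by
  have : Fact (p : ℕ).Prime := ⟨p.2⟩
  rw [HtL]
  refine Multiset.sum_nonneg fun x hx => ?_
  obtain ⟨α, hα, rfl⟩ := Multiset.mem_map.1 hx
  exact ell_zero p m hm f hN hp α (Ht_root p f g hg α hα)

theorem Ht_deg_le (m : ℕ) (hm : 1 ≤ m) (f : ℤ[X])
    (hmN : m ∣ f.natDegree) (hN : 4 ≤ f.natDegree) (hd : f.discr ≠ 0)
    (e : (j : ℕ) → Fin (f.natDegree * j / m - 1) → ℂ[X]) (P : Finset Nat.Primes)
    (hP : ∀ p : Nat.Primes, ((p : ℕ) : ℤ) ∣ f.leadingCoeff * f.discr → p ∈ P) (g : ℚ[X])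
    (hg : g ∣ f.map (Int.castRingHom ℚ)) :
    degHeight m f g e ≤ ((((g.map (algebraMap ℚ ℂ)).roots.map (arch m f e)).sum -
      ∑ p ∈ P, HtL m f g p : ℝ) : EReal) := by
  have h1 : ((∑ p ∈ P, HtL m f g p : ℝ) : EReal) ≤
      Filter.liminf (fun P : Finset Nat.Primes => ∑ p ∈ P, padic p m f g) Filter.atTop := by
    refine Filter.le_liminf_of_le (by isBoundedDefault) ?_
    filter_upwards [Filter.eventually_ge_atTop P] with P' hP'
    calc ((∑ p ∈ P, HtL m f g p : ℝ) : EReal)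
        ≤ ((∑ p ∈ P', HtL m f g p : ℝ) : EReal) := by
          rw [EReal.coe_le_coe_iff]
          refine Finset.sum_le_sum_of_subset_of_nonneg hP' fun p _ hp => ?_
          exact Ht_nonneg p m hm f hN (fun h => hp (hP p h)) g hg
      _ = ∑ p ∈ P', ((HtL m f g p : ℝ) : EReal) := by
          exact Ht_coe_fsum _ _
      _ ≤ ∑ p ∈ P', padic p m f g :=
          Finset.sum_le_sum fun p _ => Ht_padic p m hm f hmN hN hd g hg
  rw [degHeight, EReal.coe_sub]
  exact EReal.sub_le_sub le_rfl h1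

theorem exists_factor (m N : ℕ) (hm : 1 ≤ m) (f : ℤ[X]) (hfN : f.natDegree = N) (hmN : m ∣ N)
    (hN : 4 ≤ N) (hd : f.discr ≠ 0) (e : (j : ℕ) → Fin (f.natDegree * j / m - 1) → ℂ[X]) (B : ℝ)
    (hB : ((cpx f).roots.map (arch m f e)).sum + (1 / (m : ℝ)) *
      (2 * Real.log |(f.discr : ℝ)| - N * Real.log |(f.leadingCoeff : ℝ)|) ≤ N * B) :
    ∃ g : ℚ[X], Irreducible g ∧ g ∣ f.map (Int.castRingHom ℚ) ∧
      degHeight m f g e ≤ ((g.natDegree * B : ℝ) : EReal) := by
  classical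
  subst hfN
  by_contra hcon
  push Not at hcon
  set F : ℚ[X] := f.map (Int.castRingHom ℚ) with hFdef
  have hf0 : f ≠ 0 := by
    rintro rfl
    simp at hN
  have hlc : f.leadingCoeff ≠ 0 := Polynomial.leadingCoeff_ne_zero.2 hf0
  have hF0 : F ≠ 0 := by
    rw [hFdef, Ne, Polynomial.map_eq_zero_iff]
    · exact hf0
    · exact Int.cast_injective
  have hFdeg : F.natDegree = f.natDegree := by
    rw [hFdef]
    exact Polynomial.natDegree_map_eq_of_injective Int.cast_injective f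
  set S := UniqueFactorizationMonoid.normalizedFactors F with hS
  -- the set of primes
  set n : ℤ := f.leadingCoeff * f.discr with hn
  have hn0 : n ≠ 0 := mul_ne_zero hlc hd
  obtain ⟨P, hP⟩ : ∃ P : Finset Nat.Primes, ∀ p : Nat.Primes, ((p : ℕ) : ℤ) ∣ n → p ∈ P := by
    have hfin : {p : Nat.Primes | ((p : ℕ) : ℤ) ∣ n}.Finite := by
      have h2 : ((fun p : Nat.Primes => (p : ℕ)) '' {p : Nat.Primes | ((p : ℕ) : ℤ) ∣ n}).Finite := by
        refine (Set.finite_Iic n.natAbs).subset ?_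
        rintro _ ⟨p, hp, rfl⟩
        rw [Set.mem_Iic]
        exact Nat.le_of_dvd (Int.natAbs_pos.2 hn0) (Int.natCast_dvd.1 hp)
      exact h2.of_finite_image (fun a _ b _ h => Subtype.ext h)
    refine ⟨hfin.toFinset, fun p hp => ?_⟩
    rw [Set.Finite.mem_toFinset]
    exact hp
  -- the sum over the factors
  have hA : (S.map (fun g => ((g.map (algebraMap ℚ ℂ)).roots.map (arch m f e)).sum)).sum =
      ((cpx f).roots.map (arch m f e)).sum := by
    rw [Ht_cpx, Ht_roots ℂ F hF0, Multiset.map_bind, Multiset.sum_bind]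
  have hL : ∀ p : Nat.Primes, (S.map (fun g => HtL m f g p)).sum =
      (haveI : Fact (p : ℕ).Prime := ⟨p.2⟩; ((fp p f).roots.map (ell p m f)).sum) := by
    intro p
    have : Fact (p : ℕ).Prime := ⟨p.2⟩
    show _ = ((fp p f).roots.map (ell p m f)).sum
    rw [Ht_fp, Ht_roots ℂ_[p] F hF0, Multiset.map_bind, Multiset.sum_bind]
    rfl
  have hL2 : ∑ p ∈ P, (S.map (fun g => HtL m f g p)).sum ≥ (1 / (m : ℝ)) *
      (f.natDegree * Real.log |(f.leadingCoeff : ℝ)| - 2 * Real.log |(f.discr : ℝ)|) := by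
    have h1 : ∑ p ∈ P, (haveI : Fact (p : ℕ).Prime := ⟨p.2⟩; (1 / (m : ℝ)) *
        (2 * Real.log ‖(f.discr : ℂ_[p])‖ - f.natDegree * Real.log ‖(f.leadingCoeff : ℂ_[p])‖)) ≤
        ∑ p ∈ P, (S.map (fun g => HtL m f g p)).sum := by
      refine Finset.sum_le_sum fun p _ => ?_
      rw [hL p]
      have : Fact (p : ℕ).Prime := ⟨p.2⟩
      exact sum_ell p m hm f hN hd
    have h2 := prod_formula f.discr hd P (fun p hp => hP p (hp.mul_left _))
    have h3 := prod_formula f.leadingCoeff hlc P (fun p hp => hP p (hp.mul_right _))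
    rw [← Finset.mul_sum, Finset.sum_sub_distrib, ← Finset.mul_sum, ← Finset.mul_sum, h2, h3] at h1
    linarith
  -- each factor
  have hfac : ∀ g ∈ S, (g.natDegree : ℝ) * B <
      ((g.map (algebraMap ℚ ℂ)).roots.map (arch m f e)).sum - ∑ p ∈ P, HtL m f g p := by
    intro g hg
    have hg1 : Irreducible g := UniqueFactorizationMonoid.irreducible_of_normalized_factor g hg
    have hg2 : g ∣ F := UniqueFactorizationMonoid.dvd_of_mem_normalizedFactors hg
    have h1 := hcon g hg1 hg2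
    have h2 := Ht_deg_le m hm f hmN hN hd e P hP g hg2
    exact EReal.coe_lt_coe_iff.1 (lt_of_lt_of_le h1 h2)
  have hSne : S ≠ ∅ := by
    intro hS0
    have h1 := Ht_deg F hF0
    rw [← hS, hS0] at h1
    simp only [Multiset.empty_eq_zero, Multiset.map_zero, Multiset.sum_zero] at h1
    omega
  have hsum : (S.map (fun g => (g.natDegree : ℝ) * B)).sum <
      (S.map (fun g => ((g.map (algebraMap ℚ ℂ)).roots.map (arch m f e)).sum -
        ∑ p ∈ P, HtL m f g p)).sum :=
    Multiset.sum_lt_sum_of_nonempty hSne hfac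
  have h5 : (S.map (fun g => (g.natDegree : ℝ) * B)).sum = f.natDegree * B := by
    rw [Multiset.sum_map_mul_right]
    congr 1
    have h6 := Ht_deg F hF0
    rw [← hFdeg, ← h6, ← hS]
    rw [Nat.cast_multiset_sum, Multiset.map_map]
    rfl
  have h7 : (S.map (fun g => ((g.map (algebraMap ℚ ℂ)).roots.map (arch m f e)).sum -
        ∑ p ∈ P, HtL m f g p)).sum =
      ((cpx f).roots.map (arch m f e)).sum - ∑ p ∈ P, (S.map (fun g => HtL m f g p)).sum := by
    rw [Multiset.sum_map_sub, hA]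
    congr 1
    exact Multiset.sum_map_sum_map S P.val
  rw [h5, h7] at hsum
  linarith

end SzBF
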