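import Pool.Agent.SzBF.DiscL
import Pool.Agent.SzSP.Onb

/-!
Existence of orthonormal bases.
-/

open Polynomial MeasureTheory

namespace SzBF

/-- the weight as a product over the roots -/
theorem wt_eq (m : ℕ) (f : ℤ[X]) (hN : 1 ≤ f.natDegree) (hd : f.discr ≠ 0) (j : ℕ) (z : ℂ) :
    wt m f j z = ‖(f.leadingCoeff : ℂ)‖ ^ (-(2 * (j : ℝ) / m)) *
      (∏ α ∈ rts f, ‖z - α‖) ^ (-(2 * (j : ℝ) / m)) := by
  unfold wt
  rw [eval_eq_prod f hN hd z, norm_mul, norm_prod,
    Real.mul_rpow (norm_nonneg _) (Finset.prod_nonneg fun _ _ => norm_nonneg _)]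

theorem onb_lc_ne (f : ℤ[X]) (hN : 1 ≤ f.natDegree) : (f.leadingCoeff : ℂ) ≠ 0 := by
  have h : f ≠ 0 := by
    rintro rfl
    simp at hN
  exact_mod_cast leadingCoeff_ne_zero.2 h

theorem integrable_wt (m : ℕ) (hm : 2 ≤ m) (f : ℤ[X]) (hN : 1 ≤ f.natDegree) (hd : f.discr ≠ 0)
    (j : ℕ) (hj : j ∈ Finset.Ico 1 m) (i : ℕ) (hi : i < f.natDegree * j / m - 1) :
    Integrable (fun z : ℂ => ‖z‖ ^ (2 * i) * wt m f j z) := by
  rw [Finset.mem_Ico] at hj
  have hS := card_rts f hN hd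
  have hSn : (rts f).Nonempty := by
    rw [← Finset.card_pos, hS]
    omega
  have hmr : (0 : ℝ) < m := by exact_mod_cast (by omega : 0 < m)
  have hjr : (1 : ℝ) ≤ j := by exact_mod_cast hj.1
  have hs : 0 < 2 * (j : ℝ) / m := by positivity
  have hs2 : 2 * (j : ℝ) / m < 2 := by
    rw [div_lt_iff₀ hmr]
    have : (j : ℝ) < m := by exact_mod_cast hj.2
    linarith
  have hr : (2 : ℝ) < (rts f).card * (2 * (j : ℝ) / m) - 2 * i := by
    have h0 : i + 2 ≤ f.natDegree * j / m := by omega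
    have h1 : (i + 2) * m ≤ f.natDegree * j := (Nat.le_div_iff_mul_le (by omega)).1 h0
    have h4 : ((i : ℝ) + 2) * m ≤ f.natDegree * j := by exact_mod_cast h1
    rw [hS]
    have h5 : (f.natDegree : ℝ) * (2 * (j : ℝ) / m) = 2 * ((f.natDegree * j) / m) := by ring
    rw [h5]
    have h6 : (i : ℝ) + 2 ≤ (f.natDegree * j) / m := by
      rw [le_div_iff₀ hmr]
      exact h4
    linarith
  have h := (SzSP.onb_int (rts f) hSn _ hs hs2 i hr).const_mul
    (‖(f.leadingCoeff : ℂ)‖ ^ (-(2 * (j : ℝ) / m)))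
  refine h.congr (Filter.Eventually.of_forall fun z => ?_)
  simp only
  rw [wt_eq m f hN hd]
  ring

theorem exists_onb (m : ℕ) (hm : 2 ≤ m) (f : ℤ[X]) (hN : 1 ≤ f.natDegree) (hd : f.discr ≠ 0) :
    ∃ e, IsONB m f e := by
  classical
  have hmr : (0 : ℝ) < m := by exact_mod_cast (by omega : 0 < m)
  have key : ∀ j ∈ Finset.Ico 1 m, ∃ e : Fin (f.natDegree * j / m - 1) → ℂ[X],
      (∀ k, (e k).degree < (f.natDegree * j / m - 1 : ℕ)) ∧
      ∀ k l, ((m : ℝ) : ℂ) * ∫ z : ℂ, (e k).eval z * (starRingEnd ℂ) ((e l).eval z) * (wt m f j z : ℂ) =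
        if k = l then 1 else 0 := by
    intro j hj
    refine SzSP.onb_one _ (m : ℝ) hmr (wt m f j) (fun z => ?_) ?_ (rts f) (fun z hz => ?_)
      fun i hi => ?_
    · unfold wt
      positivity
    · unfold wt
      exact ((cpx f).continuous.norm.measurable).pow_const _
    · unfold wt
      refine Real.rpow_pos_of_pos (norm_pos_iff.2 ?_) _
      rw [eval_eq_prod f hN hd z]
      refine mul_ne_zero (onb_lc_ne f hN) (Finset.prod_ne_zero_iff.2 fun α hα => ?_)
      rw [sub_ne_zero]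
      rintro rfl
      exact hz hα
    · exact integrable_wt m hm f hN hd j hj i hi
  refine ⟨fun j => if h : j ∈ Finset.Ico 1 m then (key j h).choose else 0, fun j hj => ?_⟩
  simp only [hj, dif_pos]
  have h1 := (key j hj).choose_spec
  refine ⟨h1.1, fun k l => ?_⟩
  have h2 := h1.2 k l
  push_cast at h2
  exact h2

end SzBF
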