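import Pool.Agent.SzBF.ArchS
import Pool.Agent.SzBF.Ht
import Pool.Agent.SzBF.Onb

/-!
The bound of the height in terms of the height of the equation and the discriminant.
-/

open Polynomial

namespace SzBF

/-- the bound -/
noncomputable def BB (m : ℕ) (f : ℤ[X]) (H : ℝ) : ℝ :=
  (1 / ((m : ℝ) * f.natDegree)) * (f.natDegree * Real.log 2 + 2 * (-Real.log (QQ f.natDegree H) +
    m * Real.log (24 * m * (f.natDegree : ℝ) ^ 6) + (2 * m - 1) * Real.log (EE f H)) +
    Real.log |(f.discr : ℝ)|)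

theorem small_of (m N : ℕ) (hmN : m ∣ N) (hg : 2 ≤ genus m N) (f : ℤ[X]) (hfN : f.natDegree = N)
    (hd : f.discr ≠ 0) (H : ℝ) (hH1 : 1 ≤ H) (hH : ∀ i, |(f.coeff i : ℝ)| ≤ H) :
    SmallPoint m N f (BB m f H) := by
  subst hfN
  obtain ⟨hm, hN⟩ := four_le m _ hmN hg
  refine ⟨rfl, hd, exists_onb m hm f (by omega) hd, ?_⟩
  intro e he
  have D : Data m f e H := ⟨hm, hmN, hN, hd, he, hH1, hH⟩
  apply exists_factor m _ (by omega) f rfl hmN hN hd e
  have h1 := arch_sum_le D
  have hm0 : (m : ℝ) ≠ 0 := by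
    have : (0 : ℝ) < m := by exact_mod_cast (by omega : 0 < m)
    exact this.ne'
  have hN0 : (f.natDegree : ℝ) ≠ 0 := by
    have : (0 : ℝ) < f.natDegree := by exact_mod_cast (by omega : 0 < f.natDegree)
    exact this.ne'
  have h2 : (f.natDegree : ℝ) * BB m f H = (1 / (m : ℝ)) *
      (f.natDegree * Real.log 2 + 2 * (-Real.log (QQ f.natDegree H) +
        m * Real.log (24 * m * (f.natDegree : ℝ) ^ 6) + (2 * m - 1) * Real.log (EE f H)) +
        Real.log |(f.discr : ℝ)|) := by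
    unfold BB
    field_simp
  rw [h2]
  refine le_trans (add_le_add_left h1 _) (le_of_eq ?_)
  ring

theorem small_mono (m N : ℕ) (f : ℤ[X]) (B B' : ℝ) (h : B ≤ B') (hs : SmallPoint m N f B) :
    SmallPoint m N f B' := by
  obtain ⟨h1, h2, h3, h4⟩ := hs
  refine ⟨h1, h2, h3, ?_⟩
  intro e he
  obtain ⟨g, hg1, hg2, hg3⟩ := h4 e he
  refine ⟨g, hg1, hg2, hg3.trans ?_⟩
  exact_mod_cast mul_le_mul_of_nonneg_left h (Nat.cast_nonneg _)

/-- the constants -/
theorem Det_cst (m N : ℝ) (hm : 2 ≤ m) (hN : 4 ≤ N) :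
    (1 / (m * N)) * (N * Real.log 2 - 2 * Real.log (N + 1) + 2 * m * Real.log (24 * m * N ^ 6) +
      (4 * m - 2) * ((N - 1) * Real.log N + (2 * N - 2) * Real.log (N + 1))) ≤
      25 * Real.log (m * N) := by
  have hm0 : 0 < m := by linarith
  have hN0 : 0 < N := by linarith
  have hlm : Real.log 2 ≤ Real.log m := Real.log_le_log (by norm_num) hm
  have hl2 : Real.log 2 < 0.6931471808 := Real.log_two_lt_d9
  have hl2' : 0.6931471803 < Real.log 2 := Real.log_two_gt_d9
  have hlN : 2 * Real.log 2 ≤ Real.log N := by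
    have h1 : Real.log 4 ≤ Real.log N := Real.log_le_log (by norm_num) hN
    have h2 : Real.log 4 = 2 * Real.log 2 := by
      rw [show (4 : ℝ) = 2 ^ 2 by norm_num, Real.log_pow]
      norm_num
    linarith
  have hl24 : Real.log 24 ≤ 5 * Real.log 2 := by
    have h1 : Real.log 24 ≤ Real.log (2 ^ 5) := Real.log_le_log (by norm_num) (by norm_num)
    rw [Real.log_pow] at h1
    push_cast at h1
    exact h1
  have hlN1 : Real.log (N + 1) ≤ Real.log N + 1 / 4 := by
    have h1 : Real.log (N + 1) = Real.log N + Real.log (1 + 1 / N) := by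
      rw [← Real.log_mul (by positivity) (by positivity)]
      congr 1
      field_simp
    have h2 : Real.log (1 + 1 / N) ≤ 1 / N := by
      have := Real.log_le_sub_one_of_pos (show 0 < 1 + 1 / N by positivity)
      linarith
    have h3 : 1 / N ≤ 1 / 4 := one_div_le_one_div_of_le (by norm_num) hN
    linarith
  have hlN1' : 0 ≤ Real.log (N + 1) := Real.log_nonneg (by linarith)
  have e1 : Real.log (24 * m * N ^ 6) = Real.log 24 + Real.log m + 6 * Real.log N := by
    rw [Real.log_mul (by positivity) (by positivity), Real.log_mul (by norm_num) (by positivity),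
      Real.log_pow]
    push_cast
    ring
  have e2 : Real.log (m * N) = Real.log m + Real.log N :=
    Real.log_mul (by positivity) (by positivity)
  rw [e1, e2]
  rw [div_mul_eq_mul_div, one_mul, div_le_iff₀ (by positivity)]
  set a := Real.log m
  set b := Real.log N
  set c := Real.log (N + 1)
  set t := Real.log 2
  have hb : 0 ≤ b := by linarith
  have ha : 0 ≤ a := by linarith
  -- termwise
  have f1 : N * t ≤ (m * N) * (t / 2) := by nlinarith [mul_nonneg hN0.le (by linarith : (0 : ℝ) ≤ t)]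
  have f2 : 2 * m * (Real.log 24 + a + 6 * b) ≤ (m * N) * ((5 * t + a + 6 * b) / 2) := by
    have g1 : 2 * m * (Real.log 24 + a + 6 * b) ≤ 2 * m * (5 * t + a + 6 * b) := by
      apply mul_le_mul_of_nonneg_left _ (by positivity)
      linarith
    have g2 : 0 ≤ 5 * t + a + 6 * b := by linarith
    have g3 : 2 * m ≤ m * N / 2 := by nlinarith
    have g4 := mul_le_mul_of_nonneg_right g3 g2
    linarith
  have f3 : (4 * m - 2) * ((N - 1) * b) ≤ (m * N) * (4 * b) := by
    have g1 : (4 * m - 2) * (N - 1) ≤ 4 * (m * N) := by nlinarith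
    have g2 := mul_le_mul_of_nonneg_right g1 hb
    linarith
  have f4 : (4 * m - 2) * ((2 * N - 2) * c) ≤ (m * N) * (8 * (b + 1 / 4)) := by
    have g1 : (4 * m - 2) * (2 * N - 2) ≤ 8 * (m * N) := by nlinarith
    have g2 := mul_le_mul_of_nonneg_right g1 hlN1'
    have g3 : 8 * (m * N) * c ≤ 8 * (m * N) * (b + 1 / 4) :=
      mul_le_mul_of_nonneg_left hlN1 (by positivity)
    linarith
  have f5 : t / 2 + (5 * t + a + 6 * b) / 2 + 4 * b + 8 * (b + 1 / 4) ≤ 25 * (a + b) := by
    linarith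
  have f6 := mul_le_mul_of_nonneg_left f5 (show 0 ≤ m * N by positivity)
  have f7 : (m * N) * (t / 2 + (5 * t + a + 6 * b) / 2 + 4 * b + 8 * (b + 1 / 4)) =
    (m * N) * (t / 2) + (m * N) * ((5 * t + a + 6 * b) / 2) + (m * N) * (4 * b) +
      (m * N) * (8 * (b + 1 / 4)) := by ring
  rw [f7] at f6
  linarith

/-- the bound, expanded -/
theorem Det_BB (m : ℕ) (f : ℤ[X]) (hm : 2 ≤ m) (hN : 4 ≤ f.natDegree) (hd : f.discr ≠ 0) (H : ℝ)
    (hH1 : 1 ≤ H) : BB m f H ≤ (1 / ((m : ℝ) * f.natDegree)) *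
      ((-2 + (4 * m - 2) * (2 * f.natDegree - 2)) * Real.log H -
        (4 * m - 3) * Real.log |(f.discr : ℝ)|) + 25 * Real.log (m * f.natDegree) := by
  have hm' : (2 : ℝ) ≤ m := by exact_mod_cast hm
  have hN' : (4 : ℝ) ≤ f.natDegree := by exact_mod_cast hN
  have hd' : |(f.discr : ℝ)| ≠ 0 := by
    rw [abs_ne_zero]
    exact_mod_cast hd
  have hH0 : H ≠ 0 := by
    have : 0 < H := by linarith
    exact this.ne'
  have h1 : Real.log (QQ f.natDegree H) = Real.log ((f.natDegree : ℝ) + 1) + Real.log H := by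
    unfold QQ
    exact Real.log_mul (by positivity) hH0
  have hQ0 : QQ f.natDegree H ≠ 0 := by
    unfold QQ
    exact mul_ne_zero (by positivity) hH0
  have hN0 : (f.natDegree : ℝ) ≠ 0 := by positivity
  have h2 : Real.log (EE f H) = ((f.natDegree : ℝ) - 1) * Real.log f.natDegree +
      (2 * f.natDegree - 2) * (Real.log ((f.natDegree : ℝ) + 1) + Real.log H) -
      Real.log |(f.discr : ℝ)| := by
    unfold EE
    rw [Real.log_div (mul_ne_zero (pow_ne_zero _ hN0) (pow_ne_zero _ hQ0)) hd',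
      Real.log_mul (pow_ne_zero _ hN0) (pow_ne_zero _ hQ0), Real.log_pow, Real.log_pow, h1]
    rw [Nat.cast_sub (by omega), Nat.cast_sub (by omega)]
    push_cast
    ring
  have h3 := Det_cst m f.natDegree hm' hN'
  unfold BB
  rw [h1, h2]
  refine le_trans (le_of_eq ?_) (add_le_add_right h3 _)
  ring

/-- numerics -/
theorem BB_le (m : ℕ) (f : ℤ[X]) (hm : 2 ≤ m) (hN : 4 ≤ f.natDegree) (hd : f.discr ≠ 0) (H : ℝ)
    (hH1 : 1 ≤ H) : BB m f H ≤ 8 * Real.log H + 25 * Real.log (m * f.natDegree) := by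
  have hm' : (2 : ℝ) ≤ m := by exact_mod_cast hm
  have hN' : (4 : ℝ) ≤ f.natDegree := by exact_mod_cast hN
  refine (Det_BB m f hm hN hd H hH1).trans ?_
  refine add_le_add_left ?_ _
  have hD : 0 ≤ Real.log |(f.discr : ℝ)| := by
    apply Real.log_nonneg
    exact_mod_cast Int.one_le_abs hd
  have hL : 0 ≤ Real.log H := Real.log_nonneg hH1
  rw [div_mul_eq_mul_div, one_mul, div_le_iff₀ (by positivity)]
  have h1 : 0 ≤ (4 * (m : ℝ) - 3) * Real.log |(f.discr : ℝ)| := mul_nonneg (by linarith) hD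
  have h2 : (-2 + (4 * (m : ℝ) - 2) * (2 * f.natDegree - 2)) * Real.log H ≤
      (8 * ((m : ℝ) * f.natDegree)) * Real.log H := by
    apply mul_le_mul_of_nonneg_right _ hL
    nlinarith
  linarith

theorem BB_le' (m : ℕ) (f : ℤ[X]) (hm : 2 ≤ m) (hN : 4 ≤ f.natDegree) (hd : f.discr ≠ 0) (H : ℝ)
    (hH1 : 1 ≤ H) (ε : ℝ) (hε : 0 ≤ ε)
    (h : (2 * (f.natDegree : ℝ) - 2 - ε) * Real.log H ≤ Real.log |(f.discr : ℝ)|) :
    BB m f H ≤ ((2 * f.natDegree - 4 + (4 * m - 3) * ε) / (m * f.natDegree)) * Real.log H +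
      25 * Real.log (m * f.natDegree) := by
  have hm' : (2 : ℝ) ≤ m := by exact_mod_cast hm
  have hN' : (4 : ℝ) ≤ f.natDegree := by exact_mod_cast hN
  refine (Det_BB m f hm hN hd H hH1).trans ?_
  refine add_le_add_left ?_ _
  rw [div_mul_eq_mul_div, one_mul, div_mul_eq_mul_div]
  apply div_le_div_of_nonneg_right _ (by positivity)
  have h1 := mul_le_mul_of_nonneg_left h (show 0 ≤ 4 * (m : ℝ) - 3 by linarith)
  nlinarith

end SzBF
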