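import Pool.Agent.SzBF.Mx

/-!
Integrals of the powers of `1 / distance`.
-/

open Polynomial MeasureTheory

namespace SzBF

private lemma gint_ball : (volume : Measure ℂ).real (Metric.ball 0 1) = Real.pi := by
  rw [Measure.real, Complex.volume_ball]
  simp

private lemma gint_one (s : ℝ) (hs : s < 2) :
    IntegrableOn (fun y : ℝ => y ^ (2 - 1) • (max 1 y) ^ (s - 4)) (Set.Ioi 0) ∧
      ∫ y in Set.Ioi (0 : ℝ), y ^ (2 - 1) • (max 1 y) ^ (s - 4) = 1 / 2 + 1 / (2 - s) := by
  have hu : Set.Ioi (0 : ℝ) = Set.Ioc 0 1 ∪ Set.Ioi 1 :=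
    (Set.Ioc_union_Ioi_eq_Ioi zero_le_one).symm
  have hd : Disjoint (Set.Ioc (0 : ℝ) 1) (Set.Ioi 1) := by
    rw [Set.disjoint_left]
    intro y h1 h2
    exact absurd h1.2 (not_le.mpr h2)
  have e1 : ∀ y ∈ Set.Ioc (0 : ℝ) 1, y ^ (2 - 1) • (max 1 y) ^ (s - 4) = y := by
    intro y hy
    rw [max_eq_left hy.2, Real.one_rpow]
    simp
  have e2 : ∀ y ∈ Set.Ioi (1 : ℝ), y ^ (2 - 1) • (max 1 y) ^ (s - 4) = y ^ (s - 3) := by
    intro y hy
    have hy1 : (1 : ℝ) < y := hy
    have hy0 : 0 < y := by linarith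
    rw [max_eq_right hy1.le, smul_eq_mul]
    have : s - 3 = 1 + (s - 4) := by ring
    rw [this, Real.rpow_add hy0, Real.rpow_one]
    norm_num
  have i1 : IntegrableOn (fun y : ℝ => y) (Set.Ioc 0 1) :=
    (intervalIntegral.intervalIntegrable_id (μ := volume) (a := (0:ℝ)) (b := 1)).1
  have i2 : IntegrableOn (fun y : ℝ => y ^ (s - 3)) (Set.Ioi 1) :=
    integrableOn_Ioi_rpow_of_lt (by linarith) zero_lt_one
  have j1 : IntegrableOn (fun y : ℝ => y ^ (2 - 1) • (max 1 y) ^ (s - 4)) (Set.Ioc 0 1) :=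
    (integrableOn_congr_fun e1 measurableSet_Ioc).2 i1
  have j2 : IntegrableOn (fun y : ℝ => y ^ (2 - 1) • (max 1 y) ^ (s - 4)) (Set.Ioi 1) :=
    (integrableOn_congr_fun e2 measurableSet_Ioi).2 i2
  constructor
  · rw [hu]
    exact j1.union j2
  · rw [hu, setIntegral_union hd measurableSet_Ioi j1 j2,
      setIntegral_congr_fun measurableSet_Ioc e1, setIntegral_congr_fun measurableSet_Ioi e2,
      integral_Ioi_rpow_of_lt (by linarith) zero_lt_one,
      ← intervalIntegral.integral_of_le zero_le_one, integral_id, Real.one_rpow]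
    have h1 : (2 - s) ≠ 0 := by linarith
    have h2 : s - 3 + 1 ≠ 0 := by intro h; apply h1; linarith
    field_simp
    ring

theorem mx_int (s : ℝ) (hs : s < 2) :
    Integrable (fun z : ℂ => mx z ^ (s - 4)) ∧
      ∫ z : ℂ, mx z ^ (s - 4) = Real.pi + 2 * Real.pi / (2 - s) := by
  obtain ⟨h1, h2⟩ := gint_one s hs
  constructor
  · have := (integrable_fun_norm_addHaar (volume : Measure ℂ)
      (f := fun y : ℝ => (max 1 y) ^ (s - 4))).2 (by
        rw [Complex.finrank_real_complex]; exact h1)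
    exact this
  · have := integral_fun_norm_addHaar (volume : Measure ℂ) (fun y : ℝ => (max 1 y) ^ (s - 4))
    rw [Complex.finrank_real_complex, h2, gint_ball] at this
    unfold mx
    rw [this]
    simp only [nsmul_eq_mul, smul_eq_mul]
    push_cast
    ring

private lemma gint_two (b : ℝ) (hb : b < 2) (r : ℝ) (hr : 0 ≤ r) :
    IntegrableOn (fun y : ℝ => y ^ (2 - 1) • (if y ≤ r then y ^ (-b) else 0)) (Set.Ioi 0) ∧
      ∫ y in Set.Ioi (0 : ℝ), y ^ (2 - 1) • (if y ≤ r then y ^ (-b) else 0)
        = r ^ (2 - b) / (2 - b) := by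
  have h2 : ∀ y ∈ Set.Ioi (0 : ℝ), y ^ (2 - 1) • (if y ≤ r then y ^ (-b) else 0) =
      (Set.Iic r).indicator (fun y : ℝ => y ^ (1 - b)) y := by
    intro y hy
    have hy' : 0 < y := hy
    by_cases h : y ≤ r
    · rw [if_pos h, Set.indicator_of_mem (show y ∈ Set.Iic r from h), smul_eq_mul]
      have : (1 : ℝ) - b = 1 + -b := by ring
      rw [this, Real.rpow_add hy', Real.rpow_one]
      norm_num
    · rw [if_neg h, Set.indicator_of_notMem (show y ∉ Set.Iic r from h), smul_zero]
  have h3 : Set.Iic r ∩ Set.Ioi (0 : ℝ) = Set.Ioc 0 r := by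
    ext y
    simp only [Set.mem_inter_iff, Set.mem_Iic, Set.mem_Ioi, Set.mem_Ioc]
    tauto
  constructor
  · refine (integrableOn_congr_fun h2 measurableSet_Ioi).2 ?_
    rw [integrableOn_indicator_iff measurableSet_Iic, h3]
    exact (intervalIntegral.intervalIntegrable_rpow' (by linarith)).1
  · rw [setIntegral_congr_fun measurableSet_Ioi h2, setIntegral_indicator measurableSet_Iic,
      Set.inter_comm, h3, ← intervalIntegral.integral_of_le hr,
      integral_rpow (Or.inl (by linarith))]
    have e : 1 - b + 1 = 2 - b := by ring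
    rw [e, Real.zero_rpow (by linarith), sub_zero]

/-- the integral over the disc of radius `r` around `α` -/
theorem disc_int (b : ℝ) (hb0 : 0 ≤ b) (hb : b < 2) (r : ℝ) (hr : 0 ≤ r) (α : ℂ) :
    IntegrableOn (fun z : ℂ => ‖z - α‖ ^ (-b)) (Metric.closedBall α r) ∧
      ∫ z in Metric.closedBall α r, ‖z - α‖ ^ (-b) = 2 * Real.pi * r ^ (2 - b) / (2 - b) := by
  obtain ⟨h1, h2⟩ := gint_two b hb r hr
  have hind : (Metric.closedBall α r).indicator (fun z : ℂ => ‖z - α‖ ^ (-b)) =
      fun z : ℂ => (fun w : ℂ => (fun y : ℝ => if y ≤ r then y ^ (-b) else 0) ‖w‖) (z - α) := by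
    funext z
    by_cases h : z ∈ Metric.closedBall α r
    · rw [Set.indicator_of_mem h]
      rw [mem_closedBall_iff_norm] at h
      simp only
      rw [if_pos h]
    · rw [Set.indicator_of_notMem h]
      rw [mem_closedBall_iff_norm] at h
      simp only
      rw [if_neg h]
  have hi : Integrable (fun w : ℂ => (fun y : ℝ => if y ≤ r then y ^ (-b) else 0) ‖w‖) :=
    (integrable_fun_norm_addHaar (volume : Measure ℂ)
      (f := fun y : ℝ => if y ≤ r then y ^ (-b) else 0)).2 (by
        rw [Complex.finrank_real_complex]; exact h1)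
  constructor
  · rw [← integrable_indicator_iff measurableSet_closedBall, hind]
    exact hi.comp_sub_right α
  · rw [← integral_indicator measurableSet_closedBall, hind,
      integral_sub_right_eq_self
        (fun w : ℂ => (fun y : ℝ => if y ≤ r then y ^ (-b) else 0) ‖w‖) α]
    have := integral_fun_norm_addHaar (volume : Measure ℂ)
      (fun y : ℝ => if y ≤ r then y ^ (-b) else 0)
    rw [Complex.finrank_real_complex, h2, gint_ball] at this
    rw [this]
    simp only [nsmul_eq_mul, smul_eq_mul]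
    push_cast
    ring

private lemma gint_mx_pos (z : ℂ) : 0 < mx z := lt_of_lt_of_le one_pos (one_le_mx z)

private lemma gint_meas (α : ℂ) (a b : ℝ) :
    Measurable (fun z : ℂ => mx z ^ (a - 4) * G α z ^ b) := by
  have h1 : Measurable (fun z : ℂ => mx z) := measurable_const.max measurable_norm
  have h2 : Measurable (fun z : ℂ => G α z) := by
    unfold G
    exact (h1.const_mul _).div (measurable_id.sub_const α).norm
  exact (h1.pow_const _).mul (h2.pow_const _)

private lemma gint_bound (α : ℂ) (a b : ℝ) (ha : 0 ≤ a) (hb : 0 ≤ b) (hab : a + b < 2) (z : ℂ) :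
    mx z ^ (a - 4) * G α z ^ b ≤ 4 * mx z ^ (a + b - 4) +
      (Metric.closedBall α (mx α / 2)).indicator
        (fun z => (mx α ^ b * (mx α / 2) ^ (a + b - 4)) * ‖z - α‖ ^ (-b)) z := by
  have hA := gint_mx_pos α
  have hz := gint_mx_pos z
  have hA1 := one_le_mx α
  have hz1 := one_le_mx z
  by_cases h : z ∈ Metric.closedBall α (mx α / 2)
  · rw [Set.indicator_of_mem h]
    rw [mem_closedBall_iff_norm] at h
    have hmz : mx α / 2 ≤ mx z := by
      rcases le_total ‖α‖ 1 with h1 | h1
      · have : mx α = 1 := max_eq_left h1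
        rw [this]; linarith
      · have h2 : mx α = ‖α‖ := max_eq_right h1
        rw [h2] at h ⊢
        have h3 : ‖α‖ ≤ ‖z‖ + ‖z - α‖ := by
          have := norm_sub_le z (z - α)
          rwa [sub_sub_cancel] at this
        have := norm_le_mx z
        linarith
    have h0 : 0 ≤ 4 * mx z ^ (a + b - 4) := by positivity
    have hmain : mx z ^ (a - 4) * G α z ^ b ≤
        (mx α ^ b * (mx α / 2) ^ (a + b - 4)) * ‖z - α‖ ^ (-b) := by
      have e1 : G α z ^ b = mx α ^ b * mx z ^ b * ‖z - α‖ ^ (-b) := by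
        unfold G
        rw [Real.div_rpow (by positivity) (norm_nonneg _), Real.mul_rpow hA.le hz.le,
          Real.rpow_neg (norm_nonneg _), div_eq_mul_inv]
      have e2 : mx z ^ (a - 4) * (mx α ^ b * mx z ^ b * ‖z - α‖ ^ (-b)) =
          (mx α ^ b * mx z ^ (a + b - 4)) * ‖z - α‖ ^ (-b) := by
        have : a + b - 4 = (a - 4) + b := by ring
        rw [this, Real.rpow_add hz]
        ring
      rw [e1, e2]
      refine mul_le_mul_of_nonneg_right (mul_le_mul_of_nonneg_left ?_ (by positivity))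
        (by positivity)
      exact Real.rpow_le_rpow_of_nonpos (by positivity) hmz (by linarith)
    linarith
  · rw [Set.indicator_of_notMem h, add_zero]
    rw [mem_closedBall_iff_norm, not_le] at h
    have hpos : 0 < ‖z - α‖ := lt_trans (by positivity) h
    have hG : G α z ≤ 2 * mx z := by
      unfold G
      rw [div_le_iff₀ hpos]
      nlinarith
    have hG0 : 0 ≤ G α z := by unfold G; positivity
    calc mx z ^ (a - 4) * G α z ^ b ≤ mx z ^ (a - 4) * (2 * mx z) ^ b :=
          mul_le_mul_of_nonneg_left (Real.rpow_le_rpow hG0 hG hb) (by positivity)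
      _ = 2 ^ b * mx z ^ (a + b - 4) := by
          have : a + b - 4 = (a - 4) + b := by ring
          rw [Real.mul_rpow (by norm_num) hz.le, this, Real.rpow_add hz]
          ring
      _ ≤ 4 * mx z ^ (a + b - 4) := by
          refine mul_le_mul_of_nonneg_right ?_ (by positivity)
          calc (2 : ℝ) ^ b ≤ 2 ^ (2 : ℝ) :=
                Real.rpow_le_rpow_of_exponent_le (by norm_num) (by linarith)
            _ = 4 := by norm_num

theorem G_int (α : ℂ) (a b : ℝ) (ha : 0 ≤ a) (hb : 0 ≤ b) (hab : a + b < 2) :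
    Integrable (fun z : ℂ => mx z ^ (a - 4) * G α z ^ b) ∧
      ∫ z : ℂ, mx z ^ (a - 4) * G α z ^ b ≤ 24 * Real.pi / (2 - a - b) := by
  obtain ⟨m1, m2⟩ := mx_int (a + b) hab
  have hA := gint_mx_pos α
  have hA1 := one_le_mx α
  obtain ⟨d1, d2⟩ := disc_int b hb (by linarith) (mx α / 2) (by positivity) α
  set K : ℝ := mx α ^ b * (mx α / 2) ^ (a + b - 4) with hK
  have hi2 : Integrable ((Metric.closedBall α (mx α / 2)).indicator
      (fun z => K * ‖z - α‖ ^ (-b))) := by
    rw [integrable_indicator_iff measurableSet_closedBall]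
    exact d1.const_mul K
  have hF : Integrable (fun z : ℂ => 4 * mx z ^ (a + b - 4) +
      (Metric.closedBall α (mx α / 2)).indicator (fun z => K * ‖z - α‖ ^ (-b)) z) :=
    (m1.const_mul 4).add hi2
  have hb' := gint_bound α a b ha hb hab
  have hint : Integrable (fun z : ℂ => mx z ^ (a - 4) * G α z ^ b) := by
    refine hF.mono' (gint_meas α a b).aestronglyMeasurable (Filter.Eventually.of_forall fun z => ?_)
    have hz := gint_mx_pos z
    have hG0 : 0 ≤ G α z := by unfold G; positivity
    rw [Real.norm_of_nonneg (by positivity)]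
    exact hb' z
  refine ⟨hint, ?_⟩
  refine (integral_mono hint hF hb').trans ?_
  rw [integral_add (m1.const_mul 4) hi2, integral_const_mul, m2,
    integral_indicator measurableSet_closedBall, integral_const_mul, d2]
  have hpi := Real.pi_pos
  have hs : 0 < 2 - a - b := by linarith
  have hb2 : 0 < 2 - b := by linarith
  have e1 : K * (2 * Real.pi * (mx α / 2) ^ (2 - b) / (2 - b)) ≤ 8 * Real.pi / (2 - a - b) := by
    have e2 : K * (mx α / 2) ^ (2 - b) = mx α ^ b * (mx α / 2) ^ (a - 2) := by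
      rw [hK, mul_assoc, ← Real.rpow_add (by positivity)]
      congr 2
      ring
    have e3 : mx α ^ b * (mx α / 2) ^ (a - 2) ≤ 4 := by
      rw [Real.div_rpow hA.le (by norm_num), mul_div_assoc', ← Real.rpow_add hA,
        div_le_iff₀ (by positivity)]
      have h1 : mx α ^ (b + (a - 2)) ≤ 1 :=
        Real.rpow_le_one_of_one_le_of_nonpos hA1 (by linarith)
      have h2 : (1 : ℝ) ≤ 4 * 2 ^ (a - 2) := by
        have h3 : (2 : ℝ) ^ (-2 : ℝ) ≤ 2 ^ (a - 2) :=
          Real.rpow_le_rpow_of_exponent_le (by norm_num) (by linarith)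
        have h4 : (2 : ℝ) ^ (-2 : ℝ) = 1 / 4 := by
          rw [Real.rpow_neg (by norm_num)]; norm_num
        rw [h4] at h3
        linarith
      linarith
    calc K * (2 * Real.pi * (mx α / 2) ^ (2 - b) / (2 - b))
        = (2 * Real.pi / (2 - b)) * (K * (mx α / 2) ^ (2 - b)) := by ring
      _ = (2 * Real.pi / (2 - b)) * (mx α ^ b * (mx α / 2) ^ (a - 2)) := by rw [e2]
      _ ≤ (2 * Real.pi / (2 - b)) * 4 := mul_le_mul_of_nonneg_left e3 (by positivity)
      _ = 8 * Real.pi / (2 - b) := by ring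
      _ ≤ 8 * Real.pi / (2 - a - b) :=
          div_le_div_of_nonneg_left (by positivity) hs (by linarith)
  have e4 : 4 * Real.pi ≤ 8 * Real.pi / (2 - a - b) := by
    rw [le_div_iff₀ hs]
    nlinarith
  have e5 : 2 - (a + b) = 2 - a - b := by ring
  rw [e5]
  have e6 : 4 * (Real.pi + 2 * Real.pi / (2 - a - b)) = 4 * Real.pi + 8 * Real.pi / (2 - a - b) := by
    ring
  rw [e6]
  have e7 : 24 * Real.pi / (2 - a - b) =
      8 * Real.pi / (2 - a - b) + 8 * Real.pi / (2 - a - b) + 8 * Real.pi / (2 - a - b) := by ring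
  rw [e7]
  linarith

end SzBF
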