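import Mathlib

/-!
Formal inversion: the equation `v + q(v) = t^m` with `q` divisible by `X^2`.
-/

open Polynomial

namespace SzBF

section aux

variable {O : Type*} [CommRing O]

/-- The successive approximations. -/
private noncomputable def app (Q : (PowerSeries O)[X]) (m : ℕ) : ℕ → PowerSeries O
  | 0 => 0
  | n + 1 => PowerSeries.X ^ m - Q.eval (app Q m n)

private theorem eval_sub_dvd {A : Type*} [CommRing A] (r : A[X]) (x a b : A) (ha : x ∣ a)
    (hb : x ∣ b) : x * (a - b) ∣ (X ^ 2 * r).eval a - (X ^ 2 * r).eval b := by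
  obtain ⟨s, hs⟩ := Polynomial.sub_dvd_eval_sub a b r
  obtain ⟨a', rfl⟩ := ha
  obtain ⟨b', rfl⟩ := hb
  simp only [eval_mul, eval_pow, eval_X]
  have h : r.eval (x * a') = r.eval (x * b') + (x * a' - x * b') * s := by
    rw [← hs]
    ring
  rw [h]
  refine ⟨(a' + b') * r.eval (x * b') + x * a' ^ 2 * s, ?_⟩
  ring

private theorem app_dvd (r : (PowerSeries O)[X]) (m n : ℕ) :
    PowerSeries.X ^ m ∣ app (X ^ 2 * r) m n := by
  induction n with
  | zero => exact dvd_zero _
  | succ n ih =>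
    rw [app]
    refine dvd_sub dvd_rfl ?_
    simp only [eval_mul, eval_pow, eval_X]
    exact Dvd.dvd.mul_right (dvd_pow ih two_ne_zero) _

private theorem app_succ (r : (PowerSeries O)[X]) (m : ℕ) (hm : 1 ≤ m) (n : ℕ) :
    PowerSeries.X ^ (n + 1) ∣ app (X ^ 2 * r) m (n + 1) - app (X ^ 2 * r) m n := by
  have hX : ∀ k, (PowerSeries.X : PowerSeries O) ∣ app (X ^ 2 * r) m k := fun k =>
    (dvd_pow_self _ (by omega)).trans (app_dvd r m k)
  induction n with
  | zero =>
    have h0 : app (X ^ 2 * r) m (0 + 1) - app (X ^ 2 * r) m 0 = PowerSeries.X ^ m := by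
      simp [app]
    rw [h0, zero_add, pow_one]
    exact dvd_pow_self _ (by omega)
  | succ n ih =>
    have h1 : app (X ^ 2 * r) m (n + 1 + 1) - app (X ^ 2 * r) m (n + 1)
        = -((X ^ 2 * r).eval (app (X ^ 2 * r) m (n + 1))
          - (X ^ 2 * r).eval (app (X ^ 2 * r) m n)) := by
      rw [show app (X ^ 2 * r) m (n + 1 + 1)
        = PowerSeries.X ^ m - (X ^ 2 * r).eval (app (X ^ 2 * r) m (n + 1)) from rfl]
      conv_lhs => rw [show app (X ^ 2 * r) m (n + 1)
        = PowerSeries.X ^ m - (X ^ 2 * r).eval (app (X ^ 2 * r) m n) from rfl]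
      rw [show app (X ^ 2 * r) m (n + 1)
        = PowerSeries.X ^ m - (X ^ 2 * r).eval (app (X ^ 2 * r) m n) from rfl]
      ring
    rw [h1, dvd_neg, pow_succ']
    exact (mul_dvd_mul_left _ ih).trans (eval_sub_dvd r _ _ _ (hX _) (hX _))

private theorem app_le (r : (PowerSeries O)[X]) (m : ℕ) (hm : 1 ≤ m) {k n : ℕ} (h : k ≤ n) :
    PowerSeries.X ^ k ∣ app (X ^ 2 * r) m n - app (X ^ 2 * r) m k := by
  induction n, h using Nat.le_induction with
  | base => simp
  | succ n hn ih =>
    have h2 : PowerSeries.X ^ k ∣ app (X ^ 2 * r) m (n + 1) - app (X ^ 2 * r) m n :=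
      (pow_dvd_pow _ (by omega)).trans (app_succ r m hm n)
    have := dvd_add h2 ih
    rwa [sub_add_sub_cancel] at this

end aux

theorem exists_inv {O : Type*} [CommRing O] (q : O[X]) (hq : X ^ 2 ∣ q) (m : ℕ) (hm : 1 ≤ m) :
    ∃ v : PowerSeries O, PowerSeries.X ^ m ∣ v ∧
      v + q.eval₂ (PowerSeries.C) v = PowerSeries.X ^ m := by
  obtain ⟨r0, rfl⟩ := hq
  set r : (PowerSeries O)[X] := r0.map PowerSeries.C with hr
  have hQ : (X ^ 2 * r0).map (PowerSeries.C : O →+* PowerSeries O) = X ^ 2 * r := by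
    rw [Polynomial.map_mul, Polynomial.map_pow, map_X]
  set w : ℕ → PowerSeries O := app (X ^ 2 * r) m with hw
  set v : PowerSeries O := PowerSeries.mk fun k => PowerSeries.coeff k (w (k + 1)) with hv
  have hvn : ∀ n, PowerSeries.X ^ n ∣ v - w n := by
    intro n
    rw [PowerSeries.X_pow_dvd_iff]
    intro k hk
    rw [map_sub, hv, PowerSeries.coeff_mk]
    have h3 := app_le r m hm (k := k + 1) (n := n) (by omega)
    rw [PowerSeries.X_pow_dvd_iff] at h3
    have h4 := h3 k (by omega)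
    rw [map_sub, sub_eq_zero] at h4
    rw [hw, h4, sub_self]
  refine ⟨v, ?_, ?_⟩
  · have h5 := dvd_add (hvn m) (app_dvd r m m)
    rwa [← hw, sub_add_cancel] at h5
  · rw [← eval_map, hQ]
    have h6 : ∀ n, PowerSeries.X ^ n ∣ v + (X ^ 2 * r).eval v - PowerSeries.X ^ m := by
      intro n
      have h7 : (PowerSeries.X : PowerSeries O) ^ n ∣ v - w (n + 1) :=
        (pow_dvd_pow _ (Nat.le_succ n)).trans (hvn (n + 1))
      have h8 : (PowerSeries.X : PowerSeries O) ^ n ∣
          (X ^ 2 * r).eval v - (X ^ 2 * r).eval (w n) :=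
        (hvn n).trans (Polynomial.sub_dvd_eval_sub _ _ _)
      have h9 : w (n + 1) = PowerSeries.X ^ m - (X ^ 2 * r).eval (w n) := rfl
      have h10 := dvd_add h7 h8
      rw [h9] at h10
      convert h10 using 1
      ring
    have h11 : v + (X ^ 2 * r).eval v - PowerSeries.X ^ m = 0 := by
      ext k
      have := h6 (k + 1)
      rw [PowerSeries.X_pow_dvd_iff] at this
      rw [this k (by omega), map_zero]
    exact sub_eq_zero.1 h11

end SzBF
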