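import Pool.Agent.SzBF.DiscL

/-!
Norms on the line: definitions, and bounds in terms of the height and the discriminant.
-/

open Polynomial

namespace SzBF

/-- `max (1, |z|)` -/
noncomputable def mx (z : ℂ) : ℝ := max 1 ‖z‖

theorem one_le_mx (z : ℂ) : 1 ≤ mx z := le_max_left _ _

theorem norm_le_mx (z : ℂ) : ‖z‖ ≤ mx z := le_max_right _ _

/-- the norm `|F|(z)` -/
noncomputable def nF (f : ℤ[X]) (z : ℂ) : ℝ := ‖(cpx f).eval z‖ / mx z ^ f.natDegree

/-- the norm of the derivative of `F` at a root -/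
noncomputable def nD (f : ℤ[X]) (α : ℂ) : ℝ :=
  ‖(cpx f).derivative.eval α‖ / mx α ^ (f.natDegree - 2)

/-- `1 / distance` -/
noncomputable def G (α z : ℂ) : ℝ := mx α * mx z / ‖z - α‖

/-- `Q = (N+1) H` -/
noncomputable def QQ (N : ℕ) (H : ℝ) : ℝ := (N + 1) * H

/-- `E = N^(N-1) Q^(2N-2) / |disc f|` -/
noncomputable def EE (f : ℤ[X]) (H : ℝ) : ℝ :=
  (f.natDegree : ℝ) ^ (f.natDegree - 1) * QQ f.natDegree H ^ (2 * f.natDegree - 2) /
    |(f.discr : ℝ)|

/-- standing assumptions for the archimedean estimates -/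
structure Data (m : ℕ) (f : ℤ[X]) (e : (j : ℕ) → Fin (f.natDegree * j / m - 1) → ℂ[X]) (H : ℝ) :
    Prop where
  hm : 2 ≤ m
  hmN : m ∣ f.natDegree
  hN : 4 ≤ f.natDegree
  hd : f.discr ≠ 0
  he : IsONB m f e
  hH1 : 1 ≤ H
  hH : ∀ i, |(f.coeff i : ℝ)| ≤ H

theorem eval_rts (f : ℤ[X]) {α : ℂ} (hα : α ∈ rts f) : (cpx f).eval α = 0 := by
  unfold rts at hα
  rw [Multiset.mem_toFinset, mem_roots'] at hα
  exact hα.2

theorem nF_le (f : ℤ[X]) (H : ℝ) (hH : ∀ i, |(f.coeff i : ℝ)| ≤ H) (z : ℂ) :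
    nF f z ≤ QQ f.natDegree H := by
  have hH0 : 0 ≤ H := (abs_nonneg _).trans (hH 0)
  have hm : 0 < mx z := lt_of_lt_of_le one_pos (one_le_mx z)
  unfold nF QQ
  rw [div_le_iff₀ (by positivity)]
  have h1 : (cpx f).eval z = ∑ i ∈ Finset.range (f.natDegree + 1), ((f.coeff i : ℤ) : ℂ) * z ^ i := by
    rw [eval_eq_sum_range, cpx_natDegree]
    refine Finset.sum_congr rfl fun i _ => ?_
    unfold cpx
    rw [coeff_map]
    simp
  rw [h1]
  have h2 : ∀ i ∈ Finset.range (f.natDegree + 1),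
      ‖((f.coeff i : ℤ) : ℂ) * z ^ i‖ ≤ H * mx z ^ f.natDegree := by
    intro i hi
    rw [Finset.mem_range] at hi
    rw [norm_mul, norm_pow, Complex.norm_intCast]
    refine mul_le_mul (hH i) ?_ (by positivity) hH0
    calc ‖z‖ ^ i ≤ mx z ^ i := pow_le_pow_left₀ (norm_nonneg _) (norm_le_mx z) i
      _ ≤ mx z ^ f.natDegree := pow_le_pow_right₀ (one_le_mx z) (by omega)
  refine (norm_sum_le_of_le _ h2).trans (le_of_eq ?_)
  rw [Finset.sum_const, Finset.card_range, nsmul_eq_mul]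
  push_cast
  ring

theorem nD_le (f : ℤ[X]) (hN : 2 ≤ f.natDegree) (H : ℝ) (hH : ∀ i, |(f.coeff i : ℝ)| ≤ H) (α : ℂ)
    (hα : (cpx f).eval α = 0) : nD f α ≤ f.natDegree * QQ f.natDegree H := by
  have hH0 : 0 ≤ H := (abs_nonneg _).trans (hH 0)
  have hm : 0 < mx α := lt_of_lt_of_le one_pos (one_le_mx α)
  set N := f.natDegree with hN'
  unfold nD QQ
  rw [← hN', div_le_iff₀ (by positivity)]
  have h1 : (cpx f).eval α = ∑ i ∈ Finset.range (N + 1), ((f.coeff i : ℤ) : ℂ) * α ^ i := by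
    rw [eval_eq_sum_range, cpx_natDegree]
    refine Finset.sum_congr rfl fun i _ => ?_
    unfold cpx
    rw [coeff_map]
    simp
  have h2 : (cpx f).derivative.eval α =
      ∑ i ∈ Finset.range (N + 1), ((f.coeff i : ℤ) : ℂ) * (i : ℂ) * α ^ (i - 1) := by
    rw [derivative_eval, sum_over_range' _ _ (N + 1) (by rw [cpx_natDegree]; omega)]
    · refine Finset.sum_congr rfl fun i _ => ?_
      unfold cpx
      rw [coeff_map]
      simp
    · intro i; simp
  rcases le_or_gt ‖α‖ 1 with hle | hgt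
  · have hmx : mx α = 1 := max_eq_left hle
    rw [hmx, one_pow, mul_one, h2, Finset.sum_range_succ', Nat.cast_zero, mul_zero, zero_mul,
      add_zero]
    have h3 : ∀ i ∈ Finset.range N,
        ‖((f.coeff (i + 1) : ℤ) : ℂ) * ((i + 1 : ℕ) : ℂ) * α ^ (i + 1 - 1)‖ ≤ H * N := by
      intro i hi
      rw [Finset.mem_range] at hi
      rw [norm_mul, norm_mul, norm_pow, Complex.norm_intCast, Complex.norm_natCast]
      have h4 : ((i + 1 : ℕ) : ℝ) ≤ N := by exact_mod_cast hi
      have h5 : ‖α‖ ^ (i + 1 - 1) ≤ 1 := pow_le_one₀ (norm_nonneg _) hle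
      calc |((f.coeff (i + 1) : ℤ) : ℝ)| * ((i + 1 : ℕ) : ℝ) * ‖α‖ ^ (i + 1 - 1)
          ≤ H * N * 1 := by
            refine mul_le_mul ?_ h5 (by positivity) (by positivity)
            exact mul_le_mul (hH _) h4 (by positivity) hH0
        _ = H * N := mul_one _
    refine (norm_sum_le_of_le _ h3).trans ?_
    rw [Finset.sum_const, Finset.card_range, nsmul_eq_mul]
    have hN0 : (0 : ℝ) ≤ N := Nat.cast_nonneg _
    nlinarith [mul_nonneg hN0 hH0]
  · have hmx : mx α = ‖α‖ := max_eq_right hgt.le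
    have hα0 : α ≠ 0 := by
      rintro rfl
      rw [norm_zero] at hgt
      linarith
    have h3 : (cpx f).derivative.eval α * α =
        ∑ i ∈ Finset.range N, ((f.coeff i : ℤ) : ℂ) * ((i : ℂ) - N) * α ^ i := by
      have h4 : (cpx f).derivative.eval α * α = (cpx f).derivative.eval α * α -
          N * (cpx f).eval α := by rw [hα]; ring
      rw [h4, h1, h2, Finset.sum_mul, Finset.mul_sum, ← Finset.sum_sub_distrib,
        Finset.sum_range_succ]
      have h5 : ((f.coeff N : ℤ) : ℂ) * (N : ℂ) * α ^ (N - 1) * α -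
          N * (((f.coeff N : ℤ) : ℂ) * α ^ N) = 0 := by
        have : α ^ N = α ^ (N - 1) * α := by
          rw [← pow_succ]; congr 1; omega
        rw [this]; ring
      rw [h5, add_zero]
      refine Finset.sum_congr rfl fun i _ => ?_
      rcases Nat.eq_zero_or_pos i with rfl | hi
      · simp
        ring
      · have : α ^ i = α ^ (i - 1) * α := by
          rw [← pow_succ]; congr 1; omega
        rw [this]; ring
    have h6 : ∀ i ∈ Finset.range N, ‖((f.coeff i : ℤ) : ℂ) * ((i : ℂ) - N) * α ^ i‖ ≤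
        H * N * ‖α‖ ^ (N - 1) := by
      intro i hi
      rw [Finset.mem_range] at hi
      rw [norm_mul, norm_mul, norm_pow, Complex.norm_intCast]
      have h7 : ‖(i : ℂ) - N‖ ≤ N := by
        have : (i : ℂ) - N = ((-((N - i : ℕ) : ℤ) : ℤ) : ℂ) := by
          push_cast [Nat.cast_sub hi.le]
          ring
        rw [this, Complex.norm_intCast]
        push_cast
        rw [abs_neg, abs_of_nonneg (Nat.cast_nonneg _)]
        exact_mod_cast Nat.sub_le N i
      have h8 : ‖α‖ ^ i ≤ ‖α‖ ^ (N - 1) := pow_le_pow_right₀ hgt.le (by omega)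
      refine mul_le_mul ?_ h8 (by positivity) (by positivity)
      exact mul_le_mul (hH _) h7 (norm_nonneg _) hH0
    have h9 : ‖(cpx f).derivative.eval α‖ * ‖α‖ ≤ N * (H * N * ‖α‖ ^ (N - 1)) := by
      rw [← norm_mul, h3]
      refine (norm_sum_le_of_le _ h6).trans (le_of_eq ?_)
      rw [Finset.sum_const, Finset.card_range, nsmul_eq_mul]
    have h10 : ‖α‖ ^ (N - 1) = ‖α‖ ^ (N - 2) * ‖α‖ := by
      rw [← pow_succ]; congr 1; omega
    rw [h10] at h9
    have hpos : 0 < ‖α‖ := by linarith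
    have h11 : ‖(cpx f).derivative.eval α‖ ≤ N * (H * N * ‖α‖ ^ (N - 2)) := by
      refine le_of_mul_le_mul_right ?_ hpos
      calc _ ≤ _ := h9
        _ = _ := by ring
    rw [hmx]
    refine h11.trans ?_
    have hN0 : (0 : ℝ) ≤ N := Nat.cast_nonneg _
    have hp : 0 ≤ ‖α‖ ^ (N - 2) := by positivity
    have : 0 ≤ N * H * ‖α‖ ^ (N - 2) := by positivity
    nlinarith

/-- Mahler measure -/
theorem mahler_le (f : ℤ[X]) (hN : 1 ≤ f.natDegree) (hd : f.discr ≠ 0) (H : ℝ)
    (hH : ∀ i, |(f.coeff i : ℝ)| ≤ H) :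
    |(f.leadingCoeff : ℝ)| * ∏ α ∈ rts f, mx α ≤ QQ f.natDegree H := by
  have h1 := mahlerMeasure_eq_leadingCoeff_mul_prod_roots (cpx f)
  have h2 := mahlerMeasure_le_sum_norm_coeff (cpx f)
  rw [h1, cpx_leadingCoeff, Complex.norm_intCast, roots_eq_val f hN hd] at h2
  have h3 : ((rts f).val.map (fun a => max 1 ‖a‖)).prod = ∏ α ∈ rts f, mx α := rfl
  rw [h3] at h2
  refine h2.trans ?_
  unfold QQ Polynomial.sum
  have h4 : ∀ i ∈ (cpx f).support, ‖(cpx f).coeff i‖ ≤ H := by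
    intro i _
    unfold cpx
    rw [coeff_map]
    simp only [eq_intCast]
    rw [Complex.norm_intCast]
    exact hH i
  refine (Finset.sum_le_card_nsmul _ _ H h4).trans ?_
  rw [nsmul_eq_mul]
  have hH0 : 0 ≤ H := (abs_nonneg _).trans (hH 0)
  refine mul_le_mul_of_nonneg_right ?_ hH0
  have h5 := card_supp_le_succ_natDegree (cpx f)
  rw [cpx_natDegree] at h5
  exact_mod_cast h5

/-- `|disc f| ≤ Q^(N-2) prod |F'|(α)` -/
theorem discr_le_prod (f : ℤ[X]) (hN : 2 ≤ f.natDegree) (hd : f.discr ≠ 0) (H : ℝ)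
    (hH : ∀ i, |(f.coeff i : ℝ)| ≤ H) :
    |(f.discr : ℝ)| ≤ QQ f.natDegree H ^ (f.natDegree - 2) * ∏ α ∈ rts f, nD f α := by
  have h1 := prod_deriv_cpx f hN hd
  have h2 := mahler_le f (by omega) hd H hH
  have h3 : ∀ α ∈ rts f, ‖(cpx f).derivative.eval α‖ = nD f α * mx α ^ (f.natDegree - 2) := by
    intro α _
    unfold nD
    have hm : 0 < mx α := lt_of_lt_of_le one_pos (one_le_mx α)
    rw [div_mul_cancel₀]
    positivity
  rw [Finset.prod_congr rfl h3, Finset.prod_mul_distrib, Finset.prod_pow, Complex.norm_intCast,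
    Complex.norm_intCast] at h1
  rw [← h1]
  have h4 : |(f.leadingCoeff : ℝ)| ^ (f.natDegree - 2) *
      ((∏ α ∈ rts f, nD f α) * (∏ α ∈ rts f, mx α) ^ (f.natDegree - 2)) =
      (|(f.leadingCoeff : ℝ)| * ∏ α ∈ rts f, mx α) ^ (f.natDegree - 2) *
        ∏ α ∈ rts f, nD f α := by
    rw [mul_pow]; ring
  rw [h4]
  have hnD : 0 ≤ ∏ α ∈ rts f, nD f α := by
    refine Finset.prod_nonneg fun α _ => ?_
    unfold nD
    have hm : 0 < mx α := lt_of_lt_of_le one_pos (one_le_mx α)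
    positivity
  have hmxp : 0 ≤ ∏ α ∈ rts f, mx α :=
    Finset.prod_nonneg fun α _ => (zero_le_one.trans (one_le_mx α))
  refine mul_le_mul_of_nonneg_right ?_ hnD
  exact pow_le_pow_left₀ (by positivity) h2 _

theorem discr_le (f : ℤ[X]) (hN : 2 ≤ f.natDegree) (hd : f.discr ≠ 0) (H : ℝ)
    (hH : ∀ i, |(f.coeff i : ℝ)| ≤ H) :
    |(f.discr : ℝ)| ≤ (f.natDegree : ℝ) ^ f.natDegree * QQ f.natDegree H ^ (2 * f.natDegree - 2) := by
  have h1 := discr_le_prod f hN hd H hH
  have hH0 : 0 ≤ H := (abs_nonneg _).trans (hH 0)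
  have hQ : 0 ≤ QQ f.natDegree H := by unfold QQ; positivity
  have h2 : ∏ α ∈ rts f, nD f α ≤ ∏ _α ∈ rts f, (f.natDegree * QQ f.natDegree H) := by
    refine Finset.prod_le_prod (fun α _ => ?_) fun α hα => ?_
    · unfold nD
      have hm : 0 < mx α := lt_of_lt_of_le one_pos (one_le_mx α)
      positivity
    · exact nD_le f hN H hH α (eval_rts f hα)
  rw [Finset.prod_const, card_rts f (by omega) hd] at h2
  refine h1.trans ((mul_le_mul_of_nonneg_left h2 (by positivity)).trans (le_of_eq ?_))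
  have h3 : 2 * f.natDegree - 2 = (f.natDegree - 2) + f.natDegree := by omega
  rw [h3, pow_add, mul_pow]
  ring

theorem nD_pos (f : ℤ[X]) (hN : 2 ≤ f.natDegree) (hd : f.discr ≠ 0) (α : ℂ) (hα : α ∈ rts f) :
    0 < nD f α := by
  have hm : 0 < mx α := lt_of_lt_of_le one_pos (one_le_mx α)
  unfold nD
  have hs : (cpx f).Separable := by
    apply separable_of_discr (by rw [cpx_natDegree]; omega)
    rw [cpx_discr f (by omega)]
    exact_mod_cast hd
  have hne : (cpx f).derivative.eval α ≠ 0 :=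
    hs.eval₂_derivative_ne_zero (RingHom.id ℂ) (by simpa using eval_rts f hα)
  have : 0 < ‖(cpx f).derivative.eval α‖ := norm_pos_iff.mpr hne
  positivity

/-- the derivatives at the roots are not small -/
theorem QQ_div_nD_le (f : ℤ[X]) (hN : 2 ≤ f.natDegree) (hd : f.discr ≠ 0) (H : ℝ)
    (hH : ∀ i, |(f.coeff i : ℝ)| ≤ H) (α : ℂ) (hα : α ∈ rts f) :
    QQ f.natDegree H / nD f α ≤ EE f H := by
  have h1 := discr_le_prod f hN hd H hH
  have hH0 : 0 ≤ H := (abs_nonneg _).trans (hH 0)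
  have hQ : 0 ≤ QQ f.natDegree H := by unfold QQ; positivity
  have hnD := nD_pos f hN hd α hα
  have hd' : (0 : ℝ) < |(f.discr : ℝ)| := abs_pos.mpr (by exact_mod_cast hd)
  unfold EE
  rw [div_le_div_iff₀ hnD hd']
  rw [← Finset.mul_prod_erase _ _ hα] at h1
  have h2 : ∏ β ∈ (rts f).erase α, nD f β ≤
      ∏ _β ∈ (rts f).erase α, (f.natDegree * QQ f.natDegree H) := by
    refine Finset.prod_le_prod (fun β _ => ?_) fun β hβ => ?_
    · unfold nD
      have hm : 0 < mx β := lt_of_lt_of_le one_pos (one_le_mx β)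
      positivity
    · exact nD_le f hN H hH β (eval_rts f (Finset.mem_of_mem_erase hβ))
  rw [Finset.prod_const, Finset.card_erase_of_mem hα, card_rts f (by omega) hd] at h2
  have h3 : |(f.discr : ℝ)| ≤ QQ f.natDegree H ^ (f.natDegree - 2) *
      (nD f α * (f.natDegree * QQ f.natDegree H) ^ (f.natDegree - 1)) :=
    h1.trans (mul_le_mul_of_nonneg_left (mul_le_mul_of_nonneg_left h2 hnD.le) (by positivity))
  calc QQ f.natDegree H * |(f.discr : ℝ)| ≤ QQ f.natDegree H * (QQ f.natDegree H ^ (f.natDegree - 2) *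
      (nD f α * (f.natDegree * QQ f.natDegree H) ^ (f.natDegree - 1))) :=
        mul_le_mul_of_nonneg_left h3 hQ
    _ = (f.natDegree : ℝ) ^ (f.natDegree - 1) * QQ f.natDegree H ^ (2 * f.natDegree - 2) *
        nD f α := by
      have h4 : 2 * f.natDegree - 2 = 1 + (f.natDegree - 2) + (f.natDegree - 1) := by omega
      rw [h4, pow_add, pow_add, pow_one, mul_pow]
      ring

end SzBF
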