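import Pool.Agent.SzBF.DiscL
import Pool.Agent.SzBF.Inv

/-!
Discs over `ℂ_[p]`: definitions and the two constructions.
-/

open Polynomial

namespace SzBF

/-- The polynomial over `ℂ_[p]`. -/
noncomputable def fp (p : ℕ) [Fact p.Prime] (f : ℤ[X]) : ℂ_[p][X] := f.map (Int.castRingHom ℂ_[p])

/-- lower bound of `logRadius` -/
noncomputable def ell (p : ℕ) [Fact p.Prime] (m : ℕ) (f : ℤ[X]) (α : ℂ_[p]) : ℝ :=
  (1 / (m : ℝ)) * (2 * Real.log ‖(fp p f).derivative.eval α‖ -
    ((f.natDegree : ℝ) - 4) * Real.log (max 1 ‖α‖))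

theorem norm_int_le (p : ℕ) [Fact p.Prime] (n : ℤ) : ‖(n : ℂ_[p])‖ ≤ 1 := by
  have h : ((n : ℚ_[p]) : ℂ_[p]) = (n : ℂ_[p]) := by
    change algebraMap ℚ_[p] ℂ_[p] (n : ℚ_[p]) = _
    exact map_intCast _ _
  rw [← h, PadicComplex.norm_extends']
  exact Padic.norm_int_le_one n

/-- a ring in which the Taylor coefficients at an integral point live -/
def OO (p : ℕ) [Fact p.Prime] : Subring ℂ_[p] where
  carrier := {x | ‖x‖ ≤ 1}
  mul_mem' := by
    intro a b ha hb
    simp only [Set.mem_ofPred_eq] at *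
    rw [norm_mul]
    exact mul_le_one₀ ha (norm_nonneg _) hb
  one_mem' := by simp
  add_mem' := by
    intro a b ha hb
    simp only [Set.mem_ofPred_eq] at *
    exact (IsUltrametricDist.norm_add_le_max a b).trans (max_le ha hb)
  zero_mem' := by simp
  neg_mem' := by
    intro a ha
    simp only [Set.mem_ofPred_eq] at *
    rwa [norm_neg]

private theorem branch_ring {O : Type*} [CommRing O] (H : O[X]) (a : O) (h0 : H.eval a = 0)
    (m : ℕ) (hm : 1 ≤ m) :
    ∃ v : PowerSeries O, PowerSeries.X ^ m ∣ v ∧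
      H.eval₂ (PowerSeries.C) (PowerSeries.C a + PowerSeries.C (H.derivative.eval a) * v) =
        PowerSeries.C (H.derivative.eval a ^ 2) * PowerSeries.X ^ m := by
  set D : O := H.derivative.eval a with hD
  set T : O[X] := taylor a H with hT
  have hT0 : T.coeff 0 = 0 := by rw [hT, taylor_coeff_zero, h0]
  have hT1 : T.coeff 1 = D := by rw [hT, taylor_coeff_one]
  set r : O[X] := T.divX.divX with hr
  have hTr : T = C D * X + X ^ 2 * r := by
    have h1 : T.divX * X + C (T.coeff 0) = T := divX_mul_X_add T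
    have h2 : T.divX.divX * X + C (T.divX.coeff 0) = T.divX := divX_mul_X_add T.divX
    rw [hT0, C_0, add_zero] at h1
    rw [coeff_divX, zero_add, hT1] at h2
    rw [← h1, ← h2]
    ring
  obtain ⟨v, hv1, hv2⟩ := exists_inv (X ^ 2 * r.comp (C D * X)) (Dvd.intro _ rfl) m hm
  refine ⟨v, hv1, ?_⟩
  have hTay : H.eval₂ (PowerSeries.C) (PowerSeries.C a + PowerSeries.C D * v) =
      T.eval₂ (PowerSeries.C) (PowerSeries.C D * v) := by
    rw [hT, taylor_apply, eval₂_comp, eval₂_add, eval₂_X, eval₂_C, add_comm]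
  rw [hTay, hTr]
  rw [eval₂_mul, eval₂_comp, eval₂_pow, eval₂_X, eval₂_mul, eval₂_C, eval₂_X] at hv2
  rw [eval₂_add, eval₂_mul, eval₂_mul, eval₂_C, eval₂_X, eval₂_pow, eval₂_X, ← hv2, map_pow]
  ring

/-- expansion at an integral root `α` of a polynomial `h` with integral coefficients, with
`D = h'(α)`: there is a power series `v`, divisible by `t^m`, with integral coefficients and
`h(α + D v) = D^2 t^m`. -/
theorem exists_branch (p : ℕ) [Fact p.Prime] (h : ℤ[X]) (α : ℂ_[p]) (hα : ‖α‖ ≤ 1)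
    (h0 : (fp p h).eval α = 0) (m : ℕ) (hm : 1 ≤ m) :
    ∃ v : PowerSeries ℂ_[p], (∀ k, ‖v.coeff k‖ ≤ 1) ∧ PowerSeries.X ^ m ∣ v ∧
      (fp p h).eval₂ (PowerSeries.C) (PowerSeries.C α +
        PowerSeries.C ((fp p h).derivative.eval α) * v) =
        PowerSeries.C ((fp p h).derivative.eval α ^ 2) * PowerSeries.X ^ m := by
  set ι : OO p →+* ℂ_[p] := (OO p).subtype with hι
  have hιi : Function.Injective ι := Subtype.val_injective
  set a : OO p := ⟨α, hα⟩ with ha
  have hιa : ι a = α := rfl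
  set H : (OO p)[X] := h.map (Int.castRingHom (OO p)) with hH
  have hHι : H.map ι = fp p h := by
    rw [hH, Polynomial.map_map, fp]
    congr 1
  have hev : ι (H.eval a) = (fp p h).eval α := by
    rw [← hHι, ← hιa, eval_map_apply]
  have hev' : ι (H.derivative.eval a) = (fp p h).derivative.eval α := by
    rw [← hHι, ← hιa, derivative_map (p := H), eval_map_apply]
  have h0' : H.eval a = 0 := by
    apply hιi
    rw [hev, h0, map_zero]
  obtain ⟨v, hv1, hv2⟩ := branch_ring H a h0' m hm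
  refine ⟨PowerSeries.map ι v, ?_, ?_, ?_⟩
  · intro k
    rw [PowerSeries.coeff_map]
    exact (v.coeff k).2
  · have := map_dvd (PowerSeries.map ι) hv1
    rwa [map_pow, PowerSeries.map_X] at this
  · have h3 := congrArg (PowerSeries.map ι) hv2
    rw [Polynomial.hom_eval₂, map_mul, map_pow (PowerSeries.map ι), PowerSeries.map_X,
      PowerSeries.map_C, map_add, map_mul, PowerSeries.map_C, PowerSeries.map_C, map_pow, hev',
      hιa] at h3
    rw [← h3, ← hHι, eval₂_map]
    congr 1
    ext x : 1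
    simp

end SzBF
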