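import Pool.Agent.SzBF.Pad

/-!
The disc at an integral branch point.
-/

open Polynomial

namespace SzBF

theorem mem_OO_iff (p : ℕ) [Fact p.Prime] (x : ℂ_[p]) : x ∈ OO p ↔ ‖x‖ ≤ 1 := Iff.rfl

theorem eval_norm_le (p : ℕ) [Fact p.Prime] (h : ℤ[X]) (α : ℂ_[p]) (hα : ‖α‖ ≤ 1) :
    ‖(fp p h).eval α‖ ≤ 1 := by
  rw [← mem_OO_iff, Polynomial.eval_eq_sum_range]
  refine (OO p).sum_mem fun i _ => (OO p).mul_mem ?_ ((OO p).pow_mem ?_ i)
  · rw [mem_OO_iff, fp, Polynomial.coeff_map]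
    exact norm_int_le p _
  · exact hα

theorem deriv_norm_le (p : ℕ) [Fact p.Prime] (h : ℤ[X]) (α : ℂ_[p]) (hα : ‖α‖ ≤ 1) :
    ‖(fp p h).derivative.eval α‖ ≤ 1 := by
  have : (fp p h).derivative = fp p h.derivative := by
    rw [fp, fp, Polynomial.derivative_map]
  rw [this]
  exact eval_norm_le p _ α hα

theorem disc_integral (p : ℕ) [Fact p.Prime] (m : ℕ) (hm : 1 ≤ m) (f : ℤ[X]) (α : ℂ_[p])
    (hα : ‖α‖ ≤ 1) (h0 : (fp p f).eval α = 0) (h1 : (fp p f).derivative.eval α ≠ 0) :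
    ∃ c, IsDisc p m f α c ∧ ‖c‖ ^ m = ‖(fp p f).derivative.eval α‖ ^ 2 := by
  obtain ⟨v, hv1, hv2, hv3⟩ := exists_branch p f α hα h0 m hm
  set D : ℂ_[p] := (fp p f).derivative.eval α with hD
  have hD1 : ‖D‖ ≤ 1 := deriv_norm_le p f α hα
  obtain ⟨c, hc⟩ := IsAlgClosed.exists_pow_nat_eq (D ^ 2) (Nat.pos_of_ne_zero (by omega) : 0 < m)
  have hcm : ‖c‖ ^ m = ‖D‖ ^ 2 := by rw [← norm_pow, hc, norm_pow]
  have hc0 : c ≠ 0 := by
    rintro rfl
    rw [zero_pow (by omega)] at hc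
    exact h1 (pow_eq_zero_iff (two_ne_zero) |>.1 hc.symm)
  have hc1 : ‖c‖ ≤ 1 := by
    by_contra hlt
    push Not at hlt
    have h2 : 1 < ‖c‖ ^ m := one_lt_pow₀ hlt (by omega)
    have h3 : ‖D‖ ^ 2 ≤ 1 := pow_le_one₀ (norm_nonneg _) hD1
    rw [hcm] at h2
    linarith
  refine ⟨c, ⟨hc0, PowerSeries.C α + PowerSeries.C D * v, 1, PowerSeries.C c * PowerSeries.X, 1,
    fun k => ?_, fun k => ?_, fun k => ?_, fun k => ?_, ?_, ?_, ?_⟩, hcm⟩
  · rw [map_add, PowerSeries.coeff_C_mul]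
    refine (IsUltrametricDist.norm_add_le_max _ _).trans (max_le ?_ ?_)
    · rw [PowerSeries.coeff_C]
      split_ifs
      · exact hα
      · simp
    · rw [norm_mul]
      exact mul_le_one₀ hD1 (norm_nonneg _) (hv1 k)
  · rw [PowerSeries.coeff_one]
    split_ifs <;> simp
  · rw [PowerSeries.coeff_C_mul, PowerSeries.coeff_X, norm_mul]
    refine mul_le_one₀ hc1 (norm_nonneg _) ?_
    split_ifs <;> simp
  · rw [PowerSeries.coeff_one]
    split_ifs <;> simp
  · unfold homg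
    have e1 : ∑ i ∈ Finset.range (f.natDegree + 1),
        PowerSeries.C ((f.coeff i : ℤ) : ℂ_[p]) * (PowerSeries.C α + PowerSeries.C D * v) ^ i *
          (1 : PowerSeries ℂ_[p]) ^ (f.natDegree - i) =
        (fp p f).eval₂ (PowerSeries.C) (PowerSeries.C α + PowerSeries.C D * v) := by
      rw [Polynomial.eval₂_eq_sum_range' (n := f.natDegree + 1)]
      · refine Finset.sum_congr rfl fun i _ => ?_
        rw [one_pow, mul_one, fp, Polynomial.coeff_map]
        rfl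
      · exact Nat.lt_succ_of_le Polynomial.natDegree_map_le
    rw [e1, hv3, one_pow, one_pow, mul_one, one_mul, mul_pow, ← map_pow, hc]
  · have e2 : PowerSeries.C α + PowerSeries.C D * v - PowerSeries.C α * 1 =
        PowerSeries.C D * v := by ring
    rw [e2, PowerSeries.order_one]
    have h4 : PowerSeries.X ^ m ∣ PowerSeries.C D * v := Dvd.dvd.mul_left hv2 _
    have h5 : (m : ℕ∞) ≤ (PowerSeries.C D * v).order := by
      refine PowerSeries.nat_le_order _ _ fun i hi => ?_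
      exact PowerSeries.X_pow_dvd_iff.1 h4 i hi
    refine lt_of_lt_of_le ?_ h5
    exact_mod_cast (by omega : 0 < m)
  · have e3 : PowerSeries.C c * PowerSeries.X - PowerSeries.C c * PowerSeries.X *
        (1 : PowerSeries ℂ_[p]) = 0 := by ring
    rw [e3, PowerSeries.order_zero, PowerSeries.order_one]
    exact lt_of_lt_of_le (by norm_num : (0 : ℕ∞) + 1 < 2) le_top

end SzBF
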