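import Pool.Agent.SzBF.Pad

/-!
The disc at a branch point which is not integral.
-/

open Polynomial

namespace SzBF

section aux

variable {p : ℕ} [Fact p.Prime]

theorem PadB_sum {ι : Type*} (s : Finset ι) (F : ι → ℂ_[p]) (h : ∀ i ∈ s, ‖F i‖ ≤ 1) :
    ‖∑ i ∈ s, F i‖ ≤ 1 :=
  IsUltrametricDist.norm_sum_le_of_forall_le_of_nonneg zero_le_one h

theorem PadB_mul {A B : PowerSeries ℂ_[p]} (hA : ∀ k, ‖A.coeff k‖ ≤ 1)
    (hB : ∀ k, ‖B.coeff k‖ ≤ 1) (k : ℕ) : ‖(A * B).coeff k‖ ≤ 1 := by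
  rw [PowerSeries.coeff_mul]
  refine PadB_sum _ _ fun i _ => ?_
  rw [norm_mul]
  exact mul_le_one₀ (hA _) (norm_nonneg _) (hB _)

theorem PadB_pow {A : PowerSeries ℂ_[p]} (hA : ∀ k, ‖A.coeff k‖ ≤ 1) (n k : ℕ) :
    ‖(A ^ n).coeff k‖ ≤ 1 := by
  induction n generalizing k with
  | zero =>
    rw [pow_zero, PowerSeries.coeff_one]
    split_ifs <;> simp
  | succ n ih =>
    rw [pow_succ]
    exact PadB_mul ih hA k

theorem PadB_eval (h : ℤ[X]) (x : ℂ_[p]) (hx : ‖x‖ ≤ 1) :
    ‖(fp p h).eval x‖ ≤ 1 := by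
  unfold fp
  rw [eval_map, eval₂_eq_sum_range]
  refine PadB_sum _ _ fun i _ => ?_
  rw [norm_mul, norm_pow]
  refine mul_le_one₀ ?_ (by positivity) (pow_le_one₀ (norm_nonneg _) hx)
  simpa using norm_int_le p (h.coeff i)

theorem PadB_deriv (h : ℤ[X]) : (fp p h).derivative = fp p h.derivative := by
  unfold fp
  rw [derivative_map]

theorem PadB_f (f : ℤ[X]) : fp p f =
    ∑ i ∈ Finset.range (f.natDegree + 1), C ((f.coeff i : ℤ) : ℂ_[p]) * X ^ i := by
  unfold fp
  have hd : (f.map (Int.castRingHom ℂ_[p])).natDegree < f.natDegree + 1 :=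
    Nat.lt_succ_of_le natDegree_map_le
  conv_lhs => rw [as_sum_range' _ _ hd]
  refine Finset.sum_congr rfl fun i _ => ?_
  rw [coeff_map, ← C_mul_X_pow_eq_monomial]
  simp

theorem PadB_reflect (f : ℤ[X]) : fp p (f.reflect f.natDegree) =
    ∑ i ∈ Finset.range (f.natDegree + 1),
      C ((f.coeff i : ℤ) : ℂ_[p]) * X ^ (f.natDegree - i) := by
  set N := f.natDegree with hN
  unfold fp
  have hd : ((f.reflect N).map (Int.castRingHom ℂ_[p])).natDegree < N + 1 := by
    have h1 := natDegree_reflect_le (N := N) (p := f)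
    have h2 : max N f.natDegree = N := by simp [hN]
    have h3 : ((f.reflect N).map (Int.castRingHom ℂ_[p])).natDegree ≤ (f.reflect N).natDegree :=
      natDegree_map_le
    omega
  conv_lhs => rw [as_sum_range' _ _ hd]
  rw [← Finset.sum_range_reflect]
  refine Finset.sum_congr rfl fun i hi => ?_
  rw [Finset.mem_range] at hi
  have e1 : N + 1 - 1 - i = N - i := by omega
  rw [e1, coeff_map, coeff_reflect, revAt_le (by omega), ← C_mul_X_pow_eq_monomial]
  have e2 : N - (N - i) = i := by omega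
  rw [e2]
  simp

theorem PadB_rel (f : ℤ[X]) (hN : 1 ≤ f.natDegree) (α : ℂ_[p]) (hα : α ≠ 0) :
    α ^ (f.natDegree - 1) * (fp p (f.reflect f.natDegree)).derivative.eval α⁻¹ =
      f.natDegree * (fp p f).eval α - α * (fp p f).derivative.eval α := by
  rw [PadB_reflect, PadB_f]
  set N := f.natDegree with hNd
  rw [derivative_sum, derivative_sum, eval_finsetSum, eval_finsetSum, eval_finsetSum,
    Finset.mul_sum, Finset.mul_sum, Finset.mul_sum, ← Finset.sum_sub_distrib]
  refine Finset.sum_congr rfl fun i hi => ?_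
  rw [Finset.mem_range] at hi
  rw [derivative_C_mul_X_pow, derivative_C_mul_X_pow]
  simp only [eval_mul, eval_C, eval_pow, eval_X]
  rcases Nat.lt_or_ge i N with h | h
  · have e1 : α ^ (N - 1) * α⁻¹ ^ (N - i - 1) = α ^ i := by
      have e2 : N - 1 = i + (N - i - 1) := by omega
      rw [e2, pow_add, inv_pow]
      have : i + (N - i - 1) - i - 1 + 1 = i + (N - i - 1) - i ∨ True := Or.inr trivial
      have h3 : α ^ (N - i - 1) ≠ 0 := pow_ne_zero _ hα
      have e3 : (i + (N - i - 1) + 1) - i - 1 = N - i - 1 := by omega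
      field_simp
    have e4 : α * α ^ (i - 1) * (i : ℂ_[p]) = α ^ i * (i : ℂ_[p]) := by
      rcases Nat.eq_zero_or_pos i with h0 | h0
      · subst h0; simp
      · obtain ⟨k, rfl⟩ := Nat.exists_eq_add_of_le' h0
        rw [Nat.add_sub_cancel, pow_succ]; ring
    have e5 : ((N - i : ℕ) : ℂ_[p]) = (N : ℂ_[p]) - i := by
      rw [Nat.cast_sub h.le]
    rw [e5]
    linear_combination ((f.coeff i : ℤ) : ℂ_[p]) * ((N : ℂ_[p]) - i) * e1 +
      ((f.coeff i : ℤ) : ℂ_[p]) * e4
  · have hi' : i = N := by omega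
    subst hi'
    obtain ⟨k, hk⟩ := Nat.exists_eq_add_of_le' hN
    rw [hk]
    simp only [Nat.sub_self, Nat.cast_zero, mul_zero, zero_mul, Nat.add_sub_cancel, pow_succ]
    ring

theorem PadB_eval2 (f : ℤ[X]) (V : PowerSeries ℂ_[p]) :
    (fp p (f.reflect f.natDegree)).eval₂ (PowerSeries.C) V =
      ∑ i ∈ Finset.range (f.natDegree + 1),
        PowerSeries.C ((f.coeff i : ℤ) : ℂ_[p]) * V ^ (f.natDegree - i) := by
  rw [PadB_reflect, eval₂_finset_sum]
  refine Finset.sum_congr rfl fun i _ => ?_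
  rw [eval₂_mul, eval₂_C, eval₂_X_pow]

theorem PadB_ord {φ : PowerSeries ℂ_[p]} {n : ℕ} (h : PowerSeries.X ^ n ∣ φ) :
    (n : ℕ∞) ≤ φ.order :=
  PowerSeries.nat_le_order _ _ fun i hi => PowerSeries.X_pow_dvd_iff.1 h i hi

theorem PadB_zero (f : ℤ[X]) (α : ℂ_[p]) (hα : α ≠ 0) (h0 : (fp p f).eval α = 0) :
    (fp p (f.reflect f.natDegree)).eval α⁻¹ = 0 := by
  have h1 : α ^ f.natDegree * (fp p (f.reflect f.natDegree)).eval α⁻¹ = (fp p f).eval α := by
    rw [PadB_reflect, PadB_f, eval_finsetSum, eval_finsetSum, Finset.mul_sum]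
    refine Finset.sum_congr rfl fun i hi => ?_
    rw [Finset.mem_range] at hi
    simp only [eval_mul, eval_C, eval_pow, eval_X]
    have e1 : α ^ f.natDegree * α⁻¹ ^ (f.natDegree - i) = α ^ i := by
      have e2 : f.natDegree = i + (f.natDegree - i) := by omega
      have h3 : α ^ (f.natDegree - i) ≠ 0 := pow_ne_zero _ hα
      conv_lhs => rw [e2, pow_add]
      have e3 : i + (f.natDegree - i) - i = f.natDegree - i := by omega
      rw [e3, inv_pow]
      field_simp
    linear_combination ((f.coeff i : ℤ) : ℂ_[p]) * e1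
  rw [h0] at h1
  exact (mul_eq_zero.1 h1).resolve_left (pow_ne_zero _ hα)

end aux

theorem disc_nonintegral (p : ℕ) [Fact p.Prime] (m : ℕ) (hm : 1 ≤ m) (f : ℤ[X])
    (hmN : m ∣ f.natDegree) (hN : 4 ≤ f.natDegree) (α : ℂ_[p])
    (hα : 1 < ‖α‖) (h0 : (fp p f).eval α = 0) (h1 : (fp p f).derivative.eval α ≠ 0) :
    ∃ c, IsDisc p m f α c ∧
      ‖c‖ ^ m * ‖α‖ ^ (f.natDegree - 4) = ‖(fp p f).derivative.eval α‖ ^ 2 := by
  have hα0 : α ≠ 0 := by
    rintro rfl
    simp at hα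
    linarith
  have hβ : ‖α⁻¹‖ ≤ 1 := by
    rw [norm_inv]
    exact inv_le_one_of_one_le₀ hα.le
  set g := f.reflect f.natDegree with hg
  set D : ℂ_[p] := (fp p g).derivative.eval α⁻¹ with hD
  obtain ⟨v, hv1, hv2, hv3⟩ := exists_branch p g α⁻¹ hβ (PadB_zero f α hα0 h0) m hm
  rw [← hD] at hv3
  have hrel := PadB_rel f (by omega) α hα0
  rw [← hg, ← hD, h0, mul_zero, zero_sub] at hrel
  have hD0 : D ≠ 0 := by
    intro h
    rw [h, mul_zero] at hrel
    have : α * (fp p f).derivative.eval α = 0 := by linear_combination hrel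
    rcases mul_eq_zero.1 this with h2 | h2
    · exact hα0 h2
    · exact h1 h2
  have hDn : ‖D‖ ≤ 1 := by
    rw [hD, PadB_deriv]
    exact PadB_eval _ _ hβ
  obtain ⟨c', hc'⟩ := IsAlgClosed.exists_pow_nat_eq (D ^ 2) (show 0 < m by omega)
  have hc'0 : c' ≠ 0 := by
    rintro rfl
    rw [zero_pow (by omega)] at hc'
    exact pow_ne_zero 2 hD0 hc'.symm
  have hc'n : ‖c'‖ ^ m = ‖D‖ ^ 2 := by rw [← norm_pow, hc', norm_pow]
  have hc'1 : ‖c'‖ ≤ 1 := by
    by_contra h
    push Not at h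
    have h2 : 1 < ‖c'‖ ^ m := one_lt_pow₀ h (by omega)
    rw [hc'n] at h2
    have h3 : ‖D‖ ^ 2 ≤ 1 := pow_le_one₀ (norm_nonneg _) hDn
    linarith
  obtain ⟨q, hq⟩ := hmN
  set V : PowerSeries ℂ_[p] := PowerSeries.C α⁻¹ + PowerSeries.C D * v with hV
  have hVn : ∀ k, ‖V.coeff k‖ ≤ 1 := by
    intro k
    rw [hV, map_add, PowerSeries.coeff_C_mul, PowerSeries.coeff_C]
    refine (IsUltrametricDist.norm_add_le_max _ _).trans (max_le ?_ ?_)
    · split_ifs
      · exact hβ
      · simp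
    · rw [norm_mul]
      exact mul_le_one₀ hDn (norm_nonneg _) (hv1 k)
  have hvc : PowerSeries.constantCoeff v = 0 := by
    have := PowerSeries.X_pow_dvd_iff.1 hv2 0 (by omega)
    rwa [PowerSeries.coeff_zero_eq_constantCoeff_apply] at this
  have hVu : IsUnit V := by
    rw [PowerSeries.isUnit_iff_constantCoeff, hV]
    simp [hvc, hα0]
  have hVo : V.order = 0 := PowerSeries.order_zero_of_unit hVu
  have hdiff : 1 - PowerSeries.C α * V = -(PowerSeries.C (α * D) * v) := by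
    have h3 : PowerSeries.C α * PowerSeries.C α⁻¹ = (1 : PowerSeries ℂ_[p]) := by
      rw [← map_mul, mul_inv_cancel₀ hα0, map_one]
    rw [hV, mul_add, h3, map_mul]
    ring
  refine ⟨c' * α ^ q, ⟨mul_ne_zero hc'0 (pow_ne_zero _ hα0), 1, V, PowerSeries.C c' * PowerSeries.X,
    V ^ q, fun k => ?_, hVn, fun k => ?_, PadB_pow hVn q, ?_, ?_, ?_⟩, ?_⟩
  · rw [PowerSeries.coeff_one]
    split_ifs <;> simp
  · rw [PowerSeries.coeff_C_mul, PowerSeries.coeff_X]
    split_ifs
    · simpa using hc'1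
    · simp
  · unfold homg
    have e1 := PadB_eval2 (p := p) f V
    rw [← hg, hv3] at e1
    have e2 : ∀ i ∈ Finset.range (f.natDegree + 1),
        PowerSeries.C ((f.coeff i : ℤ) : ℂ_[p]) * (1 : PowerSeries ℂ_[p]) ^ i *
          V ^ (f.natDegree - i) =
        PowerSeries.C ((f.coeff i : ℤ) : ℂ_[p]) * V ^ (f.natDegree - i) := by
      intro i _
      rw [one_pow, mul_one]
    rw [Finset.sum_congr rfl e2, ← e1, mul_pow, ← map_pow, hc', ← pow_mul, mul_comm q m, ← hq]
    ring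
  · rw [hVo, hdiff]
    have h3 : PowerSeries.X ^ m ∣ -(PowerSeries.C (α * D) * v) :=
      (Dvd.dvd.mul_left hv2 _).neg_right
    refine lt_of_lt_of_le ?_ (PadB_ord h3)
    exact_mod_cast (by omega : 0 < m)
  · have h2 : (V ^ q).order = 0 := PowerSeries.order_zero_of_unit (hVu.pow q)
    rw [h2, zero_add]
    have h3 : PowerSeries.X ^ (m + 1) ∣ PowerSeries.C c' * PowerSeries.X -
        PowerSeries.C (c' * α ^ q) * PowerSeries.X * V ^ q := by
      have h4 : PowerSeries.C c' * PowerSeries.X -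
          PowerSeries.C (c' * α ^ q) * PowerSeries.X * V ^ q =
          PowerSeries.C c' * (PowerSeries.X * (1 - (PowerSeries.C α * V) ^ q)) := by
        rw [map_mul, map_pow, mul_pow]; ring
      rw [h4]
      refine Dvd.dvd.mul_left ?_ _
      rw [pow_succ']
      refine mul_dvd_mul_left _ ?_
      have h5 : 1 - PowerSeries.C α * V ∣ 1 - (PowerSeries.C α * V) ^ q := by
        have := sub_dvd_pow_sub_pow (1 : PowerSeries ℂ_[p]) (PowerSeries.C α * V) q
        rwa [one_pow] at this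
      refine dvd_trans ?_ h5
      rw [hdiff]
      exact (Dvd.dvd.mul_left hv2 _).neg_right
    refine lt_of_lt_of_le ?_ (PadB_ord h3)
    exact_mod_cast (by omega : 1 < m + 1)
  · have h2 : ‖(fp p f).derivative.eval α‖ = ‖α‖ ^ (f.natDegree - 2) * ‖D‖ := by
      have h3 := congrArg norm hrel
      rw [norm_mul, norm_neg, norm_mul, norm_pow] at h3
      have h4 : ‖α‖ ≠ 0 := by linarith
      apply mul_left_cancel₀ h4
      rw [← h3]
      obtain ⟨k, hk⟩ := Nat.exists_eq_add_of_le' hN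
      rw [hk]
      have e1 : k + 4 - 1 = (k + 4 - 2) + 1 := by omega
      rw [e1, pow_succ]
      ring
    rw [h2, norm_mul, norm_pow, mul_pow, hc'n, ← pow_mul, mul_comm q m, ← hq, mul_pow, ← pow_mul]
    have e1 : (f.natDegree - 2) * 2 = f.natDegree + (f.natDegree - 4) := by omega
    rw [e1, pow_add]
    ring

end SzBF
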