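import Pool.Agent.SzBF.PadA
import Pool.Agent.SzBF.PadB

/-!
Lower bounds of the `logRadius` and of their sum over the roots; product formula.
-/

open Polynomial

namespace SzBF

section aux

theorem PadS_inj (p : ℕ) [Fact p.Prime] : Function.Injective (Int.castRingHom ℂ_[p]) :=
  RingHom.injective_int _

theorem PadS_lc (p : ℕ) [Fact p.Prime] (f : ℤ[X]) :
    (fp p f).leadingCoeff = (f.leadingCoeff : ℂ_[p]) := by
  rw [fp, leadingCoeff_map_of_injective (PadS_inj p)]
  rfl

theorem PadS_deg (p : ℕ) [Fact p.Prime] (f : ℤ[X]) : (fp p f).natDegree = f.natDegree :=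
  natDegree_map_eq_of_injective (PadS_inj p) f

theorem PadS_discr (p : ℕ) [Fact p.Prime] (f : ℤ[X]) (hf : f ≠ 0) :
    (fp p f).discr = (f.discr : ℂ_[p]) := by
  have h : Int.castRingHom ℂ_[p] f.leadingCoeff ≠ 0 := by
    rw [ne_eq, map_eq_zero_iff _ (PadS_inj p)]
    exact leadingCoeff_ne_zero.mpr hf
  rw [fp, discr_map_of_ne _ h]
  rfl

theorem PadS_norm_int (p : ℕ) [Fact p.Prime] (n : ℤ) : ‖(n : ℂ_[p])‖ = ‖(n : ℚ_[p])‖ := by
  have h : ((n : ℚ_[p]) : ℂ_[p]) = (n : ℂ_[p]) := by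
    change algebraMap ℚ_[p] ℂ_[p] (n : ℚ_[p]) = _
    exact map_intCast _ _
  rw [← h, PadicComplex.norm_extends']

theorem PadS_norm_one (p : ℕ) [Fact p.Prime] (n : ℤ) (h : ¬ (p : ℤ) ∣ n) :
    ‖(n : ℂ_[p])‖ = 1 := by
  rw [PadS_norm_int]
  have h1 := Padic.norm_int_le_one (p := p) n
  have h2 := (Padic.norm_intCast_lt_one_iff (p := p) (k := n)).not.mpr h
  exact le_antisymm h1 (not_lt.mp h2)

theorem PadS_ne (p : ℕ) [Fact p.Prime] (n : ℤ) (h : n ≠ 0) : (n : ℂ_[p]) ≠ 0 := by
  exact_mod_cast h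

theorem PadS_log {ι : Type*} (s : Multiset ι) (F : ι → ℝ) (h : ∀ x ∈ s, F x ≠ 0) :
    Real.log ((s.map F).prod) = (s.map (fun x => Real.log (F x))).sum := by
  induction s using Multiset.induction_on with
  | empty => simp
  | cons a s ih =>
    rw [Multiset.map_cons, Multiset.map_cons, Multiset.prod_cons, Multiset.sum_cons,
      Real.log_mul (h a (Multiset.mem_cons_self a s)) ?_,
      ih (fun x hx => h x (Multiset.mem_cons_of_mem hx))]
    intro h0
    rw [Multiset.prod_eq_zero_iff, Multiset.mem_map] at h0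
    obtain ⟨x, hx, hx0⟩ := h0
    exact h x (Multiset.mem_cons_of_mem hx) hx0

theorem PadS_normprod {K : Type*} [NormedField K] {ι : Type*} (s : Multiset ι) (F : ι → K) :
    ‖(s.map F).prod‖ = (s.map (fun x => ‖F x‖)).prod := by
  induction s using Multiset.induction_on with
  | empty => simp
  | cons a s ih =>
    rw [Multiset.map_cons, Multiset.map_cons, Multiset.prod_cons, Multiset.prod_cons, norm_mul, ih]

theorem PadS_prod_le {ι : Type*} (s : Multiset ι) (F G : ι → ℝ) (h0 : ∀ x ∈ s, 0 ≤ F x)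
    (h : ∀ x ∈ s, F x ≤ G x) : (s.map F).prod ≤ (s.map G).prod := by
  induction s using Multiset.induction_on with
  | empty => simp
  | cons a s ih =>
    rw [Multiset.map_cons, Multiset.map_cons, Multiset.prod_cons, Multiset.prod_cons]
    have h1 := h a (Multiset.mem_cons_self a s)
    have h2 := h0 a (Multiset.mem_cons_self a s)
    refine mul_le_mul h1 (ih (fun x hx => h0 x (Multiset.mem_cons_of_mem hx))
      (fun x hx => h x (Multiset.mem_cons_of_mem hx))) ?_ (h2.trans h1)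
    apply Multiset.prod_nonneg
    intro y hy
    obtain ⟨x, hx, rfl⟩ := Multiset.mem_map.1 hy
    exact h0 x (Multiset.mem_cons_of_mem hx)

/-- Gauss lemma -/
theorem gauss_le (p : ℕ) [Fact p.Prime] (f : ℤ[X]) :
    ‖(f.leadingCoeff : ℂ_[p])‖ * ((fp p f).roots.map (fun α => max 1 ‖α‖)).prod ≤ 1 := by
  set v : AbsoluteValue ℂ_[p] ℝ := NormedField.toAbsoluteValue ℂ_[p] with hv
  have hva : ∀ x, v x = ‖x‖ := fun x => rfl
  have hna : IsNonarchimedean v := IsUltrametricDist.isNonarchimedean_norm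
  have hs := (IsAlgClosed.splits (fp p f)).eq_prod_roots
  have h1 : (fp p f).gaussNorm v 1 ≤ 1 := by
    obtain ⟨i, hi⟩ := (fp p f).exists_eq_gaussNorm v 1
    rw [hi, one_pow, mul_one, hva, fp, coeff_map]
    exact norm_int_le p _
  have h2 : ∀ s : Multiset ℂ_[p], (s.map (fun α => max 1 ‖α‖)).prod ≤
      ((s.map (fun α => X - C α)).prod).gaussNorm v 1 := by
    intro s
    induction s using Multiset.induction_on with
    | empty =>
      simp only [Multiset.map_zero, Multiset.prod_zero]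
      rw [← C_1, gaussNorm_C, hva, norm_one]
    | cons a s ih =>
      rw [Multiset.map_cons, Multiset.map_cons, Multiset.prod_cons, Multiset.prod_cons,
        gaussNorm_mul hna one_pos]
      have h3 : max 1 ‖a‖ ≤ (X - C a : ℂ_[p][X]).gaussNorm v 1 := by
        apply max_le
        · have := (X - C a : ℂ_[p][X]).le_gaussNorm v zero_le_one 1
          simpa [hva, coeff_X, coeff_C] using this
        · have := (X - C a : ℂ_[p][X]).le_gaussNorm v zero_le_one 0
          simpa [hva, coeff_X, coeff_C] using this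
      refine mul_le_mul h3 ih ?_ (le_trans (by positivity) h3)
      apply Multiset.prod_nonneg
      intro y hy
      obtain ⟨x, hx, rfl⟩ := Multiset.mem_map.1 hy
      positivity
  have h3 : (fp p f).gaussNorm v 1 = ‖(f.leadingCoeff : ℂ_[p])‖ *
      (((fp p f).roots.map (fun α => X - C α)).prod).gaussNorm v 1 := by
    conv_lhs => rw [hs]
    rw [gaussNorm_mul hna one_pos, gaussNorm_C, hva, PadS_lc]
  rw [h3] at h1
  exact le_trans (mul_le_mul_of_nonneg_left (h2 _) (norm_nonneg _)) h1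

theorem PadS_sep (p : ℕ) [Fact p.Prime] (f : ℤ[X]) (hN : 1 ≤ f.natDegree) (hd : f.discr ≠ 0) :
    (fp p f).Separable := by
  have hf0 : f ≠ 0 := by rintro rfl; simp at hN
  apply separable_of_discr
  · rwa [PadS_deg]
  · rw [PadS_discr p f hf0]
    exact PadS_ne p _ hd

theorem PadS_der_ne (p : ℕ) [Fact p.Prime] (f : ℤ[X]) (hN : 1 ≤ f.natDegree) (hd : f.discr ≠ 0)
    (α : ℂ_[p]) (h0 : (fp p f).eval α = 0) : (fp p f).derivative.eval α ≠ 0 := by
  have h := PadS_sep p f hN hd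
  exact h.eval₂_derivative_ne_zero (RingHom.id _) h0

theorem PadS_prod (p : ℕ) [Fact p.Prime] (f : ℤ[X]) (hN : 2 ≤ f.natDegree) :
    ‖(f.leadingCoeff : ℂ_[p])‖ ^ (f.natDegree - 2) *
      ((fp p f).roots.map (fun α => ‖(fp p f).derivative.eval α‖)).prod =
      ‖(f.discr : ℂ_[p])‖ := by
  have hf0 : f ≠ 0 := by rintro rfl; simp at hN
  have h := prod_deriv (f := fp p f) (by rwa [PadS_deg]) (IsAlgClosed.splits (fp p f))
  rw [PadS_lc, PadS_deg, PadS_discr p f hf0] at h
  have h1 := congrArg norm h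
  rw [norm_mul, norm_mul, norm_pow, norm_pow, norm_neg, norm_one, one_pow, one_mul] at h1
  rw [← h1, PadS_normprod]

end aux

theorem ell_le (p : ℕ) [Fact p.Prime] (m : ℕ) (hm : 1 ≤ m) (f : ℤ[X])
    (hmN : m ∣ f.natDegree) (hN : 4 ≤ f.natDegree) (hd : f.discr ≠ 0) (α : ℂ_[p])
    (h0 : (fp p f).eval α = 0) : ((ell p m f α : ℝ) : EReal) ≤ logRadius p m f α := by
  have h1 := PadS_der_ne p f (by omega) hd α h0
  have hm0 : (0 : ℝ) < m := by exact_mod_cast hm
  have key : ∃ c, IsDisc p m f α c ∧ ell p m f α = Real.log ‖c‖ := by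
    rcases le_or_gt ‖α‖ 1 with hα | hα
    · obtain ⟨c, hc, hc1⟩ := disc_integral p m hm f α hα h0 h1
      refine ⟨c, hc, ?_⟩
      have h2 := congrArg Real.log hc1
      rw [Real.log_pow, Real.log_pow] at h2
      unfold ell
      rw [max_eq_left hα, Real.log_one, mul_zero, sub_zero]
      push_cast at h2
      rw [← h2]
      field_simp
    · obtain ⟨c, hc, hc1⟩ := disc_nonintegral p m hm f hmN hN α hα h0 h1
      refine ⟨c, hc, ?_⟩
      have hc0 : ‖c‖ ≠ 0 := norm_ne_zero_iff.mpr hc.1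
      have hα0 : ‖α‖ ≠ 0 := by linarith
      have h2 := congrArg Real.log hc1
      rw [Real.log_mul (pow_ne_zero _ hc0) (pow_ne_zero _ hα0), Real.log_pow, Real.log_pow,
        Real.log_pow] at h2
      unfold ell
      rw [max_eq_right hα.le]
      rw [Nat.cast_sub hN] at h2
      push_cast at h2
      rw [← h2]
      field_simp
      ring
  obtain ⟨c, hc, he⟩ := key
  rw [he]
  unfold logRadius
  exact le_iSup₂_of_le c hc le_rfl

theorem sum_ell (p : ℕ) [Fact p.Prime] (m : ℕ) (hm : 1 ≤ m) (f : ℤ[X])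
    (hN : 4 ≤ f.natDegree) (hd : f.discr ≠ 0) :
    (1 / (m : ℝ)) * (2 * Real.log ‖(f.discr : ℂ_[p])‖ -
      f.natDegree * Real.log ‖(f.leadingCoeff : ℂ_[p])‖) ≤ ((fp p f).roots.map (ell p m f)).sum := by
  have hf0 : f ≠ 0 := by rintro rfl; simp at hN
  have hl : ‖(f.leadingCoeff : ℂ_[p])‖ ≠ 0 :=
    norm_ne_zero_iff.mpr (PadS_ne p _ (leadingCoeff_ne_zero.mpr hf0))
  have hsum : ((fp p f).roots.map (ell p m f)).sum = (1 / (m : ℝ)) *
      (2 * ((fp p f).roots.map (fun α => Real.log ‖(fp p f).derivative.eval α‖)).sum -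
        ((f.natDegree : ℝ) - 4) *
          ((fp p f).roots.map (fun α => Real.log (max 1 ‖α‖))).sum) := by
    have : ell p m f = fun α => (1 / (m : ℝ)) * (2 * Real.log ‖(fp p f).derivative.eval α‖ -
      ((f.natDegree : ℝ) - 4) * Real.log (max 1 ‖α‖)) := rfl
    rw [this, Multiset.sum_map_mul_left, Multiset.sum_map_sub, Multiset.sum_map_mul_left,
      Multiset.sum_map_mul_left]
  rw [hsum]
  have hder : ∀ x ∈ (fp p f).roots, ‖(fp p f).derivative.eval x‖ ≠ 0 := fun x hx =>
    norm_ne_zero_iff.mpr (PadS_der_ne p f (by omega) hd x (isRoot_of_mem_roots hx))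
  have h1 : ((f.natDegree : ℝ) - 2) * Real.log ‖(f.leadingCoeff : ℂ_[p])‖ +
      ((fp p f).roots.map (fun α => Real.log ‖(fp p f).derivative.eval α‖)).sum =
      Real.log ‖(f.discr : ℂ_[p])‖ := by
    rw [← PadS_prod p f (by omega), Real.log_mul (pow_ne_zero _ hl) ?_, Real.log_pow,
      PadS_log _ _ hder, Nat.cast_sub (by omega)]
    · push_cast
      ring
    · intro h
      rw [Multiset.prod_eq_zero_iff, Multiset.mem_map] at h
      obtain ⟨x, hx, hx0⟩ := h
      exact hder x hx hx0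
  have hmx : ∀ x ∈ (fp p f).roots, max 1 ‖x‖ ≠ 0 := fun x _ => by positivity
  have h2 : Real.log ‖(f.leadingCoeff : ℂ_[p])‖ +
      ((fp p f).roots.map (fun α => Real.log (max 1 ‖α‖))).sum ≤ 0 := by
    rw [← PadS_log _ _ hmx, ← Real.log_mul hl]
    · exact Real.log_nonpos (mul_nonneg (norm_nonneg _) (Multiset.prod_nonneg (by
        intro y hy
        obtain ⟨x, hx, rfl⟩ := Multiset.mem_map.1 hy
        positivity))) (gauss_le p f)
    · intro h
      rw [Multiset.prod_eq_zero_iff, Multiset.mem_map] at h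
      obtain ⟨x, hx, hx0⟩ := h
      exact hmx x hx hx0
  apply mul_le_mul_of_nonneg_left _ (by positivity)
  have hN' : (4 : ℝ) ≤ f.natDegree := by exact_mod_cast hN
  set S1 := ((fp p f).roots.map (fun α => Real.log ‖(fp p f).derivative.eval α‖)).sum with hS1
  set S2 := ((fp p f).roots.map (fun α => Real.log (max 1 ‖α‖))).sum with hS2
  nlinarith [mul_nonneg (sub_nonneg.mpr hN') (neg_nonneg.mpr h2)]

theorem ell_zero (p : ℕ) [Fact p.Prime] (m : ℕ) (hm : 1 ≤ m) (f : ℤ[X])
    (hN : 4 ≤ f.natDegree) (hp : ¬ (p : ℤ) ∣ f.leadingCoeff * f.discr) (α : ℂ_[p])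
    (h0 : (fp p f).eval α = 0) : 0 ≤ ell p m f α := by
  classical
  have hf0 : f ≠ 0 := by rintro rfl; simp at hN
  have hl : ‖(f.leadingCoeff : ℂ_[p])‖ = 1 :=
    PadS_norm_one p _ (fun h => hp (Dvd.dvd.mul_right h _))
  have hd : ‖(f.discr : ℂ_[p])‖ = 1 := PadS_norm_one p _ (fun h => hp (Dvd.dvd.mul_left h _))
  have hfp0 : fp p f ≠ 0 := by
    rw [ne_eq, ← leadingCoeff_eq_zero, PadS_lc]
    exact PadS_ne p _ (leadingCoeff_ne_zero.mpr hf0)
  have hmem : ∀ β, (fp p f).eval β = 0 → β ∈ (fp p f).roots := fun β hβ => by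
    rw [mem_roots hfp0]
    exact hβ
  have hint : ∀ β, (fp p f).eval β = 0 → ‖β‖ ≤ 1 := by
    intro β hβ
    have h1 := gauss_le p f
    rw [hl, one_mul, ← Multiset.cons_erase (hmem β hβ), Multiset.map_cons,
      Multiset.prod_cons] at h1
    have h2 : 1 ≤ (((fp p f).roots.erase β).map (fun α => max 1 ‖α‖)).prod := by
      have := PadS_prod_le ((fp p f).roots.erase β) (fun _ => (1 : ℝ)) (fun α => max 1 ‖α‖)
        (fun _ _ => zero_le_one) (fun _ _ => le_max_left _ _)
      simpa using this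
    have h3 : ‖β‖ ≤ max 1 ‖β‖ := le_max_right _ _
    have h4 : (0 : ℝ) ≤ max 1 ‖β‖ := by positivity
    nlinarith
  have hder : 1 ≤ ‖(fp p f).derivative.eval α‖ := by
    have h1 := PadS_prod p f (by omega)
    rw [hl, hd, one_pow, one_mul, ← Multiset.cons_erase (hmem α h0), Multiset.map_cons,
      Multiset.prod_cons] at h1
    have h2 : (((fp p f).roots.erase α).map (fun α => ‖(fp p f).derivative.eval α‖)).prod ≤ 1 := by
      have := PadS_prod_le ((fp p f).roots.erase α)
        (fun α => ‖(fp p f).derivative.eval α‖) (fun _ => (1 : ℝ))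
        (fun _ _ => norm_nonneg _) (fun x hx => deriv_norm_le p f x
          (hint x (isRoot_of_mem_roots (Multiset.mem_of_mem_erase hx))))
      simpa using this
    have h4 : (0 : ℝ) ≤ ‖(fp p f).derivative.eval α‖ := norm_nonneg _
    nlinarith
  unfold ell
  rw [max_eq_left (hint α h0), Real.log_one, mul_zero, sub_zero]
  have := Real.log_nonneg hder
  positivity

/-- product formula -/
theorem prod_formula (n : ℤ) (hn : n ≠ 0) (P : Finset Nat.Primes)
    (hP : ∀ p : Nat.Primes, ((p : ℕ) : ℤ) ∣ n → p ∈ P) :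
    ∑ p ∈ P, (haveI : Fact (p : ℕ).Prime := ⟨p.2⟩; Real.log ‖(n : ℂ_[p])‖) = -Real.log |(n : ℝ)| := by
  have hn' : n.natAbs ≠ 0 := Int.natAbs_ne_zero.mpr hn
  have h1 : ∀ p : Nat.Primes, (haveI : Fact (p : ℕ).Prime := ⟨p.2⟩;
      Real.log ‖(n : ℂ_[p])‖) = -((n.natAbs.factorization p : ℝ) * Real.log p) := by
    intro p
    have : Fact (p : ℕ).Prime := ⟨p.2⟩
    change Real.log ‖(n : ℂ_[p])‖ = _
    rw [PadS_norm_int]
    have h2 : ‖(n : ℚ_[p])‖ = ((p : ℕ) : ℝ) ^ (-(padicValInt p n : ℤ)) := by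
      rw [show ((n : ℚ_[p])) = (((n : ℚ)) : ℚ_[p]) by push_cast; rfl, Padic.eq_padicNorm]
      rw [padicNorm.eq_zpow_of_nonzero (by exact_mod_cast hn)]
      push_cast
      rw [padicValRat.of_int]
    rw [h2, Real.log_zpow, padicValInt, ← Nat.factorization_def _ p.2]
    push_cast
    ring
  rw [Finset.sum_congr rfl (fun p _ => h1 p), Finset.sum_neg_distrib]
  congr 1
  have h3 : |(n : ℝ)| = (n.natAbs : ℝ) := by
    rw [Nat.cast_natAbs]
    push_cast
    rfl
  rw [h3, Real.log_nat_eq_sum_factorization, Finsupp.sum]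
  have h4 : ∑ x ∈ P, (n.natAbs.factorization x : ℝ) * Real.log (x : ℕ) =
      ∑ q ∈ P.map ⟨fun x : Nat.Primes => (x : ℕ), Subtype.val_injective⟩,
        (n.natAbs.factorization q : ℝ) * Real.log q := by
    rw [Finset.sum_map]
    rfl
  rw [h4]
  symm
  apply Finset.sum_subset
  · intro q hq
    rw [Nat.support_factorization, Nat.mem_primeFactors] at hq
    rw [Finset.mem_map]
    exact ⟨⟨q, hq.1⟩, hP ⟨q, hq.1⟩ (Int.natCast_dvd.mpr hq.2.1), rfl⟩
  · intro q _ hq
    rw [Finsupp.notMem_support_iff.mp hq]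
    simp

end SzBF
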