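import Pool.Agent.SzBF.Mx

/-!
Partial fractions.
-/

open Polynomial

namespace SzBF

private theorem cpx_eq_nodal (f : ℤ[X]) (hN : 1 ≤ f.natDegree) (hd : f.discr ≠ 0) :
    cpx f = C (f.leadingCoeff : ℂ) * Lagrange.nodal (rts f) id := by
  have h := (IsAlgClosed.splits (cpx f)).eq_prod_roots
  rw [roots_eq_val f hN hd, cpx_leadingCoeff] at h
  conv_lhs => rw [h]
  congr 1

/-- `z^k / f(z) = sum over the roots of α^k / (f'(α) (z - α))` for `k < N` -/
theorem par_frac (f : ℤ[X]) (hN : 1 ≤ f.natDegree) (hd : f.discr ≠ 0) (k : ℕ)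
    (hk : k < f.natDegree) (z : ℂ) (hz : (cpx f).eval z ≠ 0) :
    z ^ k / (cpx f).eval z = ∑ α ∈ rts f, α ^ k / ((cpx f).derivative.eval α * (z - α)) := by
  have hf0 : f ≠ 0 := by rintro rfl; simp at hN
  have hlc : (f.leadingCoeff : ℂ) ≠ 0 := by
    exact_mod_cast leadingCoeff_ne_zero.mpr hf0
  have hnod := cpx_eq_nodal f hN hd
  have hne : ∀ α ∈ rts f, z ≠ id α := by
    intro α hα h
    apply hz
    rw [h]
    exact eval_rts f hα
  have hinj : Set.InjOn (id : ℂ → ℂ) (rts f : Set ℂ) := Function.injective_id.injOn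
  have hdeg : ((X : ℂ[X]) ^ k).degree < (rts f).card := by
    rw [degree_X_pow, card_rts f hN hd]
    exact_mod_cast hk
  have h1 := Lagrange.eq_interpolate (f := (X : ℂ[X]) ^ k) hinj hdeg
  have h2 := congrArg (eval z) h1
  rw [Lagrange.eval_interpolate_not_at_node _ hne, eval_pow, eval_X] at h2
  have h3 : (cpx f).eval z = (f.leadingCoeff : ℂ) * (Lagrange.nodal (rts f) id).eval z := by
    conv_lhs => rw [hnod]
    rw [eval_mul, eval_C]
  have hn0 : (Lagrange.nodal (rts f) id).eval z ≠ 0 := by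
    intro h
    apply hz
    rw [h3, h, mul_zero]
  rw [h2, h3, mul_comm (f.leadingCoeff : ℂ), mul_div_mul_left _ _ hn0, Finset.sum_div]
  refine Finset.sum_congr rfl fun α hα => ?_
  have h4 : (cpx f).derivative.eval α =
      (f.leadingCoeff : ℂ) * (Lagrange.nodal (rts f) id).derivative.eval α := by
    conv_lhs => rw [hnod]
    rw [derivative_C_mul, eval_mul, eval_C]
  have h5 := Lagrange.nodalWeight_eq_eval_derivative_nodal (s := rts f) (v := (id : ℂ → ℂ)) hα
  rw [h5, h4]
  simp only [id, eval_pow, eval_X]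
  rw [div_eq_mul_inv, div_eq_mul_inv, mul_inv, mul_inv]
  ring

theorem inv_nF_le (f : ℤ[X]) (hN : 2 ≤ f.natDegree) (hd : f.discr ≠ 0) (z : ℂ) :
    (nF f z)⁻¹ ≤ ∑ α ∈ rts f, (nD f α)⁻¹ * G α z := by
  have hmz := one_le_mx z
  have hnD : ∀ α ∈ rts f, 0 < nD f α := fun α hα => nD_pos f hN hd α hα
  have hG : ∀ α, 0 ≤ G α z := by
    intro α
    have := one_le_mx α
    unfold G
    positivity
  by_cases hz : (cpx f).eval z = 0
  · have : nF f z = 0 := by unfold nF; rw [hz, norm_zero, zero_div]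
    rw [this, inv_zero]
    exact Finset.sum_nonneg fun α hα => mul_nonneg (inv_nonneg.mpr (hnD α hα).le) (hG α)
  have hne : ∀ α ∈ rts f, z ≠ α := by
    intro α hα h
    apply hz
    rw [h]
    exact eval_rts f hα
  have hfz : 0 < ‖(cpx f).eval z‖ := norm_pos_iff.mpr hz
  have hterm : ∀ α ∈ rts f, (nD f α)⁻¹ * G α z =
      mx α ^ (f.natDegree - 2) * mx α * mx z / (‖(cpx f).derivative.eval α‖ * ‖z - α‖) := by
    intro α hα
    unfold nD G
    rw [inv_div, div_mul_div_comm]
    ring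
  have hpow : ∀ α : ℂ, mx α ^ (f.natDegree - 2) * mx α = mx α ^ (f.natDegree - 1) := by
    intro α
    rw [← pow_succ]
    congr 1
    omega
  have hinv : (nF f z)⁻¹ = mx z ^ f.natDegree / ‖(cpx f).eval z‖ := by
    unfold nF
    rw [inv_div]
  rw [hinv]
  rcases le_or_gt ‖z‖ 1 with hle | hgt
  · have hmx : mx z = 1 := max_eq_left hle
    have h1 := par_frac f (by omega) hd 0 (by omega) z hz
    rw [pow_zero] at h1
    have h2 : ‖1 / (cpx f).eval z‖ ≤ _ := (congrArg norm h1).le.trans (norm_sum_le _ _)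
    rw [norm_div, norm_one] at h2
    rw [hmx, one_pow]
    refine h2.trans (Finset.sum_le_sum fun α hα => ?_)
    rw [hterm α hα, hmx, mul_one, norm_div, pow_zero, norm_one, norm_mul]
    refine div_le_div_of_nonneg_right ?_ (by positivity)
    rw [hpow]
    exact one_le_pow₀ (one_le_mx α)
  · have hmx : mx z = ‖z‖ := max_eq_right hgt.le
    have h1 := par_frac f (by omega) hd (f.natDegree - 1) (by omega) z hz
    have h2 : ‖z ^ (f.natDegree - 1) / (cpx f).eval z‖ ≤ _ :=
      (congrArg norm h1).le.trans (norm_sum_le _ _)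
    rw [norm_div, norm_pow] at h2
    rw [hmx]
    have h3 : ‖z‖ ^ f.natDegree / ‖(cpx f).eval z‖ =
        ‖z‖ * (‖z‖ ^ (f.natDegree - 1) / ‖(cpx f).eval z‖) := by
      have : ‖z‖ ^ f.natDegree = ‖z‖ * ‖z‖ ^ (f.natDegree - 1) := by
        rw [← pow_succ']; congr 1; omega
      rw [this, mul_div_assoc]
    rw [h3]
    refine (mul_le_mul_of_nonneg_left h2 (norm_nonneg z)).trans ?_
    rw [Finset.mul_sum]
    refine Finset.sum_le_sum fun α hα => ?_
    rw [hterm α hα, hmx, norm_div, norm_pow, norm_mul, hpow, ← mul_div_assoc]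
    refine div_le_div_of_nonneg_right ?_ (by positivity)
    rw [mul_comm]
    exact mul_le_mul_of_nonneg_right (pow_le_pow_left₀ (norm_nonneg _) (norm_le_mx α) _)
      (norm_nonneg z)

end SzBF
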