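import Pool.Agent.SzBF.ParF
import Pool.Agent.SzBF.GInt

/-!
Integrals of the negative powers of `|F|`.
-/

open Polynomial MeasureTheory

namespace SzBF

theorem ti_measurable_mx : Measurable mx := by
  unfold mx
  exact measurable_const.max measurable_norm

theorem ti_measurable_nF (f : ℤ[X]) : Measurable (nF f) := by
  unfold nF
  exact ((cpx f).continuous.norm.measurable).div (ti_measurable_mx.pow_const _)

theorem ti_nF_nonneg (f : ℤ[X]) (z : ℂ) : 0 ≤ nF f z := by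
  unfold nF
  have hm : 0 < mx z := lt_of_lt_of_le one_pos (one_le_mx z)
  positivity

theorem ti_G_nonneg (α z : ℂ) : 0 ≤ G α z := by
  unfold G
  have hm : 0 < mx z := lt_of_lt_of_le one_pos (one_le_mx z)
  have hm' : 0 < mx α := lt_of_lt_of_le one_pos (one_le_mx α)
  positivity

/-- `(sum x_a)^b ≤ n^2 sum x_a^b` for `0 ≤ b ≤ 2` and `n ≥ 1` terms -/
theorem ti_sum_rpow_le {ι : Type*} (s : Finset ι) (hs : 1 ≤ s.card) (x : ι → ℝ)
    (hx : ∀ i ∈ s, 0 ≤ x i) (b : ℝ) (hb : 0 ≤ b) (hb2 : b ≤ 2) :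
    (∑ i ∈ s, x i) ^ b ≤ (s.card : ℝ) ^ 2 * ∑ i ∈ s, x i ^ b := by
  have hne : s.Nonempty := Finset.card_pos.mp hs
  obtain ⟨i₀, hi₀, hmax⟩ := s.exists_max_image x hne
  have h1 : ∑ i ∈ s, x i ≤ (s.card : ℝ) * x i₀ := by
    have := Finset.sum_le_card_nsmul s x (x i₀) hmax
    rwa [nsmul_eq_mul] at this
  have h0 : 0 ≤ ∑ i ∈ s, x i := Finset.sum_nonneg hx
  have hc : (1 : ℝ) ≤ (s.card : ℝ) := by exact_mod_cast hs
  have hc0 : (0 : ℝ) ≤ (s.card : ℝ) := by linarith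
  have h2 : (s.card : ℝ) ^ b ≤ (s.card : ℝ) ^ 2 := by
    have := Real.rpow_le_rpow_of_exponent_le hc hb2
    rwa [Real.rpow_two] at this
  have h3 : x i₀ ^ b ≤ ∑ i ∈ s, x i ^ b :=
    Finset.single_le_sum (f := fun i => x i ^ b) (fun i hi => Real.rpow_nonneg (hx i hi) b) hi₀
  calc (∑ i ∈ s, x i) ^ b ≤ ((s.card : ℝ) * x i₀) ^ b := Real.rpow_le_rpow h0 h1 hb
    _ = (s.card : ℝ) ^ b * x i₀ ^ b := Real.mul_rpow hc0 (hx i₀ hi₀)
    _ ≤ (s.card : ℝ) ^ 2 * ∑ i ∈ s, x i ^ b :=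
      mul_le_mul h2 h3 (Real.rpow_nonneg (hx i₀ hi₀) b) (by positivity)

theorem ti_EE_nonneg (f : ℤ[X]) (H : ℝ) (hH0 : 0 ≤ H) : 0 ≤ EE f H := by
  unfold EE QQ
  positivity

theorem ti_pt (f : ℤ[X]) (hN : 2 ≤ f.natDegree) (hd : f.discr ≠ 0) (H : ℝ) (hH1 : 1 ≤ H)
    (hH : ∀ i, |(f.coeff i : ℝ)| ≤ H) (b : ℝ) (hb : 0 ≤ b) (hb2 : b ≤ 2) (z : ℂ) :
    (QQ f.natDegree H / nF f z) ^ b ≤
      (f.natDegree : ℝ) ^ 2 * EE f H ^ b * ∑ α ∈ rts f, G α z ^ b := by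
  have hH0 : 0 ≤ H := by linarith
  have hQ : 0 ≤ QQ f.natDegree H := by unfold QQ; positivity
  have hE := ti_EE_nonneg f H hH0
  have h1 : QQ f.natDegree H / nF f z ≤ EE f H * ∑ α ∈ rts f, G α z := by
    rw [div_eq_mul_inv]
    refine (mul_le_mul_of_nonneg_left (inv_nF_le f hN hd z) hQ).trans ?_
    rw [Finset.mul_sum, Finset.mul_sum]
    refine Finset.sum_le_sum fun α hα => ?_
    rw [← mul_assoc, ← div_eq_mul_inv]
    exact mul_le_mul_of_nonneg_right (QQ_div_nD_le f hN hd H hH α hα) (ti_G_nonneg α z)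
  have h2 : 0 ≤ QQ f.natDegree H / nF f z := div_nonneg hQ (ti_nF_nonneg f z)
  have hcard := card_rts f (by omega) hd
  have h3 := ti_sum_rpow_le (rts f) (by omega) (fun α => G α z) (fun α _ => ti_G_nonneg α z) b hb hb2
  rw [hcard] at h3
  calc (QQ f.natDegree H / nF f z) ^ b ≤ (EE f H * ∑ α ∈ rts f, G α z) ^ b :=
        Real.rpow_le_rpow h2 h1 hb
    _ = EE f H ^ b * (∑ α ∈ rts f, G α z) ^ b :=
        Real.mul_rpow hE (Finset.sum_nonneg fun α _ => ti_G_nonneg α z)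
    _ ≤ EE f H ^ b * ((f.natDegree : ℝ) ^ 2 * ∑ α ∈ rts f, G α z ^ b) :=
        mul_le_mul_of_nonneg_left h3 (Real.rpow_nonneg hE b)
    _ = (f.natDegree : ℝ) ^ 2 * EE f H ^ b * ∑ α ∈ rts f, G α z ^ b := by ring

theorem T_int (f : ℤ[X]) (hN : 2 ≤ f.natDegree) (hd : f.discr ≠ 0) (H : ℝ) (hH1 : 1 ≤ H)
    (hH : ∀ i, |(f.coeff i : ℝ)| ≤ H) (a b : ℝ) (ha : 0 ≤ a) (hb : 0 ≤ b) (hab : a + b < 2) :
    Integrable (fun z : ℂ => mx z ^ (a - 4) * (QQ f.natDegree H / nF f z) ^ b) ∧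
      ∫ z : ℂ, mx z ^ (a - 4) * (QQ f.natDegree H / nF f z) ^ b ≤
        (f.natDegree : ℝ) ^ 3 * EE f H ^ b * (24 * Real.pi / (2 - a - b)) := by
  have hH0 : 0 ≤ H := by linarith
  have hQ : 0 ≤ QQ f.natDegree H := by unfold QQ; positivity
  have hE := ti_EE_nonneg f H hH0
  have hEb : 0 ≤ EE f H ^ b := Real.rpow_nonneg hE b
  have hcard := card_rts f (by omega) hd
  set C : ℝ := (f.natDegree : ℝ) ^ 2 * EE f H ^ b with hC
  have hC0 : 0 ≤ C := by positivity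
  have hint : Integrable (fun z : ℂ => C * ∑ α ∈ rts f, mx z ^ (a - 4) * G α z ^ b) := by
    refine Integrable.const_mul ?_ _
    exact integrable_finsetSum _ fun α _ => (G_int α a b ha hb hab).1
  have hle : ∀ z : ℂ, mx z ^ (a - 4) * (QQ f.natDegree H / nF f z) ^ b ≤
      C * ∑ α ∈ rts f, mx z ^ (a - 4) * G α z ^ b := by
    intro z
    have hm : 0 < mx z := lt_of_lt_of_le one_pos (one_le_mx z)
    have hm' : 0 ≤ mx z ^ (a - 4) := Real.rpow_nonneg hm.le _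
    refine (mul_le_mul_of_nonneg_left
      (ti_pt f hN hd H hH1 hH b hb (by linarith) z) hm').trans (le_of_eq ?_)
    rw [← hC, ← Finset.mul_sum]
    ring
  have hnn : ∀ z : ℂ, 0 ≤ mx z ^ (a - 4) * (QQ f.natDegree H / nF f z) ^ b := by
    intro z
    have hm : 0 < mx z := lt_of_lt_of_le one_pos (one_le_mx z)
    exact mul_nonneg (Real.rpow_nonneg hm.le _)
      (Real.rpow_nonneg (div_nonneg hQ (ti_nF_nonneg f z)) _)
  have hI : Integrable (fun z : ℂ => mx z ^ (a - 4) * (QQ f.natDegree H / nF f z) ^ b) := by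
    refine hint.mono' ?_ (Filter.Eventually.of_forall fun z => ?_)
    · exact ((ti_measurable_mx.pow_const _).mul
        ((measurable_const.div (ti_measurable_nF f)).pow_const _)).aestronglyMeasurable
    · rw [Real.norm_of_nonneg (hnn z)]
      exact hle z
  refine ⟨hI, (integral_mono hI hint hle).trans ?_⟩
  rw [integral_const_mul, integral_finsetSum _ fun α _ => (G_int α a b ha hb hab).1]
  have h4 : ∑ α ∈ rts f, ∫ z : ℂ, mx z ^ (a - 4) * G α z ^ b ≤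
      (f.natDegree : ℝ) * (24 * Real.pi / (2 - a - b)) := by
    have := Finset.sum_le_card_nsmul (rts f) (fun α => ∫ z : ℂ, mx z ^ (a - 4) * G α z ^ b)
      (24 * Real.pi / (2 - a - b)) fun α _ => (G_int α a b ha hb hab).2
    rwa [hcard, nsmul_eq_mul] at this
  refine (mul_le_mul_of_nonneg_left h4 hC0).trans (le_of_eq ?_)
  rw [hC]
  ring

end SzBF
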