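import Pool.Agent.SzBF.Dens
import Pool.Agent.SzBF.TInt

/-!
Integrability of the potentials; upper bound of the energy.
-/

open Polynomial MeasureTheory

namespace SzBF

variable {m : ℕ} {f : ℤ[X]} {e : (j : ℕ) → Fin (f.natDegree * j / m - 1) → ℂ[X]} {H : ℝ}

theorem Pot_genus (D : Data m f e H) : 1 ≤ genus m f.natDegree := by
  unfold genus
  have h1 := D.hm
  have h2 := D.hN
  have h3 : 1 * 2 ≤ (m - 1) * (f.natDegree - 2) := Nat.mul_le_mul (by omega) (by omega)
  omega

theorem Pot_mass (D : Data m f e H) : Integrable (rho m f e) ∧ ∫ z, rho m f e z = 1 :=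
  rho_mass m D.hm f D.hmN (by have := D.hN; omega) (Pot_genus D) e D.he

theorem Pot_ae (D : Data m f e H) : ∀ᵐ z : ℂ, (cpx f).eval z ≠ 0 := by
  have hfin : {z : ℂ | ¬ (cpx f).eval z ≠ 0}.Finite := by
    refine ((cpx f).roots.toFinset.finite_toSet).subset fun z hz => ?_
    simp only [Finset.mem_coe, Multiset.mem_toFinset]
    rw [mem_roots (Dens_cpx_ne f D.hN)]
    simpa using hz
  exact hfin.measure_zero _

theorem Pot_m (D : Data m f e H) : (2 : ℝ) ≤ m := by exact_mod_cast D.hm

theorem Pot_EE (D : Data m f e H) : 0 < EE f H := by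
  unfold EE
  have h1 := Dens_QQ_pos f.natDegree H D.hH1
  have h2 : (0 : ℝ) < |(f.discr : ℝ)| := abs_pos.mpr (by exact_mod_cast D.hd)
  have h3 : (0 : ℝ) < f.natDegree := by
    have := D.hN
    exact_mod_cast (by omega : 0 < f.natDegree)
  positivity

theorem Pot_nF (z : ℂ) (hz : (cpx f).eval z ≠ 0) : 0 < nF f z := by
  have hmx := Dens_mx_pos z
  have hpos : 0 < ‖(cpx f).eval z‖ := norm_pos_iff.2 hz
  unfold nF
  positivity

theorem Pot_rat (D : Data m f e H) (z : ℂ) (hz : (cpx f).eval z ≠ 0) :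
    1 ≤ QQ f.natDegree H / nF f z := by
  rw [le_div_iff₀ (Pot_nF z hz), one_mul]
  exact nF_le f H D.hH z

theorem Pot_log_mx_nonneg (z : ℂ) : 0 ≤ Real.log (mx z) := Real.log_nonneg (one_le_mx z)

theorem int_log_mx (D : Data m f e H) :
    Integrable (fun z => Real.log (mx z) * rho m f e z) := by
  have hm := Pot_m D
  have hm0 : (0 : ℝ) < m := by linarith
  have hd : 0 < 1 / (m : ℝ) := by positivity
  have h2m : 2 / (m : ℝ) ≤ 1 := by rw [div_le_one hm0]; exact hm
  have e2 : 2 / (m : ℝ) = 2 * (1 / m) := by ring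
  obtain ⟨h1, -⟩ := T_int f (by have := D.hN; omega) D.hd H D.hH1 D.hH (1 / m) (2 - 2 / m)
    hd.le (by linarith) (by linarith)
  refine (h1.const_mul (m * ((f.natDegree : ℝ) ^ 3 / Real.pi))).mono' ?_ ?_
  · exact ((Real.measurable_log.comp ti_measurable_mx).aestronglyMeasurable).mul
      (Pot_mass D).1.aestronglyMeasurable
  · refine Filter.Eventually.of_forall fun z => ?_
    have hmx := Dens_mx_pos z
    have hr := rho_nonneg m f e z
    rw [Real.norm_of_nonneg (mul_nonneg (Pot_log_mx_nonneg z) hr)]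
    have hl : Real.log (mx z) ≤ m * mx z ^ (1 / (m : ℝ)) := by
      have := Real.log_le_rpow_div hmx.le hd
      rw [div_div_eq_mul_div, div_one] at this
      linarith
    have hrho := rho_le m D.hm f D.hmN D.hN D.hd e D.he H D.hH1 D.hH z
    calc Real.log (mx z) * rho m f e z
        ≤ (m * mx z ^ (1 / (m : ℝ))) * ((f.natDegree : ℝ) ^ 3 / Real.pi * mx z ^ (-4 : ℝ) *
            (QQ f.natDegree H / nF f z) ^ (2 - 2 / (m : ℝ))) :=
          mul_le_mul hl hrho hr (by positivity)
      _ = m * ((f.natDegree : ℝ) ^ 3 / Real.pi) * ((mx z ^ (1 / (m : ℝ)) * mx z ^ (-4 : ℝ)) *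
            (QQ f.natDegree H / nF f z) ^ (2 - 2 / (m : ℝ))) := by ring
      _ = _ := by
          rw [← Real.rpow_add hmx]
          congr 3

theorem int_X (D : Data m f e H) :
    Integrable (fun z => (QQ f.natDegree H / nF f z) ^ (1 / (m : ℝ)) * rho m f e z) ∧
      ∫ z, (QQ f.natDegree H / nF f z) ^ (1 / (m : ℝ)) * rho m f e z ≤
        24 * m * (f.natDegree : ℝ) ^ 6 * EE f H ^ (2 - 1 / (m : ℝ)) := by
  have hm := Pot_m D
  have hm0 : (0 : ℝ) < m := by linarith
  have hd : 0 < 1 / (m : ℝ) := by positivity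
  have h1m : 1 / (m : ℝ) ≤ 1 := by rw [div_le_one hm0]; linarith
  have hQ := Dens_QQ_pos f.natDegree H D.hH1
  obtain ⟨h1, h2⟩ := T_int f (by have := D.hN; omega) D.hd H D.hH1 D.hH 0 (2 - 1 / m)
    le_rfl (by linarith) (by linarith)
  have hnn : ∀ z, 0 ≤ (QQ f.natDegree H / nF f z) ^ (1 / (m : ℝ)) * rho m f e z := fun z =>
    mul_nonneg (Real.rpow_nonneg (div_nonneg hQ.le (ti_nF_nonneg f z)) _) (rho_nonneg m f e z)
  have hle : ∀ z, (QQ f.natDegree H / nF f z) ^ (1 / (m : ℝ)) * rho m f e z ≤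
      (f.natDegree : ℝ) ^ 3 / Real.pi * (mx z ^ ((0 : ℝ) - 4) *
        (QQ f.natDegree H / nF f z) ^ (2 - 1 / (m : ℝ))) := by
    intro z
    have hmx := Dens_mx_pos z
    have hq0 : 0 ≤ QQ f.natDegree H / nF f z := div_nonneg hQ.le (ti_nF_nonneg f z)
    have hrho := rho_le m D.hm f D.hmN D.hN D.hd e D.he H D.hH1 D.hH z
    calc (QQ f.natDegree H / nF f z) ^ (1 / (m : ℝ)) * rho m f e z
        ≤ (QQ f.natDegree H / nF f z) ^ (1 / (m : ℝ)) *
            ((f.natDegree : ℝ) ^ 3 / Real.pi * mx z ^ (-4 : ℝ) *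
            (QQ f.natDegree H / nF f z) ^ (2 - 2 / (m : ℝ))) :=
          mul_le_mul_of_nonneg_left hrho (Real.rpow_nonneg hq0 _)
      _ = (f.natDegree : ℝ) ^ 3 / Real.pi * (mx z ^ (-4 : ℝ) *
            ((QQ f.natDegree H / nF f z) ^ (1 / (m : ℝ)) *
            (QQ f.natDegree H / nF f z) ^ (2 - 2 / (m : ℝ)))) := by ring
      _ = _ := by
          have e2 : 2 / (m : ℝ) = 2 * (1 / m) := by ring
          rw [← Real.rpow_add_of_nonneg hq0 hd.le (by rw [e2]; linarith)]
          have e3 : 1 / (m : ℝ) + (2 - 2 / m) = 2 - 1 / m := by rw [e2]; ring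
          rw [e3, zero_sub]
  have hI : Integrable (fun z => (QQ f.natDegree H / nF f z) ^ (1 / (m : ℝ)) * rho m f e z) := by
    refine (h1.const_mul ((f.natDegree : ℝ) ^ 3 / Real.pi)).mono' ?_ ?_
    · exact (((measurable_const.div (ti_measurable_nF f)).pow_const _).aestronglyMeasurable).mul
        (Pot_mass D).1.aestronglyMeasurable
    · refine Filter.Eventually.of_forall fun z => ?_
      rw [Real.norm_of_nonneg (hnn z)]
      exact hle z
  refine ⟨hI, (integral_mono hI (h1.const_mul _) hle).trans ?_⟩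
  rw [integral_const_mul]
  refine (mul_le_mul_of_nonneg_left h2 (by positivity)).trans (le_of_eq ?_)
  have hpi := Real.pi_pos
  have e4 : (2 : ℝ) - 0 - (2 - 1 / m) = 1 / m := by ring
  rw [e4]
  field_simp

theorem Pot_log_rat (D : Data m f e H) (z : ℂ) :
    |Real.log (QQ f.natDegree H / nF f z)| ≤ m * (QQ f.natDegree H / nF f z) ^ (1 / (m : ℝ)) := by
  have hm := Pot_m D
  have hm0 : (0 : ℝ) < m := by linarith
  have hQ := Dens_QQ_pos f.natDegree H D.hH1
  have hq0 : 0 ≤ QQ f.natDegree H / nF f z := div_nonneg hQ.le (ti_nF_nonneg f z)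
  by_cases hz : (cpx f).eval z = 0
  · have : nF f z = 0 := by
      unfold nF
      rw [hz, norm_zero, zero_div]
    rw [this, div_zero, Real.log_zero, abs_zero]
    positivity
  · have h1 := Pot_rat D z hz
    rw [abs_of_nonneg (Real.log_nonneg h1)]
    have := Real.log_le_rpow_div hq0 (ε := 1 / (m : ℝ)) (by positivity)
    rw [div_div_eq_mul_div, div_one] at this
    linarith

theorem Pot_int_rat (D : Data m f e H) :
    Integrable (fun z => Real.log (QQ f.natDegree H / nF f z) * rho m f e z) := by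
  refine ((int_X D).1.const_mul (m : ℝ)).mono' ?_ ?_
  · exact ((Real.measurable_log.comp
      (measurable_const.div (ti_measurable_nF f))).aestronglyMeasurable).mul
      (Pot_mass D).1.aestronglyMeasurable
  · refine Filter.Eventually.of_forall fun z => ?_
    have hr := rho_nonneg m f e z
    rw [norm_mul, Real.norm_eq_abs, Real.norm_of_nonneg hr, ← mul_assoc]
    exact mul_le_mul_of_nonneg_right (Pot_log_rat D z) hr

theorem Pot_log_f (D : Data m f e H) (z : ℂ) (hz : (cpx f).eval z ≠ 0) :
    Real.log ‖(cpx f).eval z‖ = Real.log (QQ f.natDegree H) -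
      Real.log (QQ f.natDegree H / nF f z) + f.natDegree * Real.log (mx z) := by
  have hQ := Dens_QQ_pos f.natDegree H D.hH1
  have hn := Pot_nF z hz
  have hmx := Dens_mx_pos z
  rw [Dens_norm, Real.log_mul hn.ne' (by positivity), Real.log_pow,
    Real.log_div hQ.ne' hn.ne']
  ring

theorem Pot_int_f (D : Data m f e H) :
    Integrable (fun z => Real.log ‖(cpx f).eval z‖ * rho m f e z) ∧
    ∫ z, Real.log ‖(cpx f).eval z‖ * rho m f e z = Real.log (QQ f.natDegree H) -
      (∫ z, Real.log (QQ f.natDegree H / nF f z) * rho m f e z) +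
      f.natDegree * (∫ z, Real.log (mx z) * rho m f e z) := by
  obtain ⟨hr, hr1⟩ := Pot_mass D
  have h1 := hr.const_mul (Real.log (QQ f.natDegree H))
  have h2 := Pot_int_rat D
  have h3 := (int_log_mx D).const_mul (f.natDegree : ℝ)
  have hae : (fun z => Real.log ‖(cpx f).eval z‖ * rho m f e z) =ᵐ[volume]
      fun z => Real.log (QQ f.natDegree H) * rho m f e z -
        Real.log (QQ f.natDegree H / nF f z) * rho m f e z +
        f.natDegree * (Real.log (mx z) * rho m f e z) := by
    filter_upwards [Pot_ae D] with z hz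
    rw [Pot_log_f D z hz]
    ring
  constructor
  · exact ((h1.sub h2).add h3).congr hae.symm
  · have e1 := integral_add (h1.sub h2) h3
    have e2 := integral_sub h1 h2
    simp only [Pi.sub_apply] at e1
    rw [integral_congr_ae hae, e1, e2, integral_const_mul, integral_const_mul, hr1, mul_one]

theorem int_log_f (D : Data m f e H) :
    Integrable (fun z => Real.log ‖(cpx f).eval z‖ * rho m f e z) := (Pot_int_f D).1

theorem Pot_sub_le (α z : ℂ) : ‖α - z‖ ≤ 2 * (mx α * mx z) := by
  have h1 := one_le_mx α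
  have h2 := one_le_mx z
  have h3 := norm_le_mx α
  have h4 := norm_le_mx z
  have h5 := norm_sub_le α z
  nlinarith [mul_nonneg (sub_nonneg.2 h1) (sub_nonneg.2 h2)]

theorem int_log_sub (D : Data m f e H) (α : ℂ) (hα : α ∈ rts f) :
    Integrable (fun s => Real.log ‖α - s‖ * rho m f e s) := by
  have hN := D.hN
  have hQ := Dens_QQ_pos f.natDegree H D.hH1
  obtain ⟨hr, hr1⟩ := Pot_mass D
  have hlc : f.leadingCoeff ≠ 0 := by
    rw [leadingCoeff_ne_zero]
    rintro rfl
    simp at hN
  have hL : (0 : ℝ) < ‖(f.leadingCoeff : ℂ)‖ := norm_pos_iff.2 (by exact_mod_cast hlc)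
  set P : ℝ := ‖(f.leadingCoeff : ℂ)‖ * ∏ β ∈ (rts f).erase α, (2 * mx β) with hP
  have hP0 : 0 < P := by
    refine mul_pos hL (Finset.prod_pos fun β _ => ?_)
    have := Dens_mx_pos β
    positivity
  have hlow : ∀ s : ℂ, (cpx f).eval s ≠ 0 → nF f s ≤ P * ‖α - s‖ := by
    intro s hs
    have hmx := Dens_mx_pos s
    have hmx1 := one_le_mx s
    have h1 := eval_eq_prod f (by omega) D.hd s
    rw [← Finset.mul_prod_erase _ _ hα] at h1
    have h2 : ‖(cpx f).eval s‖ = ‖(f.leadingCoeff : ℂ)‖ *
        (‖α - s‖ * ∏ β ∈ (rts f).erase α, ‖β - s‖) := by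
      rw [h1, norm_mul, norm_mul, norm_prod, norm_sub_rev s α]
      congr 2
      exact Finset.prod_congr rfl fun β _ => norm_sub_rev _ _
    have h3 : ∏ β ∈ (rts f).erase α, ‖β - s‖ ≤
        ∏ β ∈ (rts f).erase α, (2 * mx β * mx s) := by
      refine Finset.prod_le_prod (fun β _ => norm_nonneg _) fun β _ => ?_
      have := Pot_sub_le β s
      linarith
    have h4 : ∏ β ∈ (rts f).erase α, (2 * mx β * mx s) =
        (∏ β ∈ (rts f).erase α, (2 * mx β)) * mx s ^ (f.natDegree - 1) := by
      rw [Finset.prod_mul_distrib, Finset.prod_const, Finset.card_erase_of_mem hα,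
        card_rts f (by omega) D.hd]
    have hpp : 0 ≤ ∏ β ∈ (rts f).erase α, (2 * mx β) := Finset.prod_nonneg fun β _ => by
      have := Dens_mx_pos β
      positivity
    unfold nF
    rw [div_le_iff₀ (by positivity), h2]
    have h5 : mx s ^ (f.natDegree - 1) ≤ mx s ^ f.natDegree :=
      pow_le_pow_right₀ hmx1 (Nat.sub_le _ _)
    calc ‖(f.leadingCoeff : ℂ)‖ * (‖α - s‖ * ∏ β ∈ (rts f).erase α, ‖β - s‖)
        ≤ ‖(f.leadingCoeff : ℂ)‖ * (‖α - s‖ *
            ((∏ β ∈ (rts f).erase α, (2 * mx β)) * mx s ^ f.natDegree)) := by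
          refine mul_le_mul_of_nonneg_left ?_ hL.le
          refine mul_le_mul_of_nonneg_left ?_ (norm_nonneg _)
          rw [h4] at h3
          exact h3.trans (mul_le_mul_of_nonneg_left h5 hpp)
      _ = P * ‖α - s‖ * mx s ^ f.natDegree := by
          rw [hP]
          ring
  set C : ℝ := |Real.log P| + |Real.log (QQ f.natDegree H)| + Real.log 2 + Real.log (mx α) with hC
  have hI : Integrable (fun s => C * rho m f e s + Real.log (mx s) * rho m f e s +
      |Real.log (QQ f.natDegree H / nF f s)| * rho m f e s) := by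
    refine ((hr.const_mul C).add (int_log_mx D)).add ?_
    refine (Pot_int_rat D).norm.congr (Filter.Eventually.of_forall fun s => ?_)
    show ‖Real.log (QQ f.natDegree H / nF f s) * rho m f e s‖ =
      |Real.log (QQ f.natDegree H / nF f s)| * rho m f e s
    rw [norm_mul, Real.norm_eq_abs, Real.norm_of_nonneg (rho_nonneg m f e s)]
  refine hI.mono' ?_ ?_
  · refine AEStronglyMeasurable.mul ?_ hr.aestronglyMeasurable
    exact (Real.measurable_log.comp
      ((measurable_const.sub measurable_id).norm)).aestronglyMeasurable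
  · filter_upwards [Pot_ae D] with s hs
    have hrs := rho_nonneg m f e s
    rw [norm_mul, Real.norm_eq_abs, Real.norm_of_nonneg hrs, ← add_mul, ← add_mul]
    refine mul_le_mul_of_nonneg_right ?_ hrs
    have hn := Pot_nF s hs
    have hlogn : Real.log (nF f s) = Real.log (QQ f.natDegree H) -
        Real.log (QQ f.natDegree H / nF f s) := by
      rw [Real.log_div hQ.ne' hn.ne']
      ring
    have hne : ‖α - s‖ ≠ 0 := by
      intro h0
      have := hlow s hs
      rw [h0, mul_zero] at this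
      linarith
    have hpos : 0 < ‖α - s‖ := lt_of_le_of_ne (norm_nonneg _) (Ne.symm hne)
    have hlog2 : 0 < Real.log 2 := Real.log_pos (by norm_num)
    have hmα := Pot_log_mx_nonneg α
    have hms := Pot_log_mx_nonneg s
    have hmxα := Dens_mx_pos α
    have hmxs := Dens_mx_pos s
    rw [abs_le]
    constructor
    · have h1 := Real.log_le_log hn (hlow s hs)
      rw [Real.log_mul hP0.ne' hne, hlogn] at h1
      have h2 := le_abs_self (Real.log P)
      have h3 := neg_abs_le (Real.log (QQ f.natDegree H))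
      have h4 := le_abs_self (Real.log (QQ f.natDegree H / nF f s))
      rw [hC]
      linarith
    · have h1 := Real.log_le_log hpos (Pot_sub_le α s)
      rw [Real.log_mul (by norm_num) (by positivity), Real.log_mul hmxα.ne' hmxs.ne'] at h1
      have h2 := abs_nonneg (Real.log P)
      have h3 := abs_nonneg (Real.log (QQ f.natDegree H))
      have h4 := abs_nonneg (Real.log (QQ f.natDegree H / nF f s))
      rw [hC]
      linarith

theorem int_logQ (D : Data m f e H) :
    ∫ z, Real.log (QQ f.natDegree H / nF f z) * rho m f e z ≤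
      m * Real.log (24 * m * (f.natDegree : ℝ) ^ 6) + (2 * m - 1) * Real.log (EE f H) := by
  have hm := Pot_m D
  have hm0 : (0 : ℝ) < m := by linarith
  have hN0 : (0 : ℝ) < f.natDegree := by
    have := D.hN
    exact_mod_cast (by omega : 0 < f.natDegree)
  have hE := Pot_EE D
  obtain ⟨hr, hr1⟩ := Pot_mass D
  obtain ⟨hX, hX1⟩ := int_X D
  set t : ℝ := 24 * m * (f.natDegree : ℝ) ^ 6 * EE f H ^ (2 - 1 / (m : ℝ)) with ht
  have ht0 : 0 < t := by positivity
  have hpt : ∀ᵐ z, Real.log (QQ f.natDegree H / nF f z) * rho m f e z ≤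
      m * (Real.log t - 1) * rho m f e z +
      (m / t) * ((QQ f.natDegree H / nF f z) ^ (1 / (m : ℝ)) * rho m f e z) := by
    filter_upwards [Pot_ae D] with z hz
    have hrs := rho_nonneg m f e z
    have h1 := Pot_rat D z hz
    have h0 : 0 < QQ f.natDegree H / nF f z := lt_of_lt_of_le one_pos h1
    have hXp : 0 < (QQ f.natDegree H / nF f z) ^ (1 / (m : ℝ)) := Real.rpow_pos_of_pos h0 _
    have h2 : Real.log (QQ f.natDegree H / nF f z) =
        m * Real.log ((QQ f.natDegree H / nF f z) ^ (1 / (m : ℝ))) := by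
      rw [Real.log_rpow h0]
      field_simp
    have h3 := Real.log_le_sub_one_of_pos (div_pos hXp ht0)
    rw [Real.log_div hXp.ne' ht0.ne'] at h3
    have h4 : Real.log (QQ f.natDegree H / nF f z) ≤
        m * (Real.log t - 1) + (m / t) * (QQ f.natDegree H / nF f z) ^ (1 / (m : ℝ)) := by
      rw [h2]
      have h5 := mul_le_mul_of_nonneg_left h3 hm0.le
      have e5 : (m : ℝ) * ((QQ f.natDegree H / nF f z) ^ (1 / (m : ℝ)) / t - 1) =
        (m / t) * (QQ f.natDegree H / nF f z) ^ (1 / (m : ℝ)) - m := by ring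
      rw [e5] at h5
      linarith
    calc Real.log (QQ f.natDegree H / nF f z) * rho m f e z
        ≤ (m * (Real.log t - 1) + (m / t) * (QQ f.natDegree H / nF f z) ^ (1 / (m : ℝ))) *
            rho m f e z := mul_le_mul_of_nonneg_right h4 hrs
      _ = _ := by ring
  have h6 := integral_mono_ae (Pot_int_rat D)
    ((hr.const_mul (m * (Real.log t - 1))).add (hX.const_mul (m / t))) hpt
  have h7 : ∫ z, (m * (Real.log t - 1) * rho m f e z +
      (m / t) * ((QQ f.natDegree H / nF f z) ^ (1 / (m : ℝ)) * rho m f e z)) =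
      m * (Real.log t - 1) + (m / t) *
        ∫ z, (QQ f.natDegree H / nF f z) ^ (1 / (m : ℝ)) * rho m f e z := by
    rw [integral_add (hr.const_mul _) (hX.const_mul _), integral_const_mul, integral_const_mul,
      hr1, mul_one]
  have h8 : (m / t) * ∫ z, (QQ f.natDegree H / nF f z) ^ (1 / (m : ℝ)) * rho m f e z ≤ m := by
    calc (m / t) * ∫ z, (QQ f.natDegree H / nF f z) ^ (1 / (m : ℝ)) * rho m f e z
        ≤ (m / t) * t := mul_le_mul_of_nonneg_left hX1 (by positivity)
      _ = m := by field_simp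
  have h9 : (m : ℝ) * Real.log t = m * Real.log (24 * m * (f.natDegree : ℝ) ^ 6) +
      (2 * m - 1) * Real.log (EE f H) := by
    rw [ht, Real.log_mul (by positivity) (by positivity), Real.log_rpow hE]
    field_simp
  calc _ ≤ _ := h6
    _ = m * (Real.log t - 1) + (m / t) *
        ∫ z, (QQ f.natDegree H / nF f z) ^ (1 / (m : ℝ)) * rho m f e z := h7
    _ ≤ m * Real.log t := by linarith
    _ = _ := h9

theorem Pot_mono {F G : ℂ → ℝ} (hG : Integrable G) (h0 : 0 ≤ ∫ z, G z) (h : ∀ z, F z ≤ G z) :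
    ∫ z, F z ≤ ∫ z, G z := by
  by_cases hF : Integrable F
  · exact integral_mono hF hG h
  · rw [integral_undef hF]
    exact h0

theorem energy_le (D : Data m f e H) :
    ∫ x : ℂ, (∫ s : ℂ, Real.log ‖x - s‖ * rho m f e s) * rho m f e x ≤
      Real.log 2 + 2 * ∫ z, Real.log (mx z) * rho m f e z := by
  obtain ⟨hr, hr1⟩ := Pot_mass D
  have hI := int_log_mx D
  set M : ℝ := ∫ z, Real.log (mx z) * rho m f e z with hM
  have hM0 : 0 ≤ M := integral_nonneg fun z => mul_nonneg (Pot_log_mx_nonneg z) (rho_nonneg m f e z)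
  have hlog2 : 0 < Real.log 2 := Real.log_pos (by norm_num)
  have hpt : ∀ x s : ℂ, Real.log ‖x - s‖ ≤ Real.log 2 + Real.log (mx x) + Real.log (mx s) := by
    intro x s
    have hmx := Dens_mx_pos x
    have hms := Dens_mx_pos s
    have h1 := Pot_log_mx_nonneg x
    have h2 := Pot_log_mx_nonneg s
    rcases (norm_nonneg (x - s)).eq_or_lt with h0 | h0
    · rw [← h0, Real.log_zero]
      linarith
    · have h3 := Real.log_le_log h0 (Pot_sub_le x s)
      rw [Real.log_mul (by norm_num) (by positivity), Real.log_mul hmx.ne' hms.ne'] at h3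
      linarith
  have hin : ∀ x : ℂ, ∫ s : ℂ, Real.log ‖x - s‖ * rho m f e s ≤
      Real.log 2 + Real.log (mx x) + M := by
    intro x
    have hmx := Pot_log_mx_nonneg x
    have hG : Integrable (fun s : ℂ => (Real.log 2 + Real.log (mx x)) * rho m f e s +
        Real.log (mx s) * rho m f e s) := (hr.const_mul _).add hI
    have hGv : ∫ s : ℂ, ((Real.log 2 + Real.log (mx x)) * rho m f e s +
        Real.log (mx s) * rho m f e s) = Real.log 2 + Real.log (mx x) + M := by
      rw [integral_add (hr.const_mul _) hI, integral_const_mul, hr1, mul_one]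
    rw [← hGv]
    refine Pot_mono hG (by rw [hGv]; linarith) fun s => ?_
    rw [← add_mul]
    exact mul_le_mul_of_nonneg_right (hpt x s) (rho_nonneg m f e s)
  have hG : Integrable (fun x : ℂ => (Real.log 2 + M) * rho m f e x +
      Real.log (mx x) * rho m f e x) := (hr.const_mul _).add hI
  have hGv : ∫ x : ℂ, ((Real.log 2 + M) * rho m f e x + Real.log (mx x) * rho m f e x) =
      Real.log 2 + 2 * M := by
    rw [integral_add (hr.const_mul _) hI, integral_const_mul, hr1, mul_one]
    ring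
  rw [← hGv]
  refine Pot_mono hG (by rw [hGv]; linarith) fun x => ?_
  rw [← add_mul]
  refine mul_le_mul_of_nonneg_right ?_ (rho_nonneg m f e x)
  have := hin x
  linarith

theorem pot_le (D : Data m f e H) :
    (f.natDegree : ℝ) * (∫ x : ℂ, (∫ s : ℂ, Real.log ‖x - s‖ * rho m f e s) * rho m f e x) -
      2 * ∫ z, Real.log ‖(cpx f).eval z‖ * rho m f e z ≤
    f.natDegree * Real.log 2 + 2 * (-Real.log (QQ f.natDegree H) +
      m * Real.log (24 * m * (f.natDegree : ℝ) ^ 6) + (2 * m - 1) * Real.log (EE f H)) := by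
  have h1 := energy_le D
  have h2 := (Pot_int_f D).2
  have h3 := int_logQ D
  have h4 := mul_le_mul_of_nonneg_left h1 (Nat.cast_nonneg (α := ℝ) f.natDegree)
  rw [h2]
  linarith

end SzBF
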