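import Pool.Agent.SzBF.ChS
import Pool.Agent.SzBF.Mx
import Pool.Agent.SzSP.Sieve

/-!
Square sieve: discriminants of the form k y^2.
-/

open Polynomial
open scoped Classical

namespace SzBF

theorem SqS_coeff_le (N H : ℕ) (a : Fin (N + 1) → ℤ) (ha : a ∈ box N H) (i : ℕ) :
    |((form N a).coeff i : ℝ)| ≤ (H : ℝ) := by
  have hbox : ∀ j, |((a j : ℤ) : ℝ)| ≤ (H : ℝ) := by
    intro j
    have := (Fintype.mem_piFinset.mp ha) j
    rw [Finset.mem_Icc] at this
    rw [abs_le]
    constructor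
    · have h := this.1
      have h' : ((-(H : ℤ) : ℤ) : ℝ) ≤ ((a j : ℤ) : ℝ) := by exact_mod_cast h
      push_cast at h'
      exact h'
    · have h := this.2
      have h' : ((a j : ℤ) : ℝ) ≤ (((H : ℤ) : ℤ) : ℝ) := by exact_mod_cast h
      push_cast at h'
      exact h'
  by_cases hi : i < N + 1
  · have := form_coeff N a ⟨i, hi⟩
    simp only at this
    rw [this]
    exact hbox _
  · have h0 : (form N a).coeff i = 0 := by
      rw [form, finsetSum_coeff]
      refine Finset.sum_eq_zero fun j _ => ?_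
      rw [coeff_C_mul, coeff_X_pow, if_neg, mul_zero]
      have := j.2
      omega
    rw [h0]
    simp

theorem SqS_term (p N : ℕ) (hp : p.Prime) (a : Fin (N + 1) → ℤ) (k y : ℤ)
    (h : (form N a).discr = k * y ^ 2) :
    (if p ∣ (form N a).discr.natAbs * (a (Fin.last N)).natAbs then (0 : ℝ) else 1) ≤
      SzSP.Sieve_kap k p * chr p N a := by
  have : Fact p.Prime := ⟨hp⟩
  by_cases h0 : ((a (Fin.last N) : ℤ) : ZMod p) = 0
  · have hd : p ∣ (form N a).discr.natAbs * (a (Fin.last N)).natAbs := by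
      rw [ZMod.intCast_zmod_eq_zero_iff_dvd] at h0
      exact Dvd.dvd.mul_left (Int.natCast_dvd.mp h0) _
    rw [if_pos hd]
    unfold chr
    rw [dif_pos hp, if_pos h0, mul_zero]
  have e1 : SzSP.Sieve_kap k p * chr p N a =
      ((quadraticChar (ZMod p) ((k * y : ℤ) : ZMod p) : ℤ) : ℝ) ^ 2 := by
    unfold SzSP.Sieve_kap chr
    rw [dif_pos hp, dif_pos hp, if_neg h0]
    rw [← Int.cast_mul, ← map_mul, h]
    rw [← Int.cast_pow, ← map_pow]
    congr 3
    push_cast
    ring
  rw [e1]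
  split_ifs with hd
  · positivity
  · have h0 : ((k * y : ℤ) : ZMod p) ≠ 0 := by
      intro h1
      apply hd
      rw [ZMod.intCast_zmod_eq_zero_iff_dvd] at h1
      apply Dvd.dvd.mul_right
      rw [← Int.natCast_dvd, h]
      have : k * y ^ 2 = (k * y) * y := by ring
      rw [this]
      exact Dvd.dvd.mul_right h1 y
    rcases quadraticChar_dichotomy h0 with h | h
    · rw [h]; norm_num
    · rw [h]; norm_num

/-- the sieving primes -/
noncomputable def SqS_P (z : ℕ) : Finset ℕ :=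
  (Finset.range (z + 1)).filter (fun p => p.Prime ∧ p ≠ 2)

theorem SqS_card_P (z : ℕ) : (Nat.primeCounting z : ℝ) ≤ (SqS_P z).card + 1 := by
  have h1 : ((Finset.range (z + 1)).filter Nat.Prime) ⊆ SqS_P z ∪ {2} := by
    intro p hp
    rw [Finset.mem_filter] at hp
    rw [Finset.mem_union, Finset.mem_singleton, SqS_P, Finset.mem_filter]
    by_cases h2 : p = 2
    · right; exact h2
    · left
      exact ⟨hp.1, hp.2, h2⟩
  have h2 := Finset.card_le_card h1
  have h3 := h2.trans (Finset.card_union_le _ _)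
  rw [Finset.card_singleton] at h3
  have h4 : Nat.primeCounting z = ((Finset.range (z + 1)).filter Nat.Prime).card := by
    rw [Nat.primeCounting, Nat.primeCounting', Nat.count_eq_card_filter_range]
  rw [h4]
  exact_mod_cast h3

theorem SqS_lower (N : ℕ) (P : Finset ℕ) (hP : ∀ p ∈ P, p.Prime) (a : Fin (N + 1) → ℤ)
    (ha : a (Fin.last N) ≠ 0)
    (k y : ℤ) (hk : k ≠ 0) (hy : y ≠ 0) (h : (form N a).discr = k * y ^ 2) (w : ℝ)
    (hw : Real.log ((form N a).discr.natAbs * (a (Fin.last N)).natAbs : ℕ) ≤ w * Real.log 2) :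
    (P.card : ℝ) - w ≤ ∑ p ∈ P, SzSP.Sieve_kap k p * chr p N a := by
  have h0 : (form N a).discr.natAbs * (a (Fin.last N)).natAbs ≠ 0 := by
    apply mul_ne_zero
    · rw [Int.natAbs_ne_zero, h]
      exact mul_ne_zero hk (pow_ne_zero _ hy)
    · rw [Int.natAbs_ne_zero]
      exact ha
  set D := (form N a).discr.natAbs * (a (Fin.last N)).natAbs with hD
  have h1 := SzSP.Sieve_bad _ h0 P hP
  have hl2 : 0 < Real.log 2 := Real.log_pos (by norm_num)
  have h2 : ((P.filter (fun p => p ∣ D)).card : ℝ) ≤ w := by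
    by_contra hcon
    push Not at hcon
    nlinarith
  calc (P.card : ℝ) - w ≤ (P.card : ℝ) -
        ((P.filter (fun p => p ∣ D)).card : ℝ) := by linarith
    _ = ∑ p ∈ P, (if p ∣ D then (0 : ℝ) else 1) := by
        rw [Finset.sum_ite]
        simp only [Finset.sum_const_zero, zero_add, Finset.sum_const, nsmul_eq_mul, mul_one]
        have := Finset.card_filter_add_card_filter_not (s := P)
          (fun p => p ∣ D)
        have h3 : (P.card : ℝ) = (P.filter (fun p => p ∣ D)).card +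
          (P.filter (fun p => ¬ p ∣ D)).card := by
          rw [← this]; push_cast; ring
        rw [h3]; ring
    _ ≤ _ := Finset.sum_le_sum fun p hp => SqS_term p N (hP p hp) a k y h

theorem SqS_upper (N : ℕ) (hN : 2 ≤ N) (H z : ℕ) (hH : 1 ≤ H) (k : ℤ) :
    ∑ a ∈ box N H, (∑ p ∈ SqS_P z, SzSP.Sieve_kap k p * chr p N a) ^ 2 ≤
      ((SqS_P z).card + ((SqS_P z).card : ℝ) ^ 2 * ((N + 1) * (z : ℝ) ^ 2 / H)) *
        (box N H).card := by
  have hT0 : (0 : ℝ) < H := by exact_mod_cast hH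
  have e1 : ∀ a, (∑ p ∈ SqS_P z, SzSP.Sieve_kap k p * chr p N a) ^ 2 =
      ∑ p ∈ SqS_P z, ∑ q ∈ SqS_P z,
        (SzSP.Sieve_kap k p * SzSP.Sieve_kap k q) * (chr p N a * chr q N a) := by
    intro a
    rw [sq, Finset.sum_mul_sum]
    refine Finset.sum_congr rfl fun p _ => Finset.sum_congr rfl fun q _ => by ring
  simp only [e1]
  rw [Finset.sum_comm]
  have e2 : ∀ p ∈ SqS_P z, ∑ a ∈ box N H, ∑ q ∈ SqS_P z,
      (SzSP.Sieve_kap k p * SzSP.Sieve_kap k q) * (chr p N a * chr q N a) ≤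
      (1 + (SqS_P z).card * ((N + 1) * (z : ℝ) ^ 2 / H)) * (box N H).card := by
    intro p hp
    rw [Finset.sum_comm]
    have hp' := (Finset.mem_filter.mp hp).2
    have hpz : (p : ℝ) ≤ z := by
      have := Finset.mem_range.mp (Finset.mem_filter.mp hp).1
      exact_mod_cast Nat.lt_succ_iff.mp this
    have e3 : ∀ q ∈ SqS_P z, ∑ a ∈ box N H,
        (SzSP.Sieve_kap k p * SzSP.Sieve_kap k q) * (chr p N a * chr q N a) ≤
        ((if q = p then (1 : ℝ) else 0) + ((N + 1) * (z : ℝ) ^ 2 / H)) * (box N H).card := by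
      intro q hq
      have hq' := (Finset.mem_filter.mp hq).2
      have hqz : (q : ℝ) ≤ z := by
        have := Finset.mem_range.mp (Finset.mem_filter.mp hq).1
        exact_mod_cast Nat.lt_succ_iff.mp this
      have hkk : |SzSP.Sieve_kap k p * SzSP.Sieve_kap k q| ≤ 1 := by
        rw [abs_mul]
        exact mul_le_one₀ (SzSP.Sieve_abs_kap k p) (abs_nonneg _) (SzSP.Sieve_abs_kap k q)
      rw [← Finset.mul_sum]
      refine (le_abs_self _).trans ?_
      rw [abs_mul]
      refine (mul_le_of_le_one_left (abs_nonneg _) hkk).trans ?_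
      by_cases hqp : q = p
      · rw [if_pos hqp]
        calc |∑ a ∈ box N H, chr p N a * chr q N a| ≤ ∑ a ∈ box N H, |chr p N a * chr q N a| :=
              Finset.abs_sum_le_sum_abs _ _
          _ ≤ ∑ a ∈ box N H, 1 := by
              refine Finset.sum_le_sum fun a _ => ?_
              rw [abs_mul]
              exact mul_le_one₀ (abs_chr_le p N a) (abs_nonneg _) (abs_chr_le q N a)
          _ = (box N H).card := by simp
          _ ≤ _ := by
              have : (0 : ℝ) ≤ ((N + 1) * (z : ℝ) ^ 2 / H) := by positivity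
              have h3 : (0 : ℝ) ≤ (box N H).card := by positivity
              nlinarith
      · rw [if_neg hqp, zero_add]
        refine (pair_sum N hN p q hp'.1 hq'.1 (fun h => hqp h.symm) hp'.2 H hH).trans ?_
        gcongr
        rw [sq]
        gcongr
    refine (Finset.sum_le_sum e3).trans ?_
    rw [← Finset.sum_mul, Finset.sum_add_distrib, Finset.sum_ite_eq' _ p, if_pos hp,
      Finset.sum_const, nsmul_eq_mul]
  refine (Finset.sum_le_sum e2).trans ?_
  rw [Finset.sum_const, nsmul_eq_mul]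
  apply le_of_eq
  ring

theorem SqS_logle (N : ℕ) (hN : 2 ≤ N) (H : ℕ) (hH : 2 ≤ H) (a : Fin (N + 1) → ℤ)
    (hab : a ∈ box N H) (ha : a (Fin.last N) ≠ 0) (hd : (form N a).discr ≠ 0) :
    Real.log ((form N a).discr.natAbs * (a (Fin.last N)).natAbs : ℕ) ≤
      9 * (N : ℝ) ^ 2 * Real.log H * Real.log 2 := by
  have hH2 : (2 : ℝ) ≤ H := by exact_mod_cast hH
  have hN2 : (2 : ℝ) ≤ N := by exact_mod_cast hN
  have hnd := form_natDegree N a ha
  have h1 := discr_le (form N a) (by rw [hnd]; exact hN) hd H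
    (SqS_coeff_le N H a hab)
  rw [hnd] at h1
  set Q := QQ N (H : ℝ) with hQ
  have hQe : Q = (N + 1) * H := rfl
  have hNQ : (N : ℝ) ≤ Q := by rw [hQe]; nlinarith
  have hHQ : (H : ℝ) ≤ Q := by rw [hQe]; nlinarith
  have hQ1 : 1 ≤ Q := by linarith
  have hlast : ((a (Fin.last N)).natAbs : ℝ) ≤ H := by
    have h2 := SqS_coeff_le N H a hab N
    have h3 := form_coeff N a (Fin.last N)
    rw [Fin.val_last] at h3
    rw [h3] at h2
    rw [Nat.cast_natAbs]
    exact_mod_cast h2
  have h4 : (((form N a).discr.natAbs * (a (Fin.last N)).natAbs : ℕ) : ℝ) ≤ Q ^ (3 * N) := by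
    push_cast
    have h5 : (((form N a).discr.natAbs : ℕ) : ℝ) ≤ Q ^ N * Q ^ (2 * N - 2) := by
      have h6 : (((form N a).discr.natAbs : ℕ) : ℝ) = |((form N a).discr : ℝ)| := by
        rw [Nat.cast_natAbs]; push_cast; rfl
      rw [h6]
      refine h1.trans ?_
      gcongr
    calc _ ≤ (Q ^ N * Q ^ (2 * N - 2)) * Q := by
          have : (0 : ℝ) ≤ ((a (Fin.last N)).natAbs : ℝ) := by positivity
          have h7 : ((a (Fin.last N)).natAbs : ℝ) ≤ Q := hlast.trans hHQ
          have h8 : (0 : ℝ) ≤ Q ^ N * Q ^ (2 * N - 2) := by positivity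
          exact mul_le_mul h5 h7 this h8
      _ = Q ^ (N + (2 * N - 2) + 1) := by rw [pow_succ, pow_add]
      _ ≤ Q ^ (3 * N) := pow_le_pow_right₀ hQ1 (by omega)
  have h0 : 0 < (form N a).discr.natAbs * (a (Fin.last N)).natAbs := by
    apply Nat.pos_of_ne_zero
    apply mul_ne_zero
    · rw [Int.natAbs_ne_zero]; exact hd
    · rw [Int.natAbs_ne_zero]; exact ha
  have h5 := Real.log_le_log (by exact_mod_cast h0) h4
  rw [Real.log_pow, hQe, Real.log_mul (by positivity) (by positivity)] at h5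
  refine h5.trans ?_
  have hl2 : 0.6931471803 < Real.log 2 := Real.log_two_gt_d9
  have hlH : Real.log 2 ≤ Real.log H := Real.log_le_log (by norm_num) hH2
  have hlN : Real.log ((N : ℝ) + 1) ≤ N := by
    have := Real.log_le_sub_one_of_pos (show (0 : ℝ) < (N : ℝ) + 1 by positivity)
    linarith
  push_cast
  have hlH0 : 0 < Real.log H := by linarith
  -- 3 N (N + log H) ≤ 9 N^2 log H log 2
  have h6 : (N : ℝ) * 0.6931 ≤ N * Real.log H := by gcongr; linarith
  have h7 : (6.238 : ℝ) * Real.log H ≤ 9 * Real.log H * Real.log 2 := by nlinarith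
  have h8 : 3 * ((N : ℝ) + Real.log H) ≤ 6.238 * N * Real.log H := by nlinarith
  calc 3 * (N : ℝ) * (Real.log (N + 1) + Real.log H) ≤ 3 * N * (N + Real.log H) := by gcongr
    _ = N * (3 * (N + Real.log H)) := by ring
    _ ≤ N * (6.238 * N * Real.log H) := by gcongr
    _ = N ^ 2 * (6.238 * Real.log H) := by ring
    _ ≤ N ^ 2 * (9 * Real.log H * Real.log 2) := by gcongr
    _ = _ := by ring

theorem sieve (N : ℕ) (hN : 2 ≤ N) : ∃ A : ℝ, ∀ H : ℕ, 2 ≤ H → ∀ k : ℤ, k ≠ 0 →
    (((box N H).filter (fun a => a (Fin.last N) ≠ 0 ∧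
      ∃ y : ℤ, y ≠ 0 ∧ (form N a).discr = k * y ^ 2)).card : ℝ)
      ≤ A * (H : ℝ) ^ (-(1 / 3 : ℝ)) * Real.log H * (box N H).card := by
  set s0 : ℝ := 11520 * ((N : ℝ) + 1) ^ 2 with hs0
  have hl2 : 0 < Real.log 2 := Real.log_pos (by norm_num)
  have hl2' : 0.6931471803 < Real.log 2 := Real.log_two_gt_d9
  have hs01 : 11520 ≤ s0 := by
    rw [hs0]; nlinarith [(Nat.cast_nonneg N : (0 : ℝ) ≤ N)]
  refine ⟨s0 ^ 4 / Real.log 2 + (16 + 4 * (N + 1) / Real.log 2), fun H hH k hk => ?_⟩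
  have hT2 : (2 : ℝ) ≤ H := by exact_mod_cast hH
  have hT0 : (0 : ℝ) < H := by linarith
  have hlT : Real.log 2 ≤ Real.log H := Real.log_le_log (by norm_num) hT2
  have hlT0 : 0 < Real.log H := by linarith
  set s : ℝ := (H : ℝ) ^ (1 / 12 : ℝ) with hs
  have hspos : 0 < s := Real.rpow_pos_of_pos hT0 _
  have hs4 : s ^ 4 = (H : ℝ) ^ (1 / 3 : ℝ) := by
    rw [hs, ← Real.rpow_natCast, ← Real.rpow_mul hT0.le]; norm_num
  have hs12 : s ^ 12 = (H : ℝ) := by
    rw [hs, ← Real.rpow_natCast, ← Real.rpow_mul hT0.le]; norm_num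
  have hinv : (H : ℝ) ^ (-(1 / 3 : ℝ)) = (s ^ 4)⁻¹ := by
    rw [Real.rpow_neg hT0.le, hs4]
  have hlogs : Real.log H ≤ 12 * s := by
    have := Real.log_le_rpow_div hT0.le (show (0 : ℝ) < 1 / 12 by norm_num)
    rw [← hs] at this
    linarith
  set S := (box N H).filter (fun a => a (Fin.last N) ≠ 0 ∧
      ∃ y : ℤ, y ≠ 0 ∧ (form N a).discr = k * y ^ 2) with hS
  have hN1 : (S.card : ℝ) ≤ (box N H).card := by
    exact_mod_cast Finset.card_filter_le _ _
  have hb0 : (0 : ℝ) ≤ (box N H).card := by positivity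
  have hn0 : (0 : ℝ) ≤ N := Nat.cast_nonneg N
  rw [hinv]
  rcases le_or_gt s s0 with hss | hss
  · refine hN1.trans ?_
    have h1 : 1 ≤ (s0 ^ 4 / Real.log 2 + (16 + 4 * (N + 1) / Real.log 2)) * (s ^ 4)⁻¹ *
        Real.log H := by
      have h2 : s0 ^ 4 / Real.log 2 ≤ s0 ^ 4 / Real.log 2 + (16 + 4 * (N + 1) / Real.log 2) := by
        have : 0 ≤ 16 + 4 * ((N : ℝ) + 1) / Real.log 2 := by positivity
        linarith
      have h3 : s ^ 4 ≤ s0 ^ 4 := pow_le_pow_left₀ hspos.le hss 4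
      calc (1 : ℝ) = s ^ 4 / Real.log 2 * (s ^ 4)⁻¹ * Real.log 2 := by
            field_simp
        _ ≤ s0 ^ 4 / Real.log 2 * (s ^ 4)⁻¹ * Real.log H := by gcongr
        _ ≤ _ := by gcongr
    nlinarith
  · set z : ℕ := ⌊(H : ℝ) ^ (1 / 3 : ℝ)⌋₊ with hz
    have hz1 : (z : ℝ) ≤ s ^ 4 := by
      rw [hs4]; exact Nat.floor_le (by positivity)
    have hz2 : s ^ 4 - 1 ≤ z := by
      rw [hs4]
      have := Nat.lt_floor_add_one ((H : ℝ) ^ (1 / 3 : ℝ))
      rw [← hz] at this
      linarith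
    have hs1 : 11520 ≤ s := by linarith
    have hs2 : s ≤ s ^ 2 := by nlinarith
    have hs3 : s ≤ s ^ 3 := by nlinarith [sq_nonneg s]
    have hs4' : 11520 ≤ s ^ 4 := by nlinarith [sq_nonneg s, sq_nonneg (s ^ 2)]
    have hzbig : (11519 : ℝ) ≤ z := by linarith
    have hz0 : (0 : ℝ) < z := by linarith
    have hzT : (z : ℝ) ≤ H := by
      refine hz1.trans ?_
      rw [← hs12]
      exact pow_le_pow_right₀ (by linarith) (by norm_num)
    have hlz : 0 < Real.log z := Real.log_pos (by linarith)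
    have hlzT : Real.log z ≤ Real.log H := Real.log_le_log hz0 hzT
    set c : ℝ := ((SqS_P z).card : ℝ) with hc
    -- number of primes
    have hpi : s ^ 4 / (3 * Real.log H) ≤ (Nat.primeCounting z : ℝ) := by
      have h1 := Chebyshev.pi_ge z
      refine le_trans ?_ h1
      have h2 : Real.log (z + 1) ≤ 0.1 * z := by
        have h3 : Real.log ((z : ℝ) + 1) ≤ ((z : ℝ) + 1) ^ (1 / 2 : ℝ) / (1 / 2) :=
          Real.log_le_rpow_div (by linarith) (by norm_num)
        rw [← Real.sqrt_eq_rpow] at h3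
        have h4 : Real.sqrt ((z : ℝ) + 1) ≤ 0.05 * z := by
          rw [Real.sqrt_le_left (by positivity)]
          nlinarith
        linarith
      have h3 : 1 / 2 * (z : ℝ) ≤ z * Real.log 2 - Real.log (z + 1) := by nlinarith
      calc s ^ 4 / (3 * Real.log H) ≤ (1 / 2 * (z : ℝ)) / Real.log H := by
            rw [div_le_div_iff₀ (by positivity) hlT0]
            nlinarith
        _ ≤ (1 / 2 * (z : ℝ)) / Real.log z := by gcongr
        _ ≤ _ := by gcongr
    have hcP := SqS_card_P z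
    rw [← hc] at hcP
    have hc1 : s ^ 4 / (4 * Real.log H) ≤ c := by
      have h1 : (1 : ℝ) ≤ s ^ 4 / (12 * Real.log H) := by
        rw [le_div_iff₀ (by positivity)]
        calc (1 : ℝ) * (12 * Real.log H) ≤ 1 * (12 * (12 * s)) := by gcongr
          _ = 144 * s := by ring
          _ ≤ s ^ 3 * s := by gcongr; linarith
          _ = s ^ 4 := by ring
      have h3 : s ^ 4 / (4 * Real.log H) = s ^ 4 / (3 * Real.log H) - s ^ 4 / (12 * Real.log H) := by
        field_simp
        norm_num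
      rw [h3]
      linarith
    have hcpos : 0 < c := lt_of_lt_of_le (by positivity) hc1
    set w : ℝ := 9 * N ^ 2 * Real.log H with hw
    have hwc : w ≤ c / 2 := by
      have h1 : w ≤ s ^ 4 / (4 * Real.log H) / 2 := by
        rw [div_div, le_div_iff₀ (by positivity), hw]
        have h2 : 10368 * (N : ℝ) ^ 2 ≤ s ^ 2 := by
          have : 10368 * (N : ℝ) ^ 2 ≤ s0 := by rw [hs0]; nlinarith
          linarith
        calc 9 * (N : ℝ) ^ 2 * Real.log H * (4 * Real.log H * 2)
            = 72 * (N : ℝ) ^ 2 * Real.log H ^ 2 := by ring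
          _ ≤ 72 * (N : ℝ) ^ 2 * (12 * s) ^ 2 := by gcongr
          _ = (10368 * (N : ℝ) ^ 2) * s ^ 2 := by ring
          _ ≤ s ^ 2 * s ^ 2 := by gcongr
          _ = s ^ 4 := by ring
      linarith
    have hPp : ∀ p ∈ SqS_P z, p.Prime := fun p hp => (Finset.mem_filter.mp hp).2.1
    -- lower bound for each element
    have hlow : ∀ a ∈ S,
        (c / 2) ^ 2 ≤ (∑ p ∈ SqS_P z, SzSP.Sieve_kap k p * chr p N a) ^ 2 := by
      intro a ha
      rw [hS, Finset.mem_filter] at ha
      obtain ⟨hab, ha0, y, hy, hD⟩ := ha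
      have h0 : (form N a).discr ≠ 0 := by
        rw [hD]
        exact mul_ne_zero hk (pow_ne_zero _ hy)
      have h1 := SqS_logle N hN H hH a hab ha0 h0
      have h2 := SqS_lower N (SqS_P z) hPp a ha0 k y hk hy hD w h1
      rw [← hc] at h2
      apply pow_le_pow_left₀ (by positivity)
      linarith
    have hup := SqS_upper N hN H z (by omega) k
    have hsum : (S.card : ℝ) * (c / 2) ^ 2 ≤
        (c + c ^ 2 * ((N + 1) * (z : ℝ) ^ 2 / H)) * (box N H).card := by
      refine le_trans ?_ hup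
      rw [← nsmul_eq_mul, ← Finset.sum_const]
      refine (Finset.sum_le_sum hlow).trans ?_
      exact Finset.sum_le_sum_of_subset_of_nonneg (Finset.filter_subset _ _)
        fun _ _ _ => sq_nonneg _
    have hfin : (S.card : ℝ) ≤
        4 * (1 / c + ((N + 1) * (z : ℝ) ^ 2 / H)) * (box N H).card := by
      have h1 : (0 : ℝ) < (c / 2) ^ 2 := by positivity
      rw [← le_div_iff₀ h1] at hsum
      refine hsum.trans (le_of_eq ?_)
      field_simp
      ring
    refine hfin.trans (mul_le_mul_of_nonneg_right ?_ hb0)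
    have h1 : 1 / c ≤ 4 * Real.log H / s ^ 4 := by
      rw [div_le_div_iff₀ hcpos (by positivity)]
      rw [div_le_iff₀ (by positivity)] at hc1
      linarith
    have h2 : ((N : ℝ) + 1) * (z : ℝ) ^ 2 / H ≤ (N + 1) * (s ^ 4)⁻¹ := by
      rw [mul_div_assoc]
      gcongr
      rw [div_le_iff₀ (by positivity), ← hs12]
      calc (z : ℝ) ^ 2 ≤ (s ^ 4) ^ 2 := by gcongr
        _ = (s ^ 4)⁻¹ * s ^ 12 := by field_simp
    have h3 : ((N : ℝ) + 1) * (s ^ 4)⁻¹ ≤ (N + 1) / Real.log 2 * (s ^ 4)⁻¹ * Real.log H := by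
      have : ((N : ℝ) + 1) * (s ^ 4)⁻¹ = (N + 1) / Real.log 2 * (s ^ 4)⁻¹ * Real.log 2 := by
        field_simp
      rw [this]
      gcongr
    calc 4 * (1 / c + (N + 1) * (z : ℝ) ^ 2 / H)
        ≤ 4 * (4 * Real.log H / s ^ 4 + (N + 1) / Real.log 2 * (s ^ 4)⁻¹ * Real.log H) := by
          linarith
      _ = (0 + (16 + 4 * (N + 1) / Real.log 2)) * (s ^ 4)⁻¹ * Real.log H := by
          rw [div_eq_mul_inv (4 * Real.log H)]; ring
      _ ≤ _ := by
          gcongr
          positivity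

end SzBF
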